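import Pool.Agent.K1H41.OV.Stm

set_option autoImplicit false

namespace Pool.Agent.K1H41.OV

open scoped RealInnerProductSpace Topology ContDiff

theorem d3_neg (h : E3 → ℝ) (v e : E3) : d3 h v (-e) (-e) (-e) = - d3 h v e e e := by
  unfold d3
  simp

theorem t_AM (hONE : S_ONE) (hTWO : S_TWO) (hEIG : S_EIG) (hOPN : S_OPN)
    (hCU : S_CU) (hSPH : S_SPH) : S_AM := by
  rintro h hh ⟨p₀, hp₀, huniq⟩
  apply hSPH h hh
  -- for `e` principal, `d3` vanishes or not independently of the sign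
  have hsgn1 : ∀ v, ‖v‖ = 1 → ¬ Umb h v → ∀ e e', Dir h 1 v e → Dir h 1 v e' →
      d3 h v e e e = 0 → d3 h v e' e' e' = 0 := by
    intro v hv hu e e' he he' h0
    obtain ⟨e₁, e₂, _, _, _, _, _, hd, _⟩ := hEIG h v hh hv hu
    rcases hd e he with rfl | rfl <;> rcases hd e' he' with rfl | rfl
    · exact h0
    · rw [d3_neg, h0, neg_zero]
    · rw [d3_neg, neg_eq_zero] at h0
      exact h0
    · exact h0
  have hsgn2 : ∀ v, ‖v‖ = 1 → ¬ Umb h v → ∀ e e', Dir h (-1) v e → Dir h (-1) v e' →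
      d3 h v e e e = 0 → d3 h v e' e' e' = 0 := by
    intro v hv hu e e' he he' h0
    obtain ⟨e₁, e₂, _, _, _, _, _, _, hd⟩ := hEIG h v hh hv hu
    rcases hd e he with rfl | rfl <;> rcases hd e' he' with rfl | rfl
    · exact h0
    · rw [d3_neg, h0, neg_zero]
    · rw [d3_neg, neg_eq_zero] at h0
      exact h0
    · exact h0
  have hinf : ∀ p, {v | Crit h p v}.Infinite → p = p₀ := by
    intro p hp
    apply huniq
    change 6 ≤ {v | Crit h p v}.encard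
    rw [hp.encard_eq]
    exact le_top
  have hA : ∀ v, ‖v‖ = 1 → ¬ Umb h v → Crit h p₀ v := by
    intro v hv hu
    by_contra hc
    obtain ⟨O₁, hO₁, hvO₁, hO₁'⟩ := (hOPN h v hh hv).1 hu
    obtain ⟨O₂, hO₂, hvO₂, hO₂'⟩ := (hOPN h v hh hv).2.1 p₀ hc
    -- not both third derivatives are nonzero
    have hB : ∀ v' ∈ O₁ ∩ O₂, ‖v'‖ = 1 → (∀ e, Dir h 1 v' e → d3 h v' e e e ≠ 0) →
        ∀ e, Dir h (-1) v' e → d3 h v' e e e = 0 := by
      intro v' hv' hn' hc1 e he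
      have hu' := hO₁' v' hv'.1 hn'
      obtain ⟨e₁, e₂, hF, h12, hlt, hd1, hd2, _, _⟩ := hEIG h v' hh hn' hu'
      by_contra hne
      have hne2 : d3 h v' e₂ e₂ e₂ ≠ 0 := fun h0 => hne (hsgn2 v' hn' hu' e₂ e hd2 he h0)
      obtain ⟨p, hp1, hp2⟩ := hONE h v' e₁ e₂ hh hF h12 hlt (hc1 e₁ hd1) hne2
      have : p = p₀ := huniq p hp2
      rw [this] at hp1
      exact hO₂' v' hv'.2 hp1
    by_cases hcase : ∃ v' ∈ O₁ ∩ O₂, ‖v'‖ = 1 ∧ ∀ e, Dir h 1 v' e → d3 h v' e e e ≠ 0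
    · obtain ⟨v', hv', hn', hc1⟩ := hcase
      obtain ⟨O₃, hO₃, hvO₃, hO₃'⟩ := (hOPN h v' hh hn').2.2 1 (Or.inl rfl) (hO₁' v' hv'.1 hn') hc1
      obtain ⟨p, hp1, hp2⟩ := hTWO h (-1) ((O₁ ∩ O₂) ∩ O₃) hh (Or.inr rfl)
        ((hO₁.inter hO₂).inter hO₃)
        (fun y hy hny => ⟨hO₁' y hy.1.1 hny, hB y hy.1 hny (hO₃' y hy.2 hny)⟩) v' ⟨hv', hvO₃⟩ hn'
      rw [hinf p hp2] at hp1
      exact hO₂' v' hv'.2 hp1
    · push Not at hcase
      obtain ⟨p, hp1, hp2⟩ := hTWO h 1 (O₁ ∩ O₂) hh (Or.inl rfl) (hO₁.inter hO₂)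
        (fun y hy hny => ⟨hO₁' y hy.1 hny, fun e he => by
          obtain ⟨e', he', h0⟩ := hcase y hy hny
          exact hsgn1 y hny (hO₁' y hy.1 hny) e' e he' he h0⟩) v ⟨hvO₁, hvO₂⟩ hv
      rw [hinf p hp2] at hp1
      exact hc hp1
  intro v hv
  by_contra hu
  obtain ⟨O, hO, hvO, hO'⟩ := (hOPN h v hh hv).1 hu
  exact hu (hCU h p₀ O hh hO (fun y hy hny => hA y hny (hO' y hy hny)) v hvO hv)

theorem t_FIN (hAM : S_AM) (hSUP : S_SUP) : S_FIN := by
  intro S hS ⟨p₀, hp₀, huniq⟩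
  obtain ⟨h, X, hh, hbij, hd1, hfoot⟩ := hSUP S hS
  have hfeet : ∀ p, {q | IsFoot S p q} = X '' {v | Crit h p v} := by
    intro p
    ext q
    constructor
    · intro hq
      obtain ⟨v, hv, rfl⟩ := hbij.surjOn hq.1
      have hv1 : ‖v‖ = 1 := by simpa using hv
      exact ⟨v, (hfoot p v hv1).1 hq, rfl⟩
    · rintro ⟨v, hv, rfl⟩
      exact (hfoot p v hv.1).2 hv
  have hcard : ∀ p, {q | IsFoot S p q}.encard = {v | Crit h p v}.encard := by
    intro p
    rw [hfeet]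
    apply Set.InjOn.encard_image
    intro v hv v' hv' hvv
    exact hbij.injOn (by simpa using hv.1) (by simpa using hv'.1) hvv
  have hex : ∃! p, 6 ≤ {v | Crit h p v}.encard := by
    refine ⟨p₀, ?_, fun p hp => huniq p ?_⟩
    · change 6 ≤ {v | Crit h p₀ v}.encard
      rw [← hcard]
      exact hp₀
    · change 6 ≤ {q | IsFoot S p q}.encard
      rw [hcard]
      exact hp
  obtain ⟨c, r, hr, hform⟩ := hAM h hh hex
  refine ⟨c, r, hr, ?_⟩
  -- the derivative of `h`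
  have hX : ∀ v, ‖v‖ = 1 → X v = c + r • v := by
    intro v hv
    have hv0 : v ≠ 0 := by
      intro h
      rw [h, norm_zero] at hv
      exact zero_ne_one hv
    refine ext_inner_right ℝ (fun w => ?_)
    rw [← hd1 v w hv, d1]
    have heq : h =ᶠ[𝓝 v] fun y => ⟪c, y⟫ + r * ‖y‖ := by
      filter_upwards [isOpen_compl_singleton.mem_nhds hv0] with y hy
      exact hform y hy
    rw [heq.fderiv_eq]
    have hn : HasFDerivAt (fun y : E3 => ‖y‖) (innerSL ℝ v) v := by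
      have h1 := (hasStrictFDerivAt_norm_sq v).hasFDerivAt
      have h2 : HasFDerivAt (fun y : E3 => Real.sqrt (‖y‖ ^ 2))
          ((1 / (2 * Real.sqrt (‖v‖ ^ 2))) • (2 • innerSL ℝ v)) v :=
        h1.sqrt (by rw [hv]; norm_num)
      have h3 : (fun y : E3 => Real.sqrt (‖y‖ ^ 2)) = fun y => ‖y‖ := by
        ext y
        exact Real.sqrt_sq (norm_nonneg y)
      rw [h3, hv] at h2
      have h4 : (1 / (2 * Real.sqrt ((1 : ℝ) ^ 2))) • (2 • innerSL ℝ v) = innerSL ℝ v := by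
        rw [one_pow, Real.sqrt_one, ← Nat.cast_smul_eq_nsmul ℝ, smul_smul]
        norm_num
      rw [h4] at h2
      exact h2
    have hder : HasFDerivAt (fun y : E3 => ⟪c, y⟫ + r * ‖y‖) (innerSL ℝ c + r • innerSL ℝ v) v :=
      ((innerSL ℝ c).hasFDerivAt).add (hn.const_mul r)
    rw [hder.fderiv]
    simp only [add_apply, smul_apply, innerSL_apply_apply, smul_eq_mul,
      inner_add_left, real_inner_smul_left]
  ext q
  constructor
  · intro hq
    obtain ⟨v, hv, rfl⟩ := hbij.surjOn hq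
    have hv1 : ‖v‖ = 1 := by simpa using hv
    rw [hX v hv1, Metric.mem_sphere, dist_eq_norm, add_sub_cancel_left, norm_smul, hv1, mul_one,
      Real.norm_of_nonneg hr.le]
  · intro hq
    rw [Metric.mem_sphere, dist_eq_norm] at hq
    have hv1 : ‖r⁻¹ • (q - c)‖ = 1 := by
      rw [norm_smul, hq, norm_inv, Real.norm_of_nonneg hr.le, inv_mul_cancel₀ hr.ne']
    have h1 := hX _ hv1
    rw [smul_smul, mul_inv_cancel₀ hr.ne', one_smul, add_sub_cancel] at h1
    rw [← h1]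
    exact hbij.mapsTo (by simpa using hv1)

end Pool.Agent.K1H41.OV
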