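import Mathlib

/-!
# Ovaloids, feet of normals and six-normal points: definitions
-/

set_option autoImplicit false

namespace Pool.Agent.K1H41.OV

open scoped RealInnerProductSpace Topology ContDiff

/-- Euclidean 3-space -/
abbrev E3 : Type := EuclideanSpace ℝ (Fin 3)

/-- `f` is a smooth local defining function of the surface `S` at `q`: near `q` the surface is the
zero set of the smooth function `f`, whose derivative at `q` is not zero. The tangent plane of `S`
at `q` is the kernel of `fderiv ℝ f q`. -/
def IsDefFn (S : Set E3) (q : E3) (f : E3 → ℝ) : Prop :=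
  ∃ U : Set E3, IsOpen U ∧ q ∈ U ∧ ContDiffOn ℝ ∞ f U ∧ fderiv ℝ f q ≠ 0 ∧
    ∀ x ∈ U, (x ∈ S ↔ f x = 0)

/-- the second fundamental form of `{f = 0}` at `q` is definite, that is, the Gaussian curvature
is positive: the Hessian of `f` does not vanish on nonzero tangent vectors -/
def PosCurv (f : E3 → ℝ) (q : E3) : Prop :=
  ∀ w : E3, fderiv ℝ f q w = 0 → w ≠ 0 → fderiv ℝ (fderiv ℝ f) q w w ≠ 0

/-- an ovaloid: the boundary of a compact convex body which is a smooth surface with everywhere
positive Gaussian curvature -/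
def IsOvaloid (S : Set E3) : Prop :=
  (∃ K : Set E3, Convex ℝ K ∧ IsCompact K ∧ (interior K).Nonempty ∧ S = frontier K) ∧
    ∀ q ∈ S, ∃ f : E3 → ℝ, IsDefFn S q f ∧ PosCurv f q

/-- `q` is the foot of a normal from `p` to `S`: `q ∈ S` and `p - q` is orthogonal to the tangent
plane of `S` at `q` -/
def IsFoot (S : Set E3) (p q : E3) : Prop :=
  q ∈ S ∧ ∃ f : E3 → ℝ, IsDefFn S q f ∧ ∀ w : E3, fderiv ℝ f q w = 0 → ⟪p - q, w⟫ = 0

/-- at least six points of `S` are feet of normals from `p` -/
def SixNormal (S : Set E3) (p : E3) : Prop := 6 ≤ {q | IsFoot S p q}.encard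

end Pool.Agent.K1H41.OV
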