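import Pool.Agent.K1H41.OV.Stm

set_option autoImplicit false

namespace Pool.Agent.K1H41.OV

open scoped RealInnerProductSpace Topology ContDiff

theorem six_le {α : Type} {T : Set α} (Q : α → ℝ) {x₁ x₂ x₃ x₄ x₅ x₆ : α}
    (h1 : x₁ ∈ T) (h2 : x₂ ∈ T) (h3 : x₃ ∈ T) (h4 : x₄ ∈ T) (h5 : x₅ ∈ T) (h6 : x₆ ∈ T)
    (q1 : Q x₁ = 0) (q2 : Q x₂ = 0) (q3 : Q x₃ < 0) (q4 : Q x₄ < 0) (q5 : 0 < Q x₅)
    (q6 : 0 < Q x₆) (n12 : x₁ ≠ x₂) (n34 : x₃ ≠ x₄) (n56 : x₅ ≠ x₆) : 6 ≤ T.encard := by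
  have hsub : ({x₁, x₂, x₃, x₄, x₅, x₆} : Set α) ⊆ T := by
    intro x hx
    simp only [Set.mem_insert_iff, Set.mem_singleton_iff] at hx
    rcases hx with rfl | rfl | rfl | rfl | rfl | rfl <;> assumption
  refine le_trans ?_ (Set.encard_le_encard hsub)
  have n13 : x₁ ≠ x₃ := by rintro rfl; linarith
  have n14 : x₁ ≠ x₄ := by rintro rfl; linarith
  have n15 : x₁ ≠ x₅ := by rintro rfl; linarith
  have n16 : x₁ ≠ x₆ := by rintro rfl; linarith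
  have n23 : x₂ ≠ x₃ := by rintro rfl; linarith
  have n24 : x₂ ≠ x₄ := by rintro rfl; linarith
  have n25 : x₂ ≠ x₅ := by rintro rfl; linarith
  have n26 : x₂ ≠ x₆ := by rintro rfl; linarith
  have n35 : x₃ ≠ x₅ := by rintro rfl; linarith
  have n36 : x₃ ≠ x₆ := by rintro rfl; linarith
  have n45 : x₄ ≠ x₅ := by rintro rfl; linarith
  have n46 : x₄ ≠ x₆ := by rintro rfl; linarith
  rw [Set.encard_insert_of_notMem (by simp [n12, n13, n14, n15, n16]),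
    Set.encard_insert_of_notMem (by simp [n23, n24, n25, n26]),
    Set.encard_insert_of_notMem (by simp [n34, n35, n36]),
    Set.encard_insert_of_notMem (by simp [n45, n46]), Set.encard_pair n56]
  norm_num

theorem d2_hat (h : E3 → ℝ) (v₀ e₁ e₂ : E3) (h12 : d2 h v₀ e₁ e₂ = 0) (h21 : d2 h v₀ e₂ e₁ = 0)
    (z : ℂ) : d2 h v₀ (hat e₁ e₂ z) (hat e₁ e₂ z) =
      d2 h v₀ e₁ e₁ * z.re ^ 2 + d2 h v₀ e₂ e₂ * z.im ^ 2 := by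
  unfold d2 at *
  simp only [hat, map_add, map_smul, add_apply, smul_apply, smul_eq_mul, h12, h21]
  ring

theorem t_ONE (h0 : S_HOM) (hPL : S_PL) (hEXT : S_EXT) (hREGI : S_REGI) (hCONT : S_CONT)
    (hSTR : S_STR) (hREGB : S_REGB) (hVV : S_VV) (hPSI : S_PSI) (hCRIT : S_CRIT) : S_ONE := by
  intro h v₀ e₁ e₂ hh hF h12 hlt hc1 hc2
  obtain ⟨hmin, hmax⟩ := hSTR h v₀ e₁ e₂ hh hF h12 hlt
  obtain ⟨a, ha, hamin⟩ := hmin hc1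
  obtain ⟨c, hc, hcmax⟩ := hmax hc2
  have hv₀ : v₀ ≠ 0 := by
    intro h
    have := hF.n0
    rw [h, norm_zero] at this
    exact zero_ne_one this
  have hH := h0 h hh v₀ hv₀
  have h21 : d2 h v₀ e₂ e₁ = 0 := by rw [hH.2.2.1, h12]
  have hcont := hCONT h v₀ e₁ e₂ hh hF
  have hbd : ∀ z : ℂ, ‖z‖ = 1 → phi h v₀ e₁ e₂ z =
      d2 h v₀ e₁ e₁ * z.re ^ 2 + d2 h v₀ e₂ e₂ * z.im ^ 2 := by
    intro z hz
    rw [phi, if_neg (by rw [hz]; exact lt_irrefl _)]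
    exact d2_hat h v₀ e₁ e₂ h12 h21 z
  obtain ⟨ℓ, hℓ1, hℓ2, hnj, hnj2, z₀, hz₀, hz₀ℓ, hz₀R⟩ :=
    hPL (phi h v₀ e₁ e₂) _ _ a c hlt hcont hbd ha hc hamin hcmax
      (fun ℓ z hz h1 h2 h3 => hREGB h v₀ e₁ e₂ hh hF h12 hlt ℓ z hz h1 h2 h3)
  obtain ⟨hv1, hv2, hv3, hv4, hv5, hv6, hv7⟩ := hVV v₀ e₁ e₂ hF
  obtain ⟨hp1, hp2, hp3, hp4, hp5⟩ := hPSI h v₀ e₁ e₂ hh hF ℓ
  set ψ := psi h v₀ e₁ e₂ ℓ with hψ
  set p := gradient h v₀ - ℓ • v₀ with hp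
  -- the function Q
  set Q : E3 → ℝ := fun v => h v - (d1 h v₀ v - ℓ * ⟪v₀, v⟫) - ℓ with hQ
  have hQψ : ∀ z, Q (VV v₀ e₁ e₂ z) = ψ z := fun z => rfl
  -- v₀
  have hcrit0 : Crit h p v₀ := by
    refine ⟨hF.n0, fun w hw => ?_⟩
    rw [hp, inner_sub_left, real_inner_smul_left, hw, d1]
    simp [gradient]
  have hQ0 : Q v₀ = 0 := by
    rw [← hv2 1 (by simp), hQψ]
    exact hp2 1 (by simp)
  -- the saddle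
  have hcrit1 : Crit h p (VV v₀ e₁ e₂ z₀) := by
    apply hCRIT h v₀ e₁ e₂ hh hF ℓ z₀ hz₀
    apply hp5 z₀ hz₀ _ hz₀ℓ
    by_contra hne
    apply hz₀R
    rw [← hz₀ℓ]
    exact hREGI _ z₀ hz₀ (hp4 z₀ hz₀).1 hne
  have hQ1 : Q (VV v₀ e₁ e₂ z₀) = 0 := by
    rw [hQψ, (hp3 z₀ hz₀).2, hz₀ℓ]
    simp
  -- minima
  have hφ1 : phi h v₀ e₁ e₂ 1 < ℓ := by
    rw [hbd 1 (by simp)]
    simpa using hℓ1
  have hφm1 : phi h v₀ e₁ e₂ (-1) < ℓ := by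
    rw [hbd (-1) (by simp)]
    simpa using hℓ1
  obtain ⟨z₁, z₂, h12', hz1, hz2, hψ1, hψ2, hm1, hm2⟩ := hEXT (phi h v₀ e₁ e₂) ψ
    (fun z => 2 * (1 - ‖z‖ ^ 2) ^ 2 / nn z) 1 (-1) ℓ hcont hp1 (by simp) (by simp) hφ1 hφm1 hnj
    hp2 hp3
  have hcr1 : Crit h p (VV v₀ e₁ e₂ z₁) := hCRIT h v₀ e₁ e₂ hh hF ℓ z₁ hz1 hm1.fderiv_eq_zero
  have hcr2 : Crit h p (VV v₀ e₁ e₂ z₂) := hCRIT h v₀ e₁ e₂ hh hF ℓ z₂ hz2 hm2.fderiv_eq_zero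
  -- maxima
  have hφI : -ℓ > -phi h v₀ e₁ e₂ Complex.I := by
    rw [hbd Complex.I (by simp)]
    simpa using hℓ2
  have hφmI : -ℓ > -phi h v₀ e₁ e₂ (-Complex.I) := by
    rw [hbd (-Complex.I) (by simp)]
    simpa using hℓ2
  obtain ⟨z₃, z₄, h34', hz3, hz4, hψ3, hψ4, hm3, hm4⟩ := hEXT (fun z => -phi h v₀ e₁ e₂ z)
    (fun z => -ψ z) (fun z => 2 * (1 - ‖z‖ ^ 2) ^ 2 / nn z) Complex.I (-Complex.I) (-ℓ)
    hcont.neg hp1.neg (by simp) (by simp) hφI hφmI (by simpa only [neg_lt_neg_iff] using hnj2)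
    (fun z hz => by rw [hp2 z hz, neg_zero])
    (fun z hz => ⟨(hp3 z hz).1, by rw [(hp3 z hz).2]; ring⟩)
  have hcr3 : Crit h p (VV v₀ e₁ e₂ z₃) := by
    apply hCRIT h v₀ e₁ e₂ hh hF ℓ z₃ hz3
    have := hm3.fderiv_eq_zero
    rw [fderiv_fun_neg] at this
    simpa using this
  have hcr4 : Crit h p (VV v₀ e₁ e₂ z₄) := by
    apply hCRIT h v₀ e₁ e₂ hh hF ℓ z₄ hz4
    have := hm4.fderiv_eq_zero
    rw [fderiv_fun_neg] at this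
    simpa using this
  refine ⟨p, hcrit0, ?_⟩
  refine six_le Q (x₁ := v₀) (x₂ := VV v₀ e₁ e₂ z₀) (x₃ := VV v₀ e₁ e₂ z₁)
    (x₄ := VV v₀ e₁ e₂ z₂) (x₅ := VV v₀ e₁ e₂ z₃) (x₆ := VV v₀ e₁ e₂ z₄)
    hcrit0 hcrit1 hcr1 hcr2 hcr3 hcr4 hQ0 hQ1 hψ1 hψ2 ?_ ?_ ?_ ?_ ?_
  · rw [hQψ]; linarith
  · rw [hQψ]; linarith
  · exact (hv3 z₀ hz₀).symm
  · exact fun h => h12' (hv4 z₁ z₂ hz1 hz2 h)
  · exact fun h => h34' (hv4 z₃ z₄ hz3 hz4 h)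

end Pool.Agent.K1H41.OV
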