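import Pool.Agent.K1H41.OV.Basic

/-!
# Project OV (MP_997161_gt): interface, the statements of the pieces

`h` is a support function, smooth off `0`; `Crit h p v`: the unit vector `v` is a critical point
on the unit sphere of `h - ⟪p, ·⟫` (so the point of the ovaloid with outer normal `v` is a foot
of a normal from `p`).
-/

set_option autoImplicit false

namespace Pool.Agent.K1H41.OV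

open scoped RealInnerProductSpace Topology ContDiff

/-- first derivative -/
noncomputable def d1 (h : E3 → ℝ) (v w : E3) : ℝ := fderiv ℝ h v w

/-- second derivative -/
noncomputable def d2 (h : E3 → ℝ) (v a b : E3) : ℝ := fderiv ℝ (fderiv ℝ h) v a b

/-- third derivative -/
noncomputable def d3 (h : E3 → ℝ) (v a b c : E3) : ℝ :=
  fderiv ℝ (fderiv ℝ (fderiv ℝ h)) v a b c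

/-- support functions of smooth convex bodies with positive curvature -/
structure SF (h : E3 → ℝ) : Prop where
  smooth : ContDiffOn ℝ ∞ h {0}ᶜ
  hom : ∀ c : ℝ, 0 < c → ∀ v, h (c • v) = c * h v
  pos : ∀ v, v ≠ 0 → ∀ w, ⟪v, w⟫ = 0 → w ≠ 0 → 0 < d2 h v w w

/-- critical points on the unit sphere of `h - ⟪p, ·⟫` -/
def Crit (h : E3 → ℝ) (p v : E3) : Prop :=
  ‖v‖ = 1 ∧ ∀ w, ⟪v, w⟫ = 0 → d1 h v w = ⟪p, w⟫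

/-- umbilic directions -/
def Umb (h : E3 → ℝ) (v : E3) : Prop := ∃ r : ℝ, ∀ w, ⟪v, w⟫ = 0 → d2 h v w w = r * ‖w‖ ^ 2

/-- `e` is a principal direction at `v`: it minimises `σ d2 h v` among the unit vectors
orthogonal to `v` (`σ = 1`: smallest principal radius, `σ = -1`: largest) -/
def Dir (h : E3 → ℝ) (σ : ℝ) (v e : E3) : Prop :=
  ‖e‖ = 1 ∧ ⟪v, e⟫ = 0 ∧ ∀ w, ‖w‖ = 1 → ⟪v, w⟫ = 0 → σ * d2 h v e e ≤ σ * d2 h v w w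

/-- orthonormal frames -/
structure Frame (v₀ e₁ e₂ : E3) : Prop where
  n0 : ‖v₀‖ = 1
  n1 : ‖e₁‖ = 1
  n2 : ‖e₂‖ = 1
  o01 : ⟪v₀, e₁⟫ = 0
  o02 : ⟪v₀, e₂⟫ = 0
  o12 : ⟪e₁, e₂⟫ = 0

/-! ## Part A: plane topology in the closed unit disc of `ℂ` -/

/-- the closed unit disc -/
abbrev DD : Set ℂ := Metric.closedBall (0 : ℂ) 1

/-- `z` has arbitrarily small neighbourhoods `N` in the closed disc such that `N ∩ {φ < ℓ}` is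
path connected and nonempty -/
def Reg (φ : ℂ → ℝ) (ℓ : ℝ) (z : ℂ) : Prop :=
  ∀ ε : ℝ, 0 < ε → ∃ N : Set ℂ, N ⊆ Metric.ball z ε ∩ DD ∧ N ∈ 𝓝[DD] z ∧
    (∃ x ∈ N, φ x < ℓ) ∧
    ∀ x ∈ N, φ x < ℓ → ∀ y ∈ N, φ y < ℓ → JoinedIn (N ∩ {x | φ x < ℓ}) x y

/-- CR. crossing lemma -/
def S_CR : Prop :=
  ∀ A B : Set ℂ, A ⊆ DD → B ⊆ DD → JoinedIn A 1 (-1) → JoinedIn B Complex.I (-Complex.I) →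
    (A ∩ B).Nonempty

/-- MP. mountain pass lemma -/
def S_MP : Prop :=
  ∀ (φ : ℂ → ℝ) (a b : ℂ) (ℓ : ℝ), ContinuousOn φ DD → a ∈ DD → b ∈ DD → φ a < ℓ → φ b < ℓ →
    (∀ ℓ', ℓ < ℓ' → JoinedIn {z | z ∈ DD ∧ φ z < ℓ'} a b) →
    ¬ JoinedIn {z | z ∈ DD ∧ φ z < ℓ} a b → ∃ z ∈ DD, φ z = ℓ ∧ ¬ Reg φ ℓ z

/-- LO. a strict local minimum at one of the two points `1`, `-1` -/
def S_LO : Prop :=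
  ∀ (φ : ℂ → ℝ) (r : ℝ) (a : ℂ), ContinuousOn φ DD → (a = 1 ∨ a = -1) →
    (∃ ε : ℝ, 0 < ε ∧ ∀ z ∈ DD, z ≠ a → ‖z - a‖ < ε → r < φ z) →
    ∃ η : ℝ, 0 < η ∧ ¬ JoinedIn {z | z ∈ DD ∧ φ z < r + η} 1 (-1)

/-- HI. a strict local maximum at one of the two points `I`, `-I` -/
def S_HI : Prop :=
  ∀ (φ : ℂ → ℝ) (r₁ r₂ : ℝ) (c : ℂ), r₁ < r₂ → ContinuousOn φ DD →
    (∀ z : ℂ, ‖z‖ = 1 → φ z = r₁ * z.re ^ 2 + r₂ * z.im ^ 2) →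
    (c = Complex.I ∨ c = -Complex.I) →
    (∃ ε : ℝ, 0 < ε ∧ ∀ z ∈ DD, z ≠ c → ‖z - c‖ < ε → φ z < r₂) →
    ∃ η : ℝ, 0 < η ∧ JoinedIn {z | z ∈ DD ∧ φ z < r₂ - η} 1 (-1)

/-- PL. the theorem in the plane -/
def S_PL : Prop :=
  ∀ (φ : ℂ → ℝ) (r₁ r₂ : ℝ) (a c : ℂ), r₁ < r₂ → ContinuousOn φ DD →
    (∀ z : ℂ, ‖z‖ = 1 → φ z = r₁ * z.re ^ 2 + r₂ * z.im ^ 2) →
    (a = 1 ∨ a = -1) → (c = Complex.I ∨ c = -Complex.I) →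
    (∃ ε : ℝ, 0 < ε ∧ ∀ z ∈ DD, z ≠ a → ‖z - a‖ < ε → r₁ < φ z) →
    (∃ ε : ℝ, 0 < ε ∧ ∀ z ∈ DD, z ≠ c → ‖z - c‖ < ε → φ z < r₂) →
    (∀ (ℓ : ℝ) (z : ℂ), ‖z‖ = 1 → r₁ < ℓ → ℓ < r₂ → φ z = ℓ → Reg φ ℓ z) →
    ∃ ℓ : ℝ, r₁ < ℓ ∧ ℓ < r₂ ∧ ¬ JoinedIn {z | z ∈ DD ∧ φ z < ℓ} 1 (-1) ∧
      ¬ JoinedIn {z | z ∈ DD ∧ ℓ < φ z} Complex.I (-Complex.I) ∧
      ∃ z : ℂ, ‖z‖ < 1 ∧ φ z = ℓ ∧ ¬ Reg φ ℓ z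

/-- EXT. two local minima in the open disc -/
def S_EXT : Prop :=
  ∀ (φ ψ κ : ℂ → ℝ) (a b : ℂ) (ℓ : ℝ), ContinuousOn φ DD → ContinuousOn ψ DD →
    ‖a‖ = 1 → ‖b‖ = 1 → φ a < ℓ → φ b < ℓ → ¬ JoinedIn {z | z ∈ DD ∧ φ z < ℓ} a b →
    (∀ z, ‖z‖ = 1 → ψ z = 0) → (∀ z, ‖z‖ < 1 → 0 < κ z ∧ ψ z = κ z * (φ z - ℓ)) →
    ∃ z₁ z₂ : ℂ, z₁ ≠ z₂ ∧ ‖z₁‖ < 1 ∧ ‖z₂‖ < 1 ∧ ψ z₁ < 0 ∧ ψ z₂ < 0 ∧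
      IsLocalMin ψ z₁ ∧ IsLocalMin ψ z₂

/-- BOX. a box on which `φ` is monotone in one coordinate -/
def S_BOX : Prop :=
  ∀ (φ : ℂ → ℝ) (χ : ℝ × ℝ → ℂ) (ℓ : ℝ), Continuous χ →
    ContinuousOn φ (χ '' (Set.Icc 0 1 ×ˢ Set.Icc 0 1)) →
    (∀ y ∈ Set.Icc (0 : ℝ) 1, MonotoneOn (fun x => φ (χ (x, y))) (Set.Icc 0 1)) →
    (∀ y ∈ Set.Icc (0 : ℝ) 1, φ (χ (0, y)) < ℓ) →
    (∃ x ∈ χ '' (Set.Icc 0 1 ×ˢ Set.Icc 0 1), φ x < ℓ) ∧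
    ∀ x ∈ χ '' (Set.Icc 0 1 ×ˢ Set.Icc 0 1), φ x < ℓ →
      ∀ y ∈ χ '' (Set.Icc 0 1 ×ˢ Set.Icc 0 1), φ y < ℓ →
        JoinedIn (χ '' (Set.Icc 0 1 ×ˢ Set.Icc 0 1) ∩ {x | φ x < ℓ}) x y

/-- REGI. regular points of a `C^1` function in the open disc -/
def S_REGI : Prop :=
  ∀ (φ : ℂ → ℝ) (z : ℂ), ‖z‖ < 1 → ContDiffAt ℝ 1 φ z → fderiv ℝ φ z ≠ 0 → Reg φ (φ z) z

/-! ## Part B: the function `phi` on the closed disc attached to a point `v₀` -/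

/-- `Re z e₁ + Im z e₂` -/
noncomputable def hat (e₁ e₂ : E3) (z : ℂ) : E3 := z.re • e₁ + z.im • e₂

/-- a smooth map of the plane to `E3 ∖ 0`; on the open unit disc its direction runs once through
the unit sphere without `v₀`, on the unit circle it is `v₀` -/
noncomputable def YY (v₀ e₁ e₂ : E3) (z : ℂ) : E3 :=
  (‖z‖ ^ 2 - (1 - ‖z‖ ^ 2) ^ 2) • v₀ + (2 * (1 - ‖z‖ ^ 2)) • hat e₁ e₂ z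

/-- the norm of `YY` -/
noncomputable def nn (z : ℂ) : ℝ := ‖z‖ ^ 2 + (1 - ‖z‖ ^ 2) ^ 2

/-- the normalised map to the unit sphere -/
noncomputable def VV (v₀ e₁ e₂ : E3) (z : ℂ) : E3 := (nn z)⁻¹ • YY v₀ e₁ e₂ z

/-- the function on the closed disc -/
noncomputable def phi (h : E3 → ℝ) (v₀ e₁ e₂ : E3) (z : ℂ) : ℝ :=
  if ‖z‖ < 1 then (h (YY v₀ e₁ e₂ z) - d1 h v₀ (YY v₀ e₁ e₂ z)) / (2 * (1 - ‖z‖ ^ 2) ^ 2)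
  else d2 h v₀ (hat e₁ e₂ z) (hat e₁ e₂ z)

/-- `h - ⟪p, ·⟫ - ℓ` at `VV z` for `p = ∇h(v₀) - ℓ v₀` -/
noncomputable def psi (h : E3 → ℝ) (v₀ e₁ e₂ : E3) (ℓ : ℝ) (z : ℂ) : ℝ :=
  h (VV v₀ e₁ e₂ z) - (d1 h v₀ (VV v₀ e₁ e₂ z) - ℓ * ⟪v₀, VV v₀ e₁ e₂ z⟫) - ℓ

/-- HOM. consequences of homogeneity and smoothness -/
def S_HOM : Prop :=
  ∀ h : E3 → ℝ, SF h → ∀ v : E3, v ≠ 0 →
    d1 h v v = h v ∧ (∀ a, d2 h v v a = 0 ∧ d2 h v a v = 0) ∧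
    (∀ a b, d2 h v a b = d2 h v b a) ∧
    (∀ a b c, d3 h v a b c = d3 h v b a c ∧ d3 h v a b c = d3 h v a c b) ∧
    (∀ c : ℝ, 0 < c → ∀ w, d1 h (c • v) w = d1 h v w) ∧
    (∀ c : ℝ, 0 < c → ∀ a b, d2 h (c • v) a b = c⁻¹ * d2 h v a b)

/-- TAY. Taylor expansion at `v₀` -/
def S_TAY : Prop :=
  ∀ (h : E3 → ℝ) (v₀ : E3), ContDiffAt ℝ ∞ h v₀ → ∃ C s₀ : ℝ, 0 < C ∧ 0 < s₀ ∧
    ∀ ξ : E3, ‖ξ‖ ≤ s₀ →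
      |h (v₀ + ξ) - h v₀ - d1 h v₀ ξ - d2 h v₀ ξ ξ / 2 - d3 h v₀ ξ ξ ξ / 6| ≤ C * ‖ξ‖ ^ 4 ∧
      ∀ η, |d1 h (v₀ + ξ) η - d1 h v₀ η - d2 h v₀ ξ η| ≤ C * ‖ξ‖ ^ 2 * ‖η‖

/-- POL. polar form of `phi` near the boundary circle: for `z = ρ u`, `|u| = 1`, `4/5 < ρ < 1`,
`w = 1 - ρ²`, `s = 2 w ρ / (ρ² - w²)` -/
def S_POL : Prop :=
  ∀ (h : E3 → ℝ) (v₀ e₁ e₂ : E3), SF h → Frame v₀ e₁ e₂ → ∀ (ρ : ℝ) (u : ℂ), 4 / 5 < ρ → ρ < 1 →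
    ‖u‖ = 1 →
    0 < ρ ^ 2 - (1 - ρ ^ 2) ^ 2 ∧
    phi h v₀ e₁ e₂ (ρ * u) = 2 * ρ ^ 2 / (ρ ^ 2 - (1 - ρ ^ 2) ^ 2) *
      ((h (v₀ + (2 * (1 - ρ ^ 2) * ρ / (ρ ^ 2 - (1 - ρ ^ 2) ^ 2)) • hat e₁ e₂ u) - h v₀ -
        d1 h v₀ ((2 * (1 - ρ ^ 2) * ρ / (ρ ^ 2 - (1 - ρ ^ 2) ^ 2)) • hat e₁ e₂ u)) /
        (2 * (1 - ρ ^ 2) * ρ / (ρ ^ 2 - (1 - ρ ^ 2) ^ 2)) ^ 2)

/-- CONT. `phi` is continuous on the closed disc -/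
def S_CONT : Prop :=
  ∀ (h : E3 → ℝ) (v₀ e₁ e₂ : E3), SF h → Frame v₀ e₁ e₂ → ContinuousOn (phi h v₀ e₁ e₂) DD

/-- STR. strict local minimum and maximum on the circle -/
def S_STR : Prop :=
  ∀ (h : E3 → ℝ) (v₀ e₁ e₂ : E3), SF h → Frame v₀ e₁ e₂ → d2 h v₀ e₁ e₂ = 0 →
    d2 h v₀ e₁ e₁ < d2 h v₀ e₂ e₂ →
    (d3 h v₀ e₁ e₁ e₁ ≠ 0 → ∃ a : ℂ, (a = 1 ∨ a = -1) ∧ ∃ ε : ℝ, 0 < ε ∧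
      ∀ z ∈ DD, z ≠ a → ‖z - a‖ < ε → d2 h v₀ e₁ e₁ < phi h v₀ e₁ e₂ z) ∧
    (d3 h v₀ e₂ e₂ e₂ ≠ 0 → ∃ c : ℂ, (c = Complex.I ∨ c = -Complex.I) ∧ ∃ ε : ℝ, 0 < ε ∧
      ∀ z ∈ DD, z ≠ c → ‖z - c‖ < ε → phi h v₀ e₁ e₂ z < d2 h v₀ e₂ e₂)

/-- REGB. regularity at the boundary circle -/
def S_REGB : Prop :=
  ∀ (h : E3 → ℝ) (v₀ e₁ e₂ : E3), SF h → Frame v₀ e₁ e₂ → d2 h v₀ e₁ e₂ = 0 →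
    d2 h v₀ e₁ e₁ < d2 h v₀ e₂ e₂ → ∀ (ℓ : ℝ) (z : ℂ), ‖z‖ = 1 →
    d2 h v₀ e₁ e₁ < ℓ → ℓ < d2 h v₀ e₂ e₂ → phi h v₀ e₁ e₂ z = ℓ → Reg (phi h v₀ e₁ e₂) ℓ z

/-- VV. the map to the sphere -/
def S_VV : Prop :=
  ∀ (v₀ e₁ e₂ : E3), Frame v₀ e₁ e₂ →
    (∀ z, 0 < nn z ∧ ‖YY v₀ e₁ e₂ z‖ = nn z ∧ ‖VV v₀ e₁ e₂ z‖ = 1) ∧
    (∀ z, ‖z‖ = 1 → VV v₀ e₁ e₂ z = v₀) ∧ (∀ z, ‖z‖ < 1 → VV v₀ e₁ e₂ z ≠ v₀) ∧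
    (∀ z z', ‖z‖ < 1 → ‖z'‖ < 1 → VV v₀ e₁ e₂ z = VV v₀ e₁ e₂ z' → z = z') ∧
    ContDiff ℝ ∞ (VV v₀ e₁ e₂) ∧ ContDiff ℝ ∞ (YY v₀ e₁ e₂) ∧
    (∀ z, ‖z‖ < 1 → ∀ ξ, fderiv ℝ (VV v₀ e₁ e₂) z ξ = 0 → ξ = 0)

/-- PSI. relation between `phi` and `psi`; smoothness; critical points -/
def S_PSI : Prop :=
  ∀ (h : E3 → ℝ) (v₀ e₁ e₂ : E3), SF h → Frame v₀ e₁ e₂ → ∀ ℓ : ℝ,
    ContinuousOn (psi h v₀ e₁ e₂ ℓ) DD ∧ (∀ z, ‖z‖ = 1 → psi h v₀ e₁ e₂ ℓ z = 0) ∧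
    (∀ z, ‖z‖ < 1 → 0 < 2 * (1 - ‖z‖ ^ 2) ^ 2 / nn z ∧
      psi h v₀ e₁ e₂ ℓ z = 2 * (1 - ‖z‖ ^ 2) ^ 2 / nn z * (phi h v₀ e₁ e₂ z - ℓ)) ∧
    (∀ z, ‖z‖ < 1 → ContDiffAt ℝ 1 (phi h v₀ e₁ e₂) z ∧ DifferentiableAt ℝ (psi h v₀ e₁ e₂ ℓ) z) ∧
    (∀ z, ‖z‖ < 1 → fderiv ℝ (phi h v₀ e₁ e₂) z = 0 → phi h v₀ e₁ e₂ z = ℓ →
      fderiv ℝ (psi h v₀ e₁ e₂ ℓ) z = 0)

/-- CRIT. critical points of `psi` in the open disc -/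
def S_CRIT : Prop :=
  ∀ (h : E3 → ℝ) (v₀ e₁ e₂ : E3), SF h → Frame v₀ e₁ e₂ → ∀ (ℓ : ℝ) (z : ℂ), ‖z‖ < 1 →
    fderiv ℝ (psi h v₀ e₁ e₂ ℓ) z = 0 → Crit h (gradient h v₀ - ℓ • v₀) (VV v₀ e₁ e₂ z)

/-- ONE. six normals through a point of the normal line of a generic point -/
def S_ONE : Prop :=
  ∀ (h : E3 → ℝ) (v₀ e₁ e₂ : E3), SF h → Frame v₀ e₁ e₂ → d2 h v₀ e₁ e₂ = 0 →
    d2 h v₀ e₁ e₁ < d2 h v₀ e₂ e₂ → d3 h v₀ e₁ e₁ e₁ ≠ 0 → d3 h v₀ e₂ e₂ e₂ ≠ 0 →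
    ∃ p, Crit h p v₀ ∧ 6 ≤ {v | Crit h p v}.encard

/-! ## Part C: the degenerate case and the end of the proof -/

/-- EIG. principal frames -/
def S_EIG : Prop :=
  ∀ (h : E3 → ℝ) (v : E3), SF h → ‖v‖ = 1 → ¬ Umb h v → ∃ e₁ e₂, Frame v e₁ e₂ ∧
    d2 h v e₁ e₂ = 0 ∧ d2 h v e₁ e₁ < d2 h v e₂ e₂ ∧ Dir h 1 v e₁ ∧ Dir h (-1) v e₂ ∧
    (∀ e, Dir h 1 v e → e = e₁ ∨ e = -e₁) ∧ (∀ e, Dir h (-1) v e → e = e₂ ∨ e = -e₂)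

/-- TWO. the degenerate case -/
def S_TWO : Prop :=
  ∀ (h : E3 → ℝ) (σ : ℝ) (W : Set E3), SF h → (σ = 1 ∨ σ = -1) → IsOpen W →
    (∀ v ∈ W, ‖v‖ = 1 → ¬ Umb h v ∧ ∀ e, Dir h σ v e → d3 h v e e e = 0) →
    ∀ v₀ ∈ W, ‖v₀‖ = 1 → ∃ p, Crit h p v₀ ∧ {v | Crit h p v}.Infinite

/-- OPN. openness statements -/
def S_OPN : Prop :=
  ∀ (h : E3 → ℝ) (v : E3), SF h → ‖v‖ = 1 →
    (¬ Umb h v → ∃ O : Set E3, IsOpen O ∧ v ∈ O ∧ ∀ v' ∈ O, ‖v'‖ = 1 → ¬ Umb h v') ∧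
    (∀ p, ¬ Crit h p v → ∃ O : Set E3, IsOpen O ∧ v ∈ O ∧ ∀ v' ∈ O, ¬ Crit h p v') ∧
    (∀ σ : ℝ, (σ = 1 ∨ σ = -1) → ¬ Umb h v → (∀ e, Dir h σ v e → d3 h v e e e ≠ 0) →
      ∃ O : Set E3, IsOpen O ∧ v ∈ O ∧ ∀ v' ∈ O, ‖v'‖ = 1 →
        ∀ e, Dir h σ v' e → d3 h v' e e e ≠ 0)

/-- CU. if all unit vectors of an open set are critical for one `p`, they are umbilic -/
def S_CU : Prop :=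
  ∀ (h : E3 → ℝ) (p : E3) (O : Set E3), SF h → IsOpen O → (∀ v ∈ O, ‖v‖ = 1 → Crit h p v) →
    ∀ v ∈ O, ‖v‖ = 1 → Umb h v

/-- SPH. totally umbilic: the sphere -/
def S_SPH : Prop :=
  ∀ h : E3 → ℝ, SF h → (∀ v, ‖v‖ = 1 → Umb h v) → ∃ (c : E3) (r : ℝ), 0 < r ∧
    ∀ v, v ≠ 0 → h v = ⟪c, v⟫ + r * ‖v‖

/-- AM. the theorem for support functions -/
def S_AM : Prop :=
  ∀ h : E3 → ℝ, SF h → (∃! p, 6 ≤ {v | Crit h p v}.encard) → ∃ (c : E3) (r : ℝ), 0 < r ∧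
    ∀ v, v ≠ 0 → h v = ⟪c, v⟫ + r * ‖v‖

/-! ## Part D: ovaloids and support functions

`X v` is the point of `K` where `⟪·, v⟫` is maximal. -/

/-- MAX. the maximisers -/
def S_MAX : Prop :=
  ∀ (S K : Set E3), Convex ℝ K → IsCompact K → (interior K).Nonempty → S = frontier K →
    (∀ q ∈ S, ∃ f : E3 → ℝ, IsDefFn S q f ∧ PosCurv f q) →
    ∃ X : E3 → E3, ContinuousOn X {0}ᶜ ∧ (∀ v, v ≠ 0 → X v ∈ S) ∧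
      (∀ v, v ≠ 0 → ∀ x ∈ K, x ≠ X v → ⟪x, v⟫ < ⟪X v, v⟫) ∧
      (∀ c : ℝ, 0 < c → ∀ v, v ≠ 0 → X (c • v) = X v) ∧
      (∀ q ∈ S, ∃ v, ‖v‖ = 1 ∧ X v = q) ∧
      (∀ v v', ‖v‖ = 1 → ‖v'‖ = 1 → X v = X v' → v = v') ∧
      (∀ v, v ≠ 0 → ∀ f, IsDefFn S (X v) f → ∃ μ : ℝ, μ ≠ 0 ∧
        ∀ w, fderiv ℝ f (X v) w = μ * ⟪v, w⟫)

/-- IFT. local smooth solutions of `f x = 0`, `∇ f x = μ v` -/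
def S_IFT : Prop :=
  ∀ (f : E3 → ℝ) (q v : E3) (μ : ℝ), ContDiffAt ℝ ∞ f q → f q = 0 → v ≠ 0 → μ ≠ 0 →
    (∀ w, fderiv ℝ f q w = μ * ⟪v, w⟫) → PosCurv f q →
    ∃ (x : E3 → E3) (ε : ℝ), 0 < ε ∧ x v = q ∧ ContDiffAt ℝ ∞ x v ∧
      ∀ᶠ v' in 𝓝 v, ∀ y : E3, ‖y - q‖ < ε → f y = 0 →
        (∃ μ' : ℝ, |μ' - μ| < ε ∧ ∀ w, fderiv ℝ f y w = μ' * ⟪v', w⟫) → y = x v'

/-- SUP. from ovaloids to support functions -/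
def S_SUP : Prop :=
  ∀ S : Set E3, IsOvaloid S → ∃ (h : E3 → ℝ) (X : E3 → E3), SF h ∧
    Set.BijOn X (Metric.sphere 0 1) S ∧ (∀ v w, ‖v‖ = 1 → d1 h v w = ⟪X v, w⟫) ∧
    ∀ p v, ‖v‖ = 1 → (IsFoot S p (X v) ↔ Crit h p v)

/-- the theorem -/
def S_FIN : Prop :=
  ∀ S : Set E3, IsOvaloid S → (∃! p, SixNormal S p) → ∃ (c : E3) (r : ℝ), 0 < r ∧
    S = Metric.sphere c r

end Pool.Agent.K1H41.OV
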