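import Pool.Agent.K1H41.OV.Stm

/-!
Project OV (helper61): `S_POL` (polar form of `phi` near the boundary circle) and `S_CONT`.
-/

set_option autoImplicit false

namespace Pool.Agent.K1H41.OV

open scoped RealInnerProductSpace Topology ContDiff
open Filter

private lemma hat_smul (e₁ e₂ : E3) (r : ℝ) (u : ℂ) : hat e₁ e₂ (r * u) = r • hat e₁ e₂ u := by
  unfold hat
  rw [Complex.re_ofReal_mul, Complex.im_ofReal_mul, smul_add, smul_smul, smul_smul]

private lemma ne_v0 {v₀ e₁ e₂ : E3} (F : Frame v₀ e₁ e₂) : v₀ ≠ 0 := by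
  intro h
  have := F.n0
  rw [h, norm_zero] at this
  exact zero_ne_one this

private lemma hat_norm {v₀ e₁ e₂ : E3} (F : Frame v₀ e₁ e₂) (z : ℂ) : ‖hat e₁ e₂ z‖ = ‖z‖ := by
  have h1 : ‖hat e₁ e₂ z‖ ^ 2 = ‖z‖ ^ 2 := by
    unfold hat
    rw [norm_add_sq_real, norm_smul, norm_smul, F.n1, F.n2, inner_smul_left, inner_smul_right,
      F.o12, ← Complex.normSq_eq_norm_sq, Complex.normSq_apply, mul_one, mul_one,
      Real.norm_eq_abs, Real.norm_eq_abs, sq_abs, sq_abs]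
    simp
    ring
  exact (pow_left_inj₀ (norm_nonneg _) (norm_nonneg _) (by norm_num)).1 h1

private lemma inner_hat {v₀ e₁ e₂ : E3} (F : Frame v₀ e₁ e₂) (z : ℂ) : ⟪v₀, hat e₁ e₂ z⟫ = 0 := by
  unfold hat
  rw [inner_add_right, inner_smul_right, inner_smul_right, F.o01, F.o02]
  simp

private lemma YY_ne {v₀ e₁ e₂ : E3} (F : Frame v₀ e₁ e₂) {z : ℂ} (hz : ‖z‖ < 1) :
    YY v₀ e₁ e₂ z ≠ 0 := by
  intro h
  have hw : 0 < 1 - ‖z‖ ^ 2 := by
    have := norm_nonneg z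
    nlinarith
  have h1 : ⟪v₀, YY v₀ e₁ e₂ z⟫ = ‖z‖ ^ 2 - (1 - ‖z‖ ^ 2) ^ 2 := by
    unfold YY
    rw [inner_add_right, inner_smul_right, inner_smul_right, inner_hat F,
      real_inner_self_eq_norm_sq, F.n0]
    ring
  rw [h, inner_zero_right] at h1
  have h2 : ‖z‖ ^ 2 - (1 - ‖z‖ ^ 2) ^ 2 = 0 := h1.symm
  have h3 : (2 * (1 - ‖z‖ ^ 2)) • hat e₁ e₂ z = 0 := by
    have h4 : YY v₀ e₁ e₂ z = (‖z‖ ^ 2 - (1 - ‖z‖ ^ 2) ^ 2) • v₀ +
      (2 * (1 - ‖z‖ ^ 2)) • hat e₁ e₂ z := rfl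
    rw [h2, zero_smul, zero_add] at h4
    rw [← h4, h]
  have h5 : ‖z‖ = 0 := by
    rw [← hat_norm F z]
    rcases smul_eq_zero.1 h3 with h6 | h6
    · linarith
    · rw [h6, norm_zero]
  rw [h5] at h2
  norm_num at h2

theorem t_POL (h0 : S_HOM) : S_POL := by
  intro h v₀ e₁ e₂ hS F ρ u hρ hρ1 hu
  set w : ℝ := 1 - ρ ^ 2 with hw
  have hw0 : 0 < w := by rw [hw]; nlinarith
  have hw1 : w < 9 / 25 := by rw [hw]; nlinarith
  have hD : 0 < ρ ^ 2 - w ^ 2 := by nlinarith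
  refine ⟨hD, ?_⟩
  set D : ℝ := ρ ^ 2 - w ^ 2 with hDd
  have hρ0 : 0 < ρ := by linarith
  have hn : ‖((ρ : ℂ) * u)‖ = ρ := by
    rw [norm_mul, hu, mul_one, Complex.norm_real, Real.norm_eq_abs, abs_of_pos hρ0]
  have hY : YY v₀ e₁ e₂ (ρ * u) = D • (v₀ + (2 * w * ρ / D) • hat e₁ e₂ u) := by
    unfold YY
    rw [hn, hat_smul, ← hw, ← hDd, smul_add, smul_smul, smul_smul]
    congr 2
    field_simp
  have hv := ne_v0 F
  have hh := (h0 h hS v₀ hv).1
  unfold phi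
  rw [if_pos (by rw [hn]; exact hρ1), hY, hn, ← hw, hS.hom D hD]
  have h1 : d1 h v₀ (D • (v₀ + (2 * w * ρ / D) • hat e₁ e₂ u)) =
      D * (h v₀ + d1 h v₀ ((2 * w * ρ / D) • hat e₁ e₂ u)) := by
    unfold d1 at hh ⊢
    rw [map_smul, map_add, smul_eq_mul, hh]
  rw [h1]
  field_simp
  ring

private lemma d2_smul (h : E3 → ℝ) (v a b : E3) (s : ℝ) :
    d2 h v (s • a) (s • b) = s ^ 2 * d2 h v a b := by
  unfold d2
  rw [map_smul, map_smul]
  simp
  ring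

private lemma bdT {F : Type} [NormedAddCommGroup F] [NormedSpace ℝ F] (T : E3 →L[ℝ] F) :
    ∃ K : ℝ, 0 ≤ K ∧ ∀ a, ‖T a‖ ≤ K * ‖a‖ := ⟨‖T‖, norm_nonneg _, T.le_opNorm⟩

private lemma d3_bd (h : E3 → ℝ) (v : E3) :
    ∃ K : ℝ, 0 ≤ K ∧ ∀ a, |d3 h v a a a| ≤ K * ‖a‖ ^ 3 := by
  obtain ⟨K, hK, hb⟩ := bdT (fderiv ℝ (fderiv ℝ (fderiv ℝ h)) v)
  refine ⟨K, hK, fun a => ?_⟩
  unfold d3
  have h2 := ContinuousLinearMap.le_opNorm (fderiv ℝ (fderiv ℝ (fderiv ℝ h)) v a) a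
  have h3 := ContinuousLinearMap.le_opNorm (fderiv ℝ (fderiv ℝ (fderiv ℝ h)) v a a) a
  rw [Real.norm_eq_abs] at h3
  have ha := norm_nonneg a
  calc _ ≤ ‖fderiv ℝ (fderiv ℝ (fderiv ℝ h)) v a a‖ * ‖a‖ := h3
    _ ≤ (‖fderiv ℝ (fderiv ℝ (fderiv ℝ h)) v a‖ * ‖a‖) * ‖a‖ :=
        mul_le_mul_of_nonneg_right h2 ha
    _ ≤ ((K * ‖a‖) * ‖a‖) * ‖a‖ :=
        mul_le_mul_of_nonneg_right (mul_le_mul_of_nonneg_right (hb a) ha) ha
    _ = _ := by ring

private lemma cd_at {h : E3 → ℝ} (hS : SF h) {v : E3} (hv : v ≠ 0) : ContDiffAt ℝ ∞ h v :=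
  hS.smooth.contDiffAt (isOpen_compl_singleton.mem_nhds hv)

private lemma cont_hat (e₁ e₂ : E3) : Continuous (hat e₁ e₂) := by
  unfold hat
  fun_prop

private lemma cont_YY (v₀ e₁ e₂ : E3) : Continuous (YY v₀ e₁ e₂) := by
  unfold YY
  have := cont_hat e₁ e₂
  fun_prop

theorem t_CONT (h0 : S_HOM) (h2 : S_TAY) : S_CONT := by
  intro h v₀ e₁ e₂ hS F
  have hv := ne_v0 F
  intro z₀ hz₀
  rw [mem_closedBall_zero_iff] at hz₀
  rcases lt_or_eq_of_le hz₀ with hlt | heq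
  · -- interior points
    have hg : ContinuousAt (fun z => (h (YY v₀ e₁ e₂ z) - d1 h v₀ (YY v₀ e₁ e₂ z)) /
        (2 * (1 - ‖z‖ ^ 2) ^ 2)) z₀ := by
      have c1 : ContinuousAt (fun z => h (YY v₀ e₁ e₂ z)) z₀ :=
        ContinuousAt.comp (g := h) (cd_at hS (YY_ne F hlt)).continuousAt
          (cont_YY v₀ e₁ e₂).continuousAt
      have c2 : ContinuousAt (fun z => d1 h v₀ (YY v₀ e₁ e₂ z)) z₀ := by
        unfold d1
        exact ((fderiv ℝ h v₀).continuous.comp (cont_YY v₀ e₁ e₂)).continuousAt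
      refine (c1.sub c2).div (by fun_prop) ?_
      have : 0 < 1 - ‖z₀‖ ^ 2 := by
        have := norm_nonneg z₀
        nlinarith
      positivity
    have he : (fun z => (h (YY v₀ e₁ e₂ z) - d1 h v₀ (YY v₀ e₁ e₂ z)) /
        (2 * (1 - ‖z‖ ^ 2) ^ 2)) =ᶠ[𝓝 z₀] phi h v₀ e₁ e₂ := by
      have : ∀ᶠ z in 𝓝 z₀, ‖z‖ < 1 := (continuous_norm.continuousAt).eventually_lt_const hlt
      filter_upwards [this] with z hz
      unfold phi
      rw [if_pos hz]
    exact (hg.congr he).continuousWithinAt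
  · -- boundary points
    obtain ⟨C, s₀, hC, hs₀, hT⟩ := h2 h v₀ (cd_at hS hv)
    obtain ⟨K, hK0, hK⟩ := d3_bd h v₀
    set c : ℝ → ℝ := fun ρ => 2 * ρ ^ 2 / (ρ ^ 2 - (1 - ρ ^ 2) ^ 2) with hc
    set s : ℝ → ℝ := fun ρ => 2 * (1 - ρ ^ 2) * ρ / (ρ ^ 2 - (1 - ρ ^ 2) ^ 2) with hs
    have hc1 : ContinuousAt c 1 := by
      refine ContinuousAt.div (by fun_prop) (by fun_prop) (by norm_num)
    have hs1 : ContinuousAt s 1 := by
      refine ContinuousAt.div (by fun_prop) (by fun_prop) (by norm_num)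
    have hcv : c 1 = 2 := by simp [hc]
    have hsv : s 1 = 0 := by simp [hs]
    have hnz : ContinuousAt (fun z : ℂ => ‖z‖) z₀ := continuous_norm.continuousAt
    have hcz : ContinuousAt (fun z : ℂ => c ‖z‖) z₀ :=
      ContinuousAt.comp (g := c) (f := fun z : ℂ => ‖z‖) (by simpa only [heq] using hc1) hnz
    have hsz : ContinuousAt (fun z : ℂ => s ‖z‖) z₀ :=
      ContinuousAt.comp (g := s) (f := fun z : ℂ => ‖z‖) (by simpa only [heq] using hs1) hnz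
    set U : ℂ → ℂ := fun z => z / (‖z‖ : ℂ) with hU
    have hUz : ContinuousAt U z₀ := by
      refine ContinuousAt.div continuousAt_id (by fun_prop) ?_
      rw [heq]; norm_num
    have hU0 : U z₀ = z₀ := by simp [hU, heq]
    set M : ℂ → ℝ := fun z => c ‖z‖ / 2 * d2 h v₀ (hat e₁ e₂ (U z)) (hat e₁ e₂ (U z)) with hM
    set E : ℂ → ℝ := fun z => c ‖z‖ * (K / 6 * s ‖z‖ + C * s ‖z‖ ^ 2) with hE
    have hMz : ContinuousAt M z₀ := by
      refine (hcz.div_const 2).mul ?_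
      have c1 : ContinuousAt (fun z => hat e₁ e₂ (U z)) z₀ :=
        ContinuousAt.comp (g := hat e₁ e₂) (cont_hat e₁ e₂).continuousAt hUz
      unfold d2
      exact ((fderiv ℝ (fderiv ℝ h) v₀).continuous.continuousAt.comp c1).clm_apply c1
    have hEz : ContinuousAt E z₀ :=
      hcz.mul ((hsz.const_mul (K / 6)).add ((hsz.pow 2).const_mul C))
    have hE0 : E z₀ = 0 := by simp [hE, heq, hsv]
    have hM0 : M z₀ = phi h v₀ e₁ e₂ z₀ := by
      unfold phi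
      rw [if_neg (by rw [heq]; exact lt_irrefl 1)]
      simp only [hM, hU0, heq, hcv]
      ring
    have hbd : ∀ᶠ z in 𝓝[DD] z₀, ‖phi h v₀ e₁ e₂ z - M z‖ ≤ E z := by
      have a1 : ∀ᶠ z in 𝓝[DD] z₀, 4 / 5 < ‖z‖ :=
        mem_nhdsWithin_of_mem_nhds (hnz.eventually_const_lt (by simp only [heq]; norm_num))
      have a2 : ∀ᶠ z in 𝓝[DD] z₀, s ‖z‖ < s₀ :=
        mem_nhdsWithin_of_mem_nhds (hsz.eventually_lt_const (by simp only [heq, hsv]; exact hs₀))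
      filter_upwards [a1, a2, self_mem_nhdsWithin] with z b1 b2 b3
      rw [mem_closedBall_zero_iff] at b3
      rcases lt_or_eq_of_le b3 with hz1 | hz1
      · have hzp : 0 < ‖z‖ := by linarith
        have hzc : (‖z‖ : ℂ) ≠ 0 := by exact_mod_cast hzp.ne'
        have hUn : ‖U z‖ = 1 := by
          simp only [hU, norm_div, Complex.norm_real, norm_norm]
          exact div_self hzp.ne'
        have hzU : z = (‖z‖ : ℂ) * U z := by
          simp only [hU]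
          field_simp
        obtain ⟨hD, hp⟩ := t_POL h0 h v₀ e₁ e₂ hS F ‖z‖ (U z) b1 hz1 hUn
        rw [← hzU] at hp
        have hsd : 2 * (1 - ‖z‖ ^ 2) * ‖z‖ / (‖z‖ ^ 2 - (1 - ‖z‖ ^ 2) ^ 2) = s ‖z‖ := rfl
        have hcd : 2 * ‖z‖ ^ 2 / (‖z‖ ^ 2 - (1 - ‖z‖ ^ 2) ^ 2) = c ‖z‖ := rfl
        rw [hsd, hcd] at hp
        have hsp : 0 < s ‖z‖ := by
          rw [← hsd]
          have : 0 < 1 - ‖z‖ ^ 2 := by nlinarith
          positivity
        have hcp : 0 < c ‖z‖ := by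
          rw [← hcd]
          positivity
        set ξ : E3 := s ‖z‖ • hat e₁ e₂ (U z) with hξ
        have hξn : ‖ξ‖ = s ‖z‖ := by
          rw [hξ, norm_smul, hat_norm F, hUn, mul_one, Real.norm_eq_abs, abs_of_pos hsp]
        have ht := (hT ξ (by rw [hξn]; exact b2.le)).1
        have h3 := hK ξ
        have hd2 : d2 h v₀ ξ ξ = s ‖z‖ ^ 2 * d2 h v₀ (hat e₁ e₂ (U z)) (hat e₁ e₂ (U z)) :=
          d2_smul _ _ _ _ _
        rw [hξn] at ht h3
        rw [hp]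
        simp only [hM, hE]
        set Q : ℝ := d2 h v₀ (hat e₁ e₂ (U z)) (hat e₁ e₂ (U z)) with hQ
        set G : ℝ := h (v₀ + ξ) - h v₀ - d1 h v₀ ξ with hG
        have h4 : |G - s ‖z‖ ^ 2 * Q / 2| ≤ K / 6 * s ‖z‖ ^ 3 + C * s ‖z‖ ^ 4 := by
          rw [hd2] at ht
          have e : G - s ‖z‖ ^ 2 * Q / 2 = (G - s ‖z‖ ^ 2 * Q / 2 - d3 h v₀ ξ ξ ξ / 6) +
            d3 h v₀ ξ ξ ξ / 6 := by ring
          rw [e]
          refine (abs_add_le _ _).trans ?_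
          rw [abs_div, abs_of_pos (by norm_num : (0 : ℝ) < 6)]
          linarith
        have e2 : c ‖z‖ * (G / s ‖z‖ ^ 2) - c ‖z‖ / 2 * Q =
            c ‖z‖ * ((G - s ‖z‖ ^ 2 * Q / 2) / s ‖z‖ ^ 2) := by
          field_simp
        rw [e2, Real.norm_eq_abs, abs_mul, abs_of_pos hcp, abs_div,
          abs_of_pos (pow_pos hsp 2)]
        refine mul_le_mul_of_nonneg_left ?_ hcp.le
        rw [div_le_iff₀ (pow_pos hsp 2)]
        refine h4.trans (le_of_eq ?_)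
        ring
      · have hsv' : s ‖z‖ = 0 := by rw [hz1, hsv]
        have hUz' : U z = z := by simp [hU, hz1]
        have e1 : phi h v₀ e₁ e₂ z = M z := by
          unfold phi
          rw [if_neg (by rw [hz1]; exact lt_irrefl 1)]
          simp only [hM, hUz', hz1, hcv]
          ring
        rw [e1, sub_self, norm_zero]
        simp only [hE, hsv']
        simp
    have hdiff : Tendsto (fun z => phi h v₀ e₁ e₂ z - M z) (𝓝[DD] z₀) (𝓝 0) := by
      refine squeeze_zero_norm' hbd ?_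
      have := hEz.continuousWithinAt (s := DD)
      rw [ContinuousWithinAt, hE0] at this
      exact this
    have hMw : Tendsto M (𝓝[DD] z₀) (𝓝 (phi h v₀ e₁ e₂ z₀)) := by
      have := hMz.continuousWithinAt (s := DD)
      rw [ContinuousWithinAt, hM0] at this
      exact this
    have := hdiff.add hMw
    rw [zero_add] at this
    refine this.congr fun z => ?_
    ring

end Pool.Agent.K1H41.OV
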