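import Pool.Agent.K1H41.OV.Stm
import Pool.Agent.H63Fed.Miranda

/-! The crossing lemma: two crossing paths in the closed unit disc have a common point. -/

set_option autoImplicit false

namespace Pool.Agent.K1H41.OV

open Set

theorem CR.bd {z : ℂ} (hz : z ∈ DD) : |z.re| ≤ 1 ∧ |z.im| ≤ 1 := by
  have h : ‖z‖ ≤ 1 := by simpa [DD] using hz
  exact ⟨(Complex.abs_re_le_norm z).trans h, (Complex.abs_im_le_norm z).trans h⟩

theorem t_CR : S_CR := by
  intro A B hA hB hja hjb
  set a : ℝ → ℂ := fun t => hja.somePath.extend t with ha
  set b : ℝ → ℂ := fun t => hjb.somePath.extend t with hb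
  have haA : ∀ t, a t ∈ A := fun t => hja.somePath_mem (projIcc 0 1 zero_le_one t)
  have hbB : ∀ t, b t ∈ B := fun t => hjb.somePath_mem (projIcc 0 1 zero_le_one t)
  have hac : Continuous a := hja.somePath.continuous_extend
  have hbc : Continuous b := hjb.somePath.continuous_extend
  have ha0 : a 0 = 1 := hja.somePath.extend_zero
  have ha1 : a 1 = -1 := hja.somePath.extend_one
  have hb0 : b 0 = Complex.I := hjb.somePath.extend_zero
  have hb1 : b 1 = -Complex.I := hjb.somePath.extend_one
  obtain ⟨x, -, hx⟩ := H63Fed.Miranda.poincare_miranda 2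
    (fun x => ![(b (x 1)).re - (a (x 0)).re, (a (x 0)).im - (b (x 1)).im]) (by
      apply Continuous.continuousOn
      refine continuous_pi fun i => ?_
      fin_cases i
      · exact (Complex.continuous_re.comp (hbc.comp (continuous_apply 1))).sub
          (Complex.continuous_re.comp (hac.comp (continuous_apply 0)))
      · exact (Complex.continuous_im.comp (hac.comp (continuous_apply 0))).sub
          (Complex.continuous_im.comp (hbc.comp (continuous_apply 1))))
    (by
      intro x _ i hi
      fin_cases i
      · change (b (x 1)).re - (a (x 0)).re ≤ 0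
        change x 0 = 0 at hi
        rw [hi, ha0, Complex.one_re]
        have := (abs_le.1 (CR.bd (hB (hbB (x 1)))).1).2
        linarith
      · change (a (x 0)).im - (b (x 1)).im ≤ 0
        change x 1 = 0 at hi
        rw [hi, hb0, Complex.I_im]
        have := (abs_le.1 (CR.bd (hA (haA (x 0)))).2).2
        linarith)
    (by
      intro x _ i hi
      fin_cases i
      · change 0 ≤ (b (x 1)).re - (a (x 0)).re
        change x 0 = 1 at hi
        rw [hi, ha1, Complex.neg_re, Complex.one_re]
        have := (abs_le.1 (CR.bd (hB (hbB (x 1)))).1).1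
        linarith
      · change 0 ≤ (a (x 0)).im - (b (x 1)).im
        change x 1 = 1 at hi
        rw [hi, hb1, Complex.neg_im, Complex.I_im]
        have := (abs_le.1 (CR.bd (hA (haA (x 0)))).2).1
        linarith)
  have h0 : (b (x 1)).re - (a (x 0)).re = 0 := congrFun hx 0
  have h1 : (a (x 0)).im - (b (x 1)).im = 0 := congrFun hx 1
  have he : a (x 0) = b (x 1) := Complex.ext (by linarith) (by linarith)
  exact ⟨a (x 0), haA _, he ▸ hbB _⟩

end Pool.Agent.K1H41.OV
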