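import Pool.Agent.K1H41.OV.Stm

/-!
# OV: principal directions
-/

set_option autoImplicit false

namespace Pool.Agent.K1H41.OV

open scoped RealInnerProductSpace Topology ContDiff

theorem Frame.swap {v e₁ e₂ : E3} (h : Frame v e₁ e₂) : Frame v e₂ e₁ :=
  ⟨h.n0, h.n2, h.n1, h.o02, h.o01, by rw [real_inner_comm]; exact h.o12⟩

/-- expansion in a frame -/
theorem Frame.expand {v e₁ e₂ : E3} (h : Frame v e₁ e₂) (w : E3) :
    w = ⟪v, w⟫ • v + ⟪e₁, w⟫ • e₁ + ⟪e₂, w⟫ • e₂ := by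
  have ho : Orthonormal ℝ (![v, e₁, e₂] : Fin 3 → E3) := by
    refine ⟨fun i => ?_, fun i j hij => ?_⟩
    · fin_cases i
      · exact h.n0
      · exact h.n1
      · exact h.n2
    · have h01 := h.o01
      have h02 := h.o02
      have h12 := h.o12
      have h10 : ⟪e₁, v⟫ = 0 := by rw [real_inner_comm]; exact h.o01
      have h20 : ⟪e₂, v⟫ = 0 := by rw [real_inner_comm]; exact h.o02
      have h21 : ⟪e₂, e₁⟫ = 0 := by rw [real_inner_comm]; exact h.o12
      fin_cases i <;> fin_cases j <;> first | exact absurd rfl hij | assumption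
  have hc : Fintype.card (Fin 3) = Module.finrank ℝ E3 := by simp
  let b := basisOfOrthonormalOfCardEqFinrank ho hc
  have hb : ∀ i, b i = (![v, e₁, e₂] : Fin 3 → E3) i := fun i => by
    simp [b, coe_basisOfOrthonormalOfCardEqFinrank]
  have ho' : Orthonormal ℝ b := by
    have : (b : Fin 3 → E3) = ![v, e₁, e₂] := funext hb
    rw [this]
    exact ho
  let o := b.toOrthonormalBasis ho'
  have h1 := o.sum_repr' w
  rw [Fin.sum_univ_three] at h1
  have h2 : ∀ i, o i = (![v, e₁, e₂] : Fin 3 → E3) i := fun i => by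
    rw [Module.Basis.coe_toOrthonormalBasis]
    exact hb i
  rw [h2, h2, h2] at h1
  exact h1.symm

/-- a bilinear form has principal directions -/
theorem exists_axes (B : E3 →L[ℝ] E3 →L[ℝ] ℝ) (hB : ∀ a b, B a b = B b a) (v : E3)
    (hv : ‖v‖ = 1) : ∃ e₁ e₂, Frame v e₁ e₂ ∧ B e₁ e₂ = 0 ∧ B e₁ e₁ ≤ B e₂ e₂ := by
  have ho : Orthonormal ℝ (fun _ : Unit => v) := by
    refine ⟨fun _ => hv, fun i j hij => absurd (Subsingleton.elim i j) hij⟩
  obtain ⟨b, hb⟩ : ∃ b : OrthonormalBasis (Fin 3) ℝ E3, b 0 = v := by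
    have hc : Module.finrank ℝ E3 = Fintype.card (Fin 3) := by simp
    obtain ⟨b, hb⟩ := Orthonormal.exists_orthonormalBasis_extension_of_card_eq (𝕜 := ℝ)
      (ι := Fin 3) hc (v := fun _ => v) (s := {0}) (by
        refine ⟨fun _ => hv, fun i j hij => absurd (Subtype.ext ?_) hij⟩
        rw [Set.mem_singleton_iff.1 i.2, Set.mem_singleton_iff.1 j.2])
    exact ⟨b, hb 0 (Set.mem_singleton _)⟩
  have ho := b.orthonormal
  have n1 : ‖b 1‖ = 1 := ho.1 1
  have n2 : ‖b 2‖ = 1 := ho.1 2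
  have o01 : ⟪v, b 1⟫ = 0 := by rw [← hb]; exact ho.2 (by decide)
  have o02 : ⟪v, b 2⟫ = 0 := by rw [← hb]; exact ho.2 (by decide)
  have o12 : ⟪b 1, b 2⟫ = 0 := ho.2 (by decide)
  have o21 : ⟪b 2, b 1⟫ = 0 := ho.2 (by decide)
  have i11 : ⟪b 1, b 1⟫ = 1 := by rw [real_inner_self_eq_norm_sq, n1]; norm_num
  have i22 : ⟪b 2, b 2⟫ = 1 := by rw [real_inner_self_eq_norm_sq, n2]; norm_num
  obtain ⟨f, hf⟩ : ∃ f : ℝ → ℝ, f = fun t => B (Real.cos t • b 1 + Real.sin t • b 2)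
      (-Real.sin t • b 1 + Real.cos t • b 2) := ⟨_, rfl⟩
  have hfe : ∀ t, f t = Real.sin t * Real.cos t * (B (b 2) (b 2) - B (b 1) (b 1)) +
      (Real.cos t ^ 2 - Real.sin t ^ 2) * B (b 1) (b 2) := by
    intro t
    rw [hf]
    simp only [map_add, map_smul, add_apply, smul_apply,
      smul_eq_mul]
    rw [hB (b 2) (b 1)]
    ring
  have hfc : Continuous f := by
    have : f = fun t => Real.sin t * Real.cos t * (B (b 2) (b 2) - B (b 1) (b 1)) +
      (Real.cos t ^ 2 - Real.sin t ^ 2) * B (b 1) (b 2) := funext hfe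
    rw [this]
    fun_prop
  have h0 : f 0 = B (b 1) (b 2) := by rw [hfe]; simp
  have h1 : f (Real.pi / 2) = -B (b 1) (b 2) := by rw [hfe]; simp
  obtain ⟨t, ht⟩ : (0 : ℝ) ∈ Set.range f := by
    rcases le_total (B (b 1) (b 2)) 0 with h | h
    · exact mem_range_of_exists_le_of_exists_ge hfc ⟨0, by rw [h0]; exact h⟩
        ⟨Real.pi / 2, by rw [h1]; linarith⟩
    · exact mem_range_of_exists_le_of_exists_ge hfc ⟨Real.pi / 2, by rw [h1]; linarith⟩
        ⟨0, by rw [h0]; exact h⟩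
  have hcs := Real.cos_sq_add_sin_sq t
  obtain ⟨e, he⟩ : ∃ e : E3, e = Real.cos t • b 1 + Real.sin t • b 2 := ⟨_, rfl⟩
  obtain ⟨e', he'⟩ : ∃ e : E3, e = -Real.sin t • b 1 + Real.cos t • b 2 := ⟨_, rfl⟩
  have hF : Frame v e e' := by
    refine ⟨hv, ?_, ?_, ?_, ?_, ?_⟩
    · have : ‖e‖ ^ 2 = 1 := by
        rw [← real_inner_self_eq_norm_sq, he]
        simp only [inner_add_left, inner_add_right, real_inner_smul_left, real_inner_smul_right,
          o12, o21, i11, i22]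
        linarith
      exact (pow_eq_one_iff_of_nonneg (norm_nonneg e) two_ne_zero).1 this
    · have : ‖e'‖ ^ 2 = 1 := by
        rw [← real_inner_self_eq_norm_sq, he']
        simp only [inner_add_left, inner_add_right, real_inner_smul_left, real_inner_smul_right,
          o12, o21, i11, i22]
        linarith
      exact (pow_eq_one_iff_of_nonneg (norm_nonneg e') two_ne_zero).1 this
    · rw [he, inner_add_right, real_inner_smul_right, real_inner_smul_right, o01, o02]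
      ring
    · rw [he', inner_add_right, real_inner_smul_right, real_inner_smul_right, o01, o02]
      ring
    · rw [he, he']
      simp only [inner_add_left, inner_add_right, real_inner_smul_left, real_inner_smul_right,
          o12, o21, i11, i22]
      ring
  have h2 : B e e' = 0 := by
    rw [he, he', ← ht, hf]
  rcases le_total (B e e) (B e' e') with h | h
  · exact ⟨e, e', hF, h2, h⟩
  · exact ⟨e', e, hF.swap, by rw [hB]; exact h2, h⟩

theorem ar1 {a b r₁ r₂ : ℝ} (h : a + b = 1) (hb : 0 ≤ b) (h12 : r₁ < r₂) :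
    r₁ ≤ a * r₁ + b * r₂ := by
  have h1 : a = 1 - b := by linarith
  rw [h1]
  nlinarith [mul_nonneg hb (sub_nonneg.2 h12.le)]

theorem ar2 {a b r₁ r₂ : ℝ} (h : a + b = 1) (hb : 0 ≤ b) (h12 : r₁ < r₂)
    (h' : a * r₁ + b * r₂ ≤ r₁) : b = 0 := by
  have h1 : a = 1 - b := by linarith
  rw [h1] at h'
  by_contra hc
  have hb' : 0 < b := lt_of_le_of_ne hb (Ne.symm hc)
  nlinarith [mul_pos hb' (sub_pos.2 h12)]

theorem t_EIG (h0 : S_HOM) : S_EIG := by
  intro h v hS hv hU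
  have hv0 : v ≠ 0 := by
    intro hc
    rw [hc, norm_zero] at hv
    exact zero_ne_one hv
  obtain ⟨-, -, hsym, -⟩ := h0 h hS v hv0
  obtain ⟨e₁, e₂, hF, h12, hle⟩ := exists_axes (fderiv ℝ (fderiv ℝ h) v) hsym v hv
  have h21 : fderiv ℝ (fderiv ℝ h) v e₂ e₁ = 0 := by
    have := hsym e₂ e₁
    unfold d2 at this
    rw [this, h12]
  have h12' : d2 h v e₁ e₂ = 0 := h12
  have hle' : d2 h v e₁ e₁ ≤ d2 h v e₂ e₂ := hle
  -- the form in the frame
  have hex : ∀ w, ⟪v, w⟫ = 0 → d2 h v w w = ⟪e₁, w⟫ ^ 2 * d2 h v e₁ e₁ +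
      ⟪e₂, w⟫ ^ 2 * d2 h v e₂ e₂ := by
    intro w hw
    obtain ⟨x, hx⟩ : ∃ x, x = ⟪e₁, w⟫ := ⟨_, rfl⟩
    obtain ⟨y, hy⟩ : ∃ y, y = ⟪e₂, w⟫ := ⟨_, rfl⟩
    have h3 := hF.expand w
    rw [hw, zero_smul, zero_add, ← hx, ← hy] at h3
    rw [← hx, ← hy, h3]
    unfold d2
    simp only [map_add, map_smul, add_apply, smul_apply,
      smul_eq_mul, h12, h21]
    ring
  have hnm : ∀ w, ⟪v, w⟫ = 0 → ⟪e₁, w⟫ ^ 2 + ⟪e₂, w⟫ ^ 2 = ‖w‖ ^ 2 := by
    intro w hw
    obtain ⟨x, hx⟩ : ∃ x, x = ⟪e₁, w⟫ := ⟨_, rfl⟩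
    obtain ⟨y, hy⟩ : ∃ y, y = ⟪e₂, w⟫ := ⟨_, rfl⟩
    have h3 := hF.expand w
    rw [hw, zero_smul, zero_add, ← hx, ← hy] at h3
    have i11 : ⟪e₁, e₁⟫ = 1 := by rw [real_inner_self_eq_norm_sq, hF.n1]; norm_num
    have i22 : ⟪e₂, e₂⟫ = 1 := by rw [real_inner_self_eq_norm_sq, hF.n2]; norm_num
    have o12 := hF.o12
    have o21 : ⟪e₂, e₁⟫ = 0 := by rw [real_inner_comm]; exact hF.o12
    rw [← hx, ← hy, ← real_inner_self_eq_norm_sq, h3]
    simp only [inner_add_left, inner_add_right, real_inner_smul_left, real_inner_smul_right,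
      o12, o21, i11, i22]
    ring
  have hlt : d2 h v e₁ e₁ < d2 h v e₂ e₂ := by
    refine lt_of_le_of_ne hle' fun heq => hU ⟨d2 h v e₁ e₁, fun w hw => ?_⟩
    rw [hex w hw, ← heq, ← hnm w hw]
    ring
  refine ⟨e₁, e₂, hF, h12', hlt, ⟨hF.n1, hF.o01, fun w hw1 hw => ?_⟩,
    ⟨hF.n2, hF.o02, fun w hw1 hw => ?_⟩, fun e he => ?_, fun e he => ?_⟩
  · have h3 := hnm w hw
    rw [hw1, one_pow] at h3
    rw [hex w hw]
    have := ar1 h3 (sq_nonneg _) hlt
    linarith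
  · have h3 := hnm w hw
    rw [hw1, one_pow, add_comm] at h3
    rw [hex w hw]
    have := ar1 (r₁ := -d2 h v e₂ e₂) (r₂ := -d2 h v e₁ e₁) h3 (sq_nonneg _) (by linarith)
    linarith
  · obtain ⟨n, o, hmin⟩ := he
    have h3 := hnm e o
    rw [n, one_pow] at h3
    have h4 := hmin e₁ hF.n1 hF.o01
    rw [hex e o] at h4
    have h5 : ⟪e₂, e⟫ ^ 2 = 0 := ar2 h3 (sq_nonneg _) hlt (by linarith)
    have h6 : ⟪e₂, e⟫ = 0 := by simpa using h5
    have h7 : ⟪e₁, e⟫ ^ 2 = 1 := by linarith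
    have h8 := hF.expand e
    rw [o, h6, zero_smul, zero_smul, zero_add, add_zero] at h8
    rw [pow_two] at h7
    rcases mul_self_eq_one_iff.1 h7 with h9 | h9
    · left
      rw [h8, h9, one_smul]
    · right
      rw [h8, h9, neg_smul, one_smul]
  · obtain ⟨n, o, hmin⟩ := he
    have h3 := hnm e o
    rw [n, one_pow] at h3
    have h4 := hmin e₂ hF.n2 hF.o02
    rw [hex e o] at h4
    have h5 : ⟪e₁, e⟫ ^ 2 = 0 := ar2 (r₁ := -d2 h v e₂ e₂) (r₂ := -d2 h v e₁ e₁)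
      (by rw [add_comm]; exact h3) (sq_nonneg _) (by linarith) (by linarith)
    have h6 : ⟪e₁, e⟫ = 0 := by simpa using h5
    have h7 : ⟪e₂, e⟫ ^ 2 = 1 := by linarith
    have h8 := hF.expand e
    rw [o, h6, zero_smul, zero_smul, zero_add, zero_add] at h8
    rw [pow_two] at h7
    rcases mul_self_eq_one_iff.1 h7 with h9 | h9
    · left
      rw [h8, h9, one_smul]
    · right
      rw [h8, h9, neg_smul, one_smul]

end Pool.Agent.K1H41.OV
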