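import Pool.Agent.K1H41.OV.Stm

/-!
# Project OV (MP_997161_gt): piece EXT, two local minima in the open disc
-/

set_option autoImplicit false

namespace Pool.Agent.K1H41.OV

open scoped RealInnerProductSpace Topology ContDiff

/-- near a point of `{φ < ℓ}` every point of the closed disc is joined to it in `{φ < ℓ}` -/
theorem ext_local (φ : ℂ → ℝ) (ℓ : ℝ) (hφ : ContinuousOn φ DD) (z : ℂ) (hz : z ∈ DD)
    (hl : φ z < ℓ) : ∃ ε : ℝ, 0 < ε ∧ ∀ w ∈ Metric.ball z ε, w ∈ DD →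
      JoinedIn {z | z ∈ DD ∧ φ z < ℓ} z w := by
  have h1 : ∀ᶠ w in 𝓝[DD] z, φ w < ℓ := (hφ z hz).eventually (gt_mem_nhds hl)
  obtain ⟨ε, hε, h2⟩ := Metric.mem_nhdsWithin_iff.1 h1
  refine ⟨ε, hε, fun w hw hwD => ?_⟩
  refine JoinedIn.of_segment_subset ?_
  intro x hx
  have hxD : x ∈ DD := (convex_closedBall (0 : ℂ) 1).segment_subset hz hwD hx
  have hxb : x ∈ Metric.ball z ε :=
    (convex_ball z ε).segment_subset (Metric.mem_ball_self hε) hw hx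
  exact ⟨hxD, h2 ⟨hxb, hxD⟩⟩

/-- one local minimum in the component of `a` -/
theorem ext_one (φ ψ κ : ℂ → ℝ) (a : ℂ) (ℓ : ℝ) (hφ : ContinuousOn φ DD)
    (hψ : ContinuousOn ψ DD) (ha : ‖a‖ = 1) (hl : φ a < ℓ)
    (h0 : ∀ z, ‖z‖ = 1 → ψ z = 0)
    (hκ : ∀ z, ‖z‖ < 1 → 0 < κ z ∧ ψ z = κ z * (φ z - ℓ)) :
    ∃ z₁ : ℂ, ‖z₁‖ < 1 ∧ ψ z₁ < 0 ∧ IsLocalMin ψ z₁ ∧
      JoinedIn {z | z ∈ DD ∧ φ z < ℓ} a z₁ := by
  have haD : a ∈ DD := by simp [ha]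
  have hCD : {z | JoinedIn {z | z ∈ DD ∧ φ z < ℓ} a z} ⊆ DD := fun z hz => hz.target_mem.1
  have hKD : closure {z | JoinedIn {z | z ∈ DD ∧ φ z < ℓ} a z} ⊆ DD :=
    closure_minimal hCD Metric.isClosed_closedBall
  have hKc : IsCompact (closure {z | JoinedIn {z | z ∈ DD ∧ φ z < ℓ} a z}) :=
    (isCompact_closedBall (0 : ℂ) 1).of_isClosed_subset isClosed_closure hKD
  have haC : a ∈ {z | JoinedIn {z | z ∈ DD ∧ φ z < ℓ} a z} := JoinedIn.refl ⟨haD, hl⟩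
  obtain ⟨z₁, hz₁K, hmin⟩ := hKc.exists_isMinOn ⟨a, subset_closure haC⟩ (hψ.mono hKD)
  -- a point of the open disc
  obtain ⟨ε, hε, hJ⟩ := ext_local φ ℓ hφ a haD hl
  have hδ0 : 0 < min (ε / 2) (1 / 2) := by positivity
  have hδ1 : min (ε / 2) (1 / 2) ≤ 1 / 2 := min_le_right _ _
  have hδ2 : min (ε / 2) (1 / 2) ≤ ε / 2 := min_le_left _ _
  generalize min (ε / 2) (1 / 2) = δ at hδ0 hδ1 hδ2
  have hwn : ‖((1 - δ : ℝ) : ℂ) * a‖ = 1 - δ := by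
    rw [norm_mul, ha, mul_one, Complex.norm_real, Real.norm_eq_abs, abs_of_pos (by linarith)]
  have hwb : ((1 - δ : ℝ) : ℂ) * a ∈ Metric.ball a ε := by
    rw [mem_ball_iff_norm]
    have : ((1 - δ : ℝ) : ℂ) * a - a = ((-δ : ℝ) : ℂ) * a := by push_cast; ring
    rw [this, norm_mul, ha, mul_one, Complex.norm_real, Real.norm_eq_abs, abs_neg,
      abs_of_pos hδ0]
    linarith
  have hwD : ((1 - δ : ℝ) : ℂ) * a ∈ DD := by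
    rw [mem_closedBall_zero_iff, hwn]; linarith
  have hwJ := hJ _ hwb hwD
  have hwlt : ψ (((1 - δ : ℝ) : ℂ) * a) < 0 := by
    obtain ⟨k0, k1⟩ := hκ (((1 - δ : ℝ) : ℂ) * a) (by rw [hwn]; linarith)
    rw [k1]
    exact mul_neg_of_pos_of_neg k0 (by linarith [hwJ.target_mem.2])
  have hz₁lt : ψ z₁ < 0 :=
    lt_of_le_of_lt (hmin (subset_closure hwJ)) hwlt
  have hz₁D : z₁ ∈ DD := hKD hz₁K
  have hz₁n : ‖z₁‖ < 1 := by
    have h1 : ‖z₁‖ ≤ 1 := mem_closedBall_zero_iff.1 hz₁D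
    rcases h1.lt_or_eq with h | h
    · exact h
    · exact absurd (h0 z₁ h) hz₁lt.ne
  have hz₁φ : φ z₁ < ℓ := by
    obtain ⟨k0, k1⟩ := hκ z₁ hz₁n
    by_contra hcon
    push Not at hcon
    have : 0 ≤ κ z₁ * (φ z₁ - ℓ) := mul_nonneg k0.le (by linarith)
    rw [← k1] at this
    linarith
  obtain ⟨ε₁, hε₁, hJ₁⟩ := ext_local φ ℓ hφ z₁ hz₁D hz₁φ
  have hz₁J : JoinedIn {z | z ∈ DD ∧ φ z < ℓ} a z₁ := by
    obtain ⟨c, hc, hcd⟩ := Metric.mem_closure_iff.1 hz₁K ε₁ hε₁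
    have h2 := hJ₁ c (by rw [Metric.mem_ball, dist_comm]; exact hcd) (hCD hc)
    exact JoinedIn.trans hc h2.symm
  refine ⟨z₁, hz₁n, hz₁lt, ?_, hz₁J⟩
  have hn1 : Metric.ball z₁ ε₁ ∈ 𝓝 z₁ := Metric.ball_mem_nhds _ hε₁
  have hn2 : Metric.ball (0 : ℂ) 1 ∈ 𝓝 z₁ :=
    Metric.isOpen_ball.mem_nhds (by rw [mem_ball_zero_iff]; exact hz₁n)
  filter_upwards [hn1, hn2] with w hw1 hw2
  exact hmin (subset_closure
    (JoinedIn.trans hz₁J (hJ₁ w hw1 (Metric.ball_subset_closedBall hw2))))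

theorem t_EXT : S_EXT := by
  intro φ ψ κ a b ℓ hφ hψ ha hb hla hlb hJ h0 hκ
  obtain ⟨z₁, n1, l1, m1, j1⟩ := ext_one φ ψ κ a ℓ hφ hψ ha hla h0 hκ
  obtain ⟨z₂, n2, l2, m2, j2⟩ := ext_one φ ψ κ b ℓ hφ hψ hb hlb h0 hκ
  refine ⟨z₁, z₂, ?_, n1, n2, l1, l2, m1, m2⟩
  rintro rfl
  exact hJ (j1.trans j2.symm)

end Pool.Agent.K1H41.OV
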