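import Pool.Agent.K1H41.OV.Stm

/-! Piece OV-HOM (S_HOM): homogeneity and symmetry of the derivatives (helper65 for helper41). -/

set_option autoImplicit false

namespace Pool.Agent.K1H41.OV

open scoped RealInnerProductSpace Topology ContDiff
open Filter

namespace HOM

/-- smoothness off zero -/
theorem smAt {h : E3 → ℝ} (hh : SF h) {v : E3} (hv : v ≠ 0) : ContDiffAt ℝ ∞ h v :=
  hh.smooth.contDiffAt (isOpen_compl_singleton.mem_nhds hv)

theorem smAt1 {h : E3 → ℝ} (hh : SF h) {v : E3} (hv : v ≠ 0) : ContDiffAt ℝ ∞ (fderiv ℝ h) v :=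
  (smAt hh hv).fderiv_right (m := ∞) (by simp)

theorem smAt2 {h : E3 → ℝ} (hh : SF h) {v : E3} (hv : v ≠ 0) :
    ContDiffAt ℝ ∞ (fderiv ℝ (fderiv ℝ h)) v :=
  (smAt1 hh hv).fderiv_right (m := ∞) (by simp)

theorem dAt {h : E3 → ℝ} (hh : SF h) {v : E3} (hv : v ≠ 0) : HasFDerivAt h (fderiv ℝ h v) v :=
  ((smAt hh hv).differentiableAt (by simp)).hasFDerivAt

theorem dAt1 {h : E3 → ℝ} (hh : SF h) {v : E3} (hv : v ≠ 0) :
    HasFDerivAt (fderiv ℝ h) (fderiv ℝ (fderiv ℝ h) v) v :=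
  ((smAt1 hh hv).differentiableAt (by simp)).hasFDerivAt

theorem dAt2 {h : E3 → ℝ} (hh : SF h) {v : E3} (hv : v ≠ 0) :
    HasFDerivAt (fderiv ℝ (fderiv ℝ h)) (fderiv ℝ (fderiv ℝ (fderiv ℝ h)) v) v :=
  ((smAt2 hh hv).differentiableAt (by simp)).hasFDerivAt

/-- the derivative of `c ↦ F (c • v)` at `1` -/
theorem ray {G : Type} [NormedAddCommGroup G] [NormedSpace ℝ G] {F : E3 → G} {L : E3 →L[ℝ] G}
    {v : E3} (hF : HasFDerivAt F L v) : HasDerivAt (fun c : ℝ => F (c • v)) (L v) 1 := by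
  have h1 : HasDerivAt (fun c : ℝ => c • v) v 1 := by
    have := (hasDerivAt_id (1 : ℝ)).smul_const v
    rwa [one_smul] at this
  have h2 : HasFDerivAt F L ((1 : ℝ) • v) := by rwa [one_smul]
  exact h2.comp_hasDerivAt 1 h1

/-- the derivative of `x ↦ F (c • x)` -/
theorem scale {G : Type} [NormedAddCommGroup G] [NormedSpace ℝ G] {F : E3 → G} {L : E3 →L[ℝ] G}
    {v : E3} {c : ℝ} (hF : HasFDerivAt F L (c • v)) : HasFDerivAt (fun x : E3 => F (c • x)) (c • L) v := by
  have h1 : HasFDerivAt (fun x : E3 => c • x) (c • ContinuousLinearMap.id ℝ E3) v :=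
    (hasFDerivAt_id v).const_smul c
  have h2 := hF.comp v h1
  have h3 : L.comp (c • ContinuousLinearMap.id ℝ E3) = c • L := by
    ext x
    simp
  rw [h3] at h2
  exact h2

theorem fder_hom {h : E3 → ℝ} (hh : SF h) {v : E3} (hv : v ≠ 0) {c : ℝ} (hc : 0 < c) :
    fderiv ℝ h (c • v) = fderiv ℝ h v := by
  have hcv : c • v ≠ 0 := smul_ne_zero hc.ne' hv
  have h1 := scale (dAt hh hcv)
  have h2 : HasFDerivAt (fun x : E3 => h (c • x)) (c • fderiv ℝ h v) v := by
    have h3 : (fun x : E3 => h (c • x)) = fun x => c • h x := by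
      funext x
      rw [hh.hom c hc x, smul_eq_mul]
    rw [h3]
    exact (dAt hh hv).const_smul c
  have h3 := h1.unique h2
  exact smul_right_injective _ hc.ne' h3

theorem fder2_hom {h : E3 → ℝ} (hh : SF h) {v : E3} (hv : v ≠ 0) {c : ℝ} (hc : 0 < c) :
    fderiv ℝ (fderiv ℝ h) (c • v) = c⁻¹ • fderiv ℝ (fderiv ℝ h) v := by
  have hcv : c • v ≠ 0 := smul_ne_zero hc.ne' hv
  have h1 := scale (dAt1 hh hcv)
  have h2 : HasFDerivAt (fun x : E3 => fderiv ℝ h (c • x)) (fderiv ℝ (fderiv ℝ h) v) v := by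
    refine (dAt1 hh hv).congr_of_eventuallyEq ?_
    filter_upwards [isOpen_compl_singleton.mem_nhds hv] with x hx
    exact fder_hom hh hx hc
  have h3 := h1.unique h2
  rw [← h3, smul_smul, inv_mul_cancel₀ hc.ne', one_smul]

theorem two_le : minSmoothness ℝ 2 ≤ (∞ : WithTop ℕ∞) := by
  rw [minSmoothness_of_isRCLikeNormedField]
  exact ENat.LEInfty.out

theorem sym2 {h : E3 → ℝ} (hh : SF h) {v : E3} (hv : v ≠ 0) (a b : E3) :
    fderiv ℝ (fderiv ℝ h) v a b = fderiv ℝ (fderiv ℝ h) v b a :=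
  ((smAt hh hv).isSymmSndFDerivAt two_le).eq a b

end HOM

open HOM

theorem t_HOM : S_HOM := by
  intro h hh v hv
  have hpos : ∀ᶠ c : ℝ in 𝓝 1, 0 < c := lt_mem_nhds one_pos
  have h2v : fderiv ℝ (fderiv ℝ h) v v = 0 := by
    have h1 := ray (dAt1 hh hv)
    have h2 : HasDerivAt (fun c : ℝ => fderiv ℝ h (c • v)) (0 : E3 →L[ℝ] ℝ) 1 := by
      refine (hasDerivAt_const (1 : ℝ) (fderiv ℝ h v)).congr_of_eventuallyEq ?_
      filter_upwards [hpos] with c hc
      exact fder_hom hh hv hc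
    exact h1.unique h2
  refine ⟨?_, ?_, ?_, ?_, ?_, ?_⟩
  · have h1 := ray (dAt hh hv)
    have h2 : HasDerivAt (fun c : ℝ => h (c • v)) (h v) 1 := by
      have h3 : HasDerivAt (fun c : ℝ => c * h v) (h v) 1 := by
        have := (hasDerivAt_id (1 : ℝ)).mul_const (h v)
        rwa [one_mul] at this
      refine h3.congr_of_eventuallyEq ?_
      filter_upwards [hpos] with c hc
      exact hh.hom c hc v
    exact h1.unique h2
  · intro a
    have h1 : d2 h v v a = 0 := by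
      unfold d2
      rw [h2v]
      rfl
    refine ⟨h1, ?_⟩
    unfold d2 at h1 ⊢
    rw [sym2 hh hv, h1]
  · intro a b
    exact sym2 hh hv a b
  · intro a b c
    refine ⟨?_, ?_⟩
    · unfold d3
      rw [((smAt1 hh hv).isSymmSndFDerivAt two_le).eq a b]
    · unfold d3
      have h2 : (fun x => fderiv ℝ (fderiv ℝ h) x b c) =ᶠ[𝓝 v]
          fun x => fderiv ℝ (fderiv ℝ h) x c b := by
        filter_upwards [isOpen_compl_singleton.mem_nhds hv] with x hx
        exact sym2 hh hx b c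
      have h1 : ∀ b c : E3, fderiv ℝ (fun x => fderiv ℝ (fderiv ℝ h) x b c) v a =
          fderiv ℝ (fderiv ℝ (fderiv ℝ h)) v a b c := by
        intro b c
        have h3 := (((dAt2 hh hv).clm_apply (hasFDerivAt_const b v)).clm_apply
          (hasFDerivAt_const c v)).fderiv
        rw [h3]
        simp
      rw [← h1 b c, ← h1 c b, h2.fderiv_eq]
  · intro c hc w
    unfold d1
    rw [fder_hom hh hv hc]
  · intro c hc a b
    unfold d2
    rw [fder2_hom hh hv hc]
    rfl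

end Pool.Agent.K1H41.OV
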