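import Pool.Agent.K1H41.OV.Stm

/-!
# Project OV, piece IFT: local smooth solutions of `f x = 0`, `∇ f x = μ v`
-/

set_option autoImplicit false

namespace Pool.Agent.K1H41.OV

open scoped RealInnerProductSpace Topology ContDiff

namespace IFT

/-- the standard orthonormal basis -/
noncomputable def bs : OrthonormalBasis (Fin 3) ℝ E3 := EuclideanSpace.basisFun (Fin 3) ℝ

/-- the Riesz map, as a continuous linear map -/
noncomputable def rz : (E3 →L[ℝ] ℝ) →L[ℝ] E3 :=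
  ∑ i, (ContinuousLinearMap.apply ℝ ℝ (bs i)).smulRight (bs i)

theorem rz_apply (φ : E3 →L[ℝ] ℝ) : rz φ = ∑ i, φ (bs i) • bs i := by
  simp [rz]

theorem inner_rz (φ : E3 →L[ℝ] ℝ) (w : E3) : ⟪rz φ, w⟫ = φ w := by
  have h := bs.sum_repr' w
  conv_rhs => rw [← h]
  rw [rz_apply, sum_inner, map_sum]
  refine Finset.sum_congr rfl fun i _ => ?_
  rw [real_inner_smul_left, map_smul, smul_eq_mul, mul_comm]

theorem rz_eq {φ : E3 →L[ℝ] ℝ} {c : ℝ} {v : E3} (h : ∀ w, φ w = c * ⟪v, w⟫) : rz φ = c • v := by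
  refine ext_inner_right ℝ fun w => ?_
  rw [inner_rz, h, real_inner_smul_left]

/-- the map `(x, m) ↦ (m ∇ f x, f x)` -/
noncomputable def Psi (f : E3 → ℝ) (p : E3 × ℝ) : E3 × ℝ := (p.2 • rz (fderiv ℝ f p.1), f p.1)

/-- its derivative -/
noncomputable def dPsi (f : E3 → ℝ) (q : E3) (m : ℝ) : E3 × ℝ →L[ℝ] E3 × ℝ :=
  (m • (rz.comp ((fderiv ℝ (fderiv ℝ f) q).comp (ContinuousLinearMap.fst ℝ E3 ℝ))) +
      (ContinuousLinearMap.snd ℝ E3 ℝ).smulRight (rz (fderiv ℝ f q))).prod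
    ((fderiv ℝ f q).comp (ContinuousLinearMap.fst ℝ E3 ℝ))

theorem contDiffAt_fderiv {f : E3 → ℝ} {q : E3} (h : ContDiffAt ℝ ∞ f q) :
    ContDiffAt ℝ ∞ (fderiv ℝ f) q := h.fderiv_right (by simp)

theorem contDiffAt_Psi {f : E3 → ℝ} {q : E3} (h : ContDiffAt ℝ ∞ f q) (m : ℝ) :
    ContDiffAt ℝ ∞ (Psi f) (q, m) := by
  have h1 : ContDiffAt ℝ ∞ (fun p : E3 × ℝ => f p.1) (q, m) :=
    ContDiffAt.comp (q, m) (g := f) (f := Prod.fst) h contDiffAt_fst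
  have h2 : ContDiffAt ℝ ∞ (fun p : E3 × ℝ => fderiv ℝ f p.1) (q, m) :=
    ContDiffAt.comp (q, m) (g := fderiv ℝ f) (f := Prod.fst) (contDiffAt_fderiv h) contDiffAt_fst
  have h3 : ContDiffAt ℝ ∞ (fun p : E3 × ℝ => rz (fderiv ℝ f p.1)) (q, m) :=
    ContDiffAt.comp (q, m) (g := rz) rz.contDiff.contDiffAt h2
  exact (contDiffAt_snd.smul h3).prodMk h1

theorem hasFDerivAt_Psi {f : E3 → ℝ} {q : E3} (h : ContDiffAt ℝ ∞ f q) (m : ℝ) :
    HasFDerivAt (Psi f) (dPsi f q m) (q, m) := by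
  have hf : HasFDerivAt f (fderiv ℝ f q) q := (h.differentiableAt (by simp)).hasFDerivAt
  have hg : HasFDerivAt (fderiv ℝ f) (fderiv ℝ (fderiv ℝ f) q) q :=
    ((contDiffAt_fderiv h).differentiableAt (by simp)).hasFDerivAt
  have h0 : HasFDerivAt (Prod.fst : E3 × ℝ → E3) (ContinuousLinearMap.fst ℝ E3 ℝ) (q, m) :=
    hasFDerivAt_fst
  have h0' : HasFDerivAt (Prod.snd : E3 × ℝ → ℝ) (ContinuousLinearMap.snd ℝ E3 ℝ) (q, m) :=
    hasFDerivAt_snd
  have h1 : HasFDerivAt (fun p : E3 × ℝ => f p.1)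
      ((fderiv ℝ f q).comp (ContinuousLinearMap.fst ℝ E3 ℝ)) (q, m) :=
    HasFDerivAt.comp (q, m) (g := f) hf h0
  have h2 : HasFDerivAt (fun p : E3 × ℝ => fderiv ℝ f p.1)
      ((fderiv ℝ (fderiv ℝ f) q).comp (ContinuousLinearMap.fst ℝ E3 ℝ)) (q, m) :=
    HasFDerivAt.comp (q, m) (g := fderiv ℝ f) hg h0
  have h3 : HasFDerivAt (fun p : E3 × ℝ => rz (fderiv ℝ f p.1))
      (rz.comp ((fderiv ℝ (fderiv ℝ f) q).comp (ContinuousLinearMap.fst ℝ E3 ℝ))) (q, m) :=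
    HasFDerivAt.comp (q, m) (g := rz) rz.hasFDerivAt h2
  exact (h0'.smul h3).prodMk h1

theorem dPsi_inj {f : E3 → ℝ} {q v : E3} {μ m : ℝ} (hv : v ≠ 0) (hμ : μ ≠ 0) (hm : m ≠ 0)
    (h : ∀ w, fderiv ℝ f q w = μ * ⟪v, w⟫) (hp : PosCurv f q) :
    Function.Injective (dPsi f q m) := by
  rw [injective_iff_map_eq_zero]
  rintro ⟨a, b⟩ hab
  have h1 : m • rz (fderiv ℝ (fderiv ℝ f) q a) + b • rz (fderiv ℝ f q) = 0 ∧
      fderiv ℝ f q a = 0 := by
    simpa [dPsi, Prod.ext_iff] using hab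
  obtain ⟨h1, h2⟩ := h1
  have h3 : m * fderiv ℝ (fderiv ℝ f) q a a = 0 := by
    have h4 : ⟪m • rz (fderiv ℝ (fderiv ℝ f) q a) + b • rz (fderiv ℝ f q), a⟫ = 0 := by
      rw [h1, inner_zero_left]
    rw [inner_add_left, real_inner_smul_left, real_inner_smul_left, inner_rz, inner_rz, h2,
      mul_zero, add_zero] at h4
    exact h4
  have h5 : a = 0 := by
    by_contra ha
    exact hp a h2 ha ((mul_eq_zero.1 h3).resolve_left hm)
  subst h5
  have h6 : b • μ • v = 0 := by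
    rw [rz_eq h] at h1
    simpa using h1
  have h7 : b = 0 := by
    rcases smul_eq_zero.1 h6 with h7 | h7
    · exact h7
    · rcases smul_eq_zero.1 h7 with h8 | h8
      · exact absurd h8 hμ
      · exact absurd h8 hv
  rw [h7]
  rfl

/-- the derivative as an equivalence -/
noncomputable def ePsi (f : E3 → ℝ) (q : E3) (m : ℝ) (h : Function.Injective (dPsi f q m)) :
    (E3 × ℝ) ≃L[ℝ] (E3 × ℝ) :=
  (LinearEquiv.ofInjectiveEndo (dPsi f q m).toLinearMap h).toContinuousLinearEquiv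

theorem coe_ePsi (f : E3 → ℝ) (q : E3) (m : ℝ) (h : Function.Injective (dPsi f q m)) :
    ((ePsi f q m h : (E3 × ℝ) ≃L[ℝ] (E3 × ℝ)) : E3 × ℝ →L[ℝ] E3 × ℝ) = dPsi f q m := by
  refine ContinuousLinearMap.ext fun p => ?_
  rfl

end IFT

open IFT in
theorem t_IFT : S_IFT := by
  intro f q v μ hf hfq hv hμ hG hp
  have hinj : Function.Injective (dPsi f q μ⁻¹) := dPsi_inj hv hμ (inv_ne_zero hμ) hG hp
  have hC : ContDiffAt ℝ ∞ (Psi f) (q, μ⁻¹) := contDiffAt_Psi hf _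
  have hD : HasFDerivAt (Psi f)
      ((ePsi f q μ⁻¹ hinj : (E3 × ℝ) ≃L[ℝ] (E3 × ℝ)) : E3 × ℝ →L[ℝ] E3 × ℝ) (q, μ⁻¹) := by
    rw [coe_ePsi]
    exact hasFDerivAt_Psi hf _
  have hn : (∞ : WithTop ℕ∞) ≠ 0 := by simp
  have hval : Psi f (q, μ⁻¹) = (v, 0) := by
    have h1 : rz (fderiv ℝ f q) = μ • v := rz_eq hG
    simp only [Psi, h1, hfq]
    rw [inv_smul_smul₀ hμ]
  set H := hC.toOpenPartialHomeomorph (Psi f) hD hn with hH
  have hcoe : (H : E3 × ℝ → E3 × ℝ) = Psi f := rfl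
  have hmem : (q, μ⁻¹) ∈ H.source := hC.mem_toOpenPartialHomeomorph_source hD hn
  have hLI : ContDiffAt ℝ ∞ (hC.localInverse hD hn) (Psi f (q, μ⁻¹)) := hC.to_localInverse hD hn
  have hLI' : ContDiffAt ℝ ∞ H.symm (v, (0 : ℝ)) := by
    rw [← hval]
    exact hLI
  have hsymm : ∀ p ∈ H.source, H.symm (Psi f p) = p := fun p hp => H.left_inv hp
  -- a neighbourhood
  have hnb : ∀ᶠ p : E3 × ℝ in 𝓝 (q, μ), (p.1, p.2⁻¹) ∈ H.source ∧ p.2 ≠ 0 := by
    refine Filter.Eventually.and ?_ ?_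
    · have hc : ContinuousAt (fun p : E3 × ℝ => (p.1, p.2⁻¹)) (q, μ) :=
        continuousAt_fst.prodMk (continuousAt_snd.inv₀ hμ)
      exact hc (H.open_source.mem_nhds hmem)
    · exact continuousAt_snd.eventually_ne hμ
  obtain ⟨ε, hε, hball⟩ := Metric.eventually_nhds_iff.1 hnb
  refine ⟨fun v' => (H.symm (v', 0)).1, ε, hε, ?_, ?_, ?_⟩
  · have := hsymm _ hmem
    rw [hval] at this
    simp only [this]
  · have h1 : ContDiffAt ℝ ∞ (fun v' : E3 => (v', (0 : ℝ))) v :=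
      contDiffAt_id.prodMk contDiffAt_const
    have h2 : ContDiffAt ℝ ∞ (fun v' : E3 => H.symm (v', (0 : ℝ))) v :=
      ContDiffAt.comp v (g := H.symm) hLI' h1
    exact contDiffAt_fst.comp v h2
  · refine Filter.Eventually.of_forall fun v' y hy hfy hex => ?_
    obtain ⟨μ', hμ', hw⟩ := hex
    have hd : dist (y, μ') (q, μ) < ε := by
      rw [Prod.dist_eq, max_lt_iff, dist_eq_norm, Real.dist_eq]
      exact ⟨hy, hμ'⟩
    obtain ⟨hs, hne⟩ := hball hd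
    have h1 : Psi f (y, μ'⁻¹) = (v', 0) := by
      have h2 : rz (fderiv ℝ f y) = μ' • v' := rz_eq hw
      simp only [Psi, h2, hfy]
      rw [inv_smul_smul₀ hne]
    have h3 := hsymm _ hs
    rw [h1] at h3
    simp only [h3]

end Pool.Agent.K1H41.OV
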