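import Pool.Agent.K1H41.OV.Stm

/-! The levels of a strict local minimum and of a strict local maximum on the unit circle. -/

set_option autoImplicit false

namespace Pool.Agent.K1H41.OV

open Set Topology

theorem LH.mem_DD {z : ℂ} : z ∈ DD ↔ ‖z‖ ≤ 1 := by simp [DD]

theorem t_LO : S_LO := by
  intro φ r a hφ ha hloc
  obtain ⟨ε, hε, hloc⟩ := hloc
  have haD : a ∈ DD := by
    rw [LH.mem_DD]
    rcases ha with rfl | rfl <;> simp
  set e : ℝ := min ε 1 / 2 with he
  have he0 : 0 < e := by rw [he]; have := lt_min hε one_pos; linarith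
  have heε : e < ε := by rw [he]; have := min_le_left ε 1; linarith
  have he1 : e < 1 := by rw [he]; have := min_le_right ε 1; linarith
  set K : Set ℂ := {z | z ∈ DD ∧ ‖z - a‖ = e} with hK
  have hKc : IsCompact K := by
    have h1 : K = DD ∩ {z | ‖z - a‖ = e} := rfl
    rw [h1]
    exact (isCompact_closedBall 0 1).inter_right
      (isClosed_eq ((continuous_id.sub continuous_const).norm) continuous_const)
  -- `K` is met by every path
  have hmeet : ∀ A : Set ℂ, A ⊆ DD → JoinedIn A 1 (-1) → (A ∩ K).Nonempty := by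
    intro A hA hj
    have hpath := hj.somePath
    have hc : Continuous fun t : unitInterval => ‖hj.somePath t - a‖ :=
      (hj.somePath.continuous.sub continuous_const).norm
    have h0 : ‖hj.somePath 0 - a‖ = ‖(1 : ℂ) - a‖ := by rw [hj.somePath.source]
    have h1 : ‖hj.somePath 1 - a‖ = ‖(-1 : ℂ) - a‖ := by rw [hj.somePath.target]
    have hn : ‖((-1 : ℂ) - 1)‖ = 2 := by norm_num
    have hn' : ‖((1 : ℂ) - (-1))‖ = 2 := by norm_num
    have : ∃ t : unitInterval, ‖hj.somePath t - a‖ = e := by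
      rcases ha with rfl | rfl
      · have := mem_range_of_exists_le_of_exists_ge hc (c := e)
          ⟨0, by rw [h0, sub_self, norm_zero]; exact he0.le⟩ ⟨1, by rw [h1, hn]; linarith⟩
        exact this
      · have := mem_range_of_exists_le_of_exists_ge hc (c := e)
          ⟨1, by rw [h1, sub_self, norm_zero]; exact he0.le⟩ ⟨0, by rw [h0, hn']; linarith⟩
        exact this
    obtain ⟨t, ht⟩ := this
    exact ⟨hj.somePath t, hj.somePath_mem t, hA (hj.somePath_mem t), ht⟩
  by_cases hKe : K.Nonempty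
  · obtain ⟨z₀, hz₀, hmin⟩ := hKc.exists_isMinOn hKe (hφ.mono fun z hz => hz.1)
    have hz1 : r < φ z₀ := by
      refine hloc z₀ hz₀.1 ?_ ?_
      · rintro rfl
        have := hz₀.2
        rw [sub_self, norm_zero] at this
        exact he0.ne this
      · rw [hz₀.2]; exact heε
    refine ⟨φ z₀ - r, by linarith, fun hj => ?_⟩
    obtain ⟨z, hz, hzK⟩ := hmeet _ (fun z hz => hz.1) hj
    have h1 : φ z < r + (φ z₀ - r) := hz.2
    have h2 : φ z₀ ≤ φ z := hmin hzK
    linarith
  · refine ⟨1, one_pos, fun hj => ?_⟩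
    obtain ⟨z, hz, hzK⟩ := hmeet _ (fun z hz => hz.1) hj
    exact hKe ⟨z, hzK⟩

/-- A continuous image of a segment of the line joins its end points. -/
theorem LH.joined {S : Set ℂ} (f : ℝ → ℂ) (hf : Continuous f) {s t : ℝ} (hst : s ≤ t)
    (h : ∀ x ∈ Icc s t, f x ∈ S) : JoinedIn S (f s) (f t) := by
  have h1 : IsPathConnected (Icc s t) := (convex_Icc s t).isPathConnected ⟨s, left_mem_Icc.2 hst⟩
  have h2 := h1.image hf
  have h3 := h2.joinedIn (f s) ⟨s, left_mem_Icc.2 hst, rfl⟩ (f t) ⟨t, right_mem_Icc.2 hst, rfl⟩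
  exact h3.mono (by rintro _ ⟨x, hx, rfl⟩; exact h x hx)

theorem t_HI : S_HI := by
  intro φ r₁ r₂ c hr hφ hcirc hc hloc
  obtain ⟨ε, hε, hloc⟩ := hloc
  -- the sign
  obtain ⟨σ, hσ, hcσ⟩ : ∃ σ : ℝ, (σ = 1 ∨ σ = -1) ∧ c = σ * Complex.I := by
    rcases hc with rfl | rfl
    · exact ⟨1, Or.inl rfl, by simp⟩
    · exact ⟨-1, Or.inr rfl, by simp⟩
  have hσ2 : σ ^ 2 = 1 := by rcases hσ with rfl | rfl <;> norm_num
  -- a point of the circle close to `c`
  obtain ⟨δ, hδ0, hδ1, hδε⟩ : ∃ δ : ℝ, 0 < δ ∧ δ < 1 ∧ 2 * δ < ε := by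
    refine ⟨min ε 1 / 3, ?_, ?_, ?_⟩
    · have := lt_min hε one_pos; linarith
    · have := min_le_right ε 1; linarith
    · have := min_le_left ε 1; linarith
  set y : ℝ := √(1 - δ ^ 2) with hy
  have hy2 : y ^ 2 = 1 - δ ^ 2 := Real.sq_sqrt (by nlinarith)
  have hy0 : 0 < y := Real.sqrt_pos.2 (by nlinarith)
  have hy1 : y < 1 := by nlinarith
  have hyδ : 1 - δ ≤ y := by nlinarith
  -- the path: for `|x| ≥ δ` on the circle, for `|x| ≤ δ` the chord
  set g : ℝ → ℂ := fun x => ⟨-x, σ * min y (√(1 - x ^ 2))⟩ with hg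
  have hgc : Continuous g := by
    have h1 : g = fun x => ((-x : ℝ) : ℂ) + ((σ * min y (√(1 - x ^ 2)) : ℝ) : ℂ) * Complex.I := by
      funext x
      apply Complex.ext <;> simp [hg]
    rw [h1]
    fun_prop
  set A : Set ℂ := g '' Icc (-1) 1 with hA
  have hAc : IsCompact A := isCompact_Icc.image hgc
  have hAD : A ⊆ DD := by
    rintro _ ⟨x, hx, rfl⟩
    rw [LH.mem_DD]
    have h1 : x ^ 2 ≤ 1 := by nlinarith [hx.1, hx.2]
    have h2 : 0 ≤ min y (√(1 - x ^ 2)) := le_min hy0.le (Real.sqrt_nonneg _)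
    have h3 : (min y (√(1 - x ^ 2))) ^ 2 ≤ 1 - x ^ 2 := by
      calc (min y (√(1 - x ^ 2))) ^ 2 ≤ (√(1 - x ^ 2)) ^ 2 := pow_le_pow_left₀ h2 (min_le_right _ _) 2
        _ = _ := Real.sq_sqrt (by linarith)
    have h4 : ‖g x‖ ^ 2 ≤ 1 := by
      rw [← Complex.normSq_eq_norm_sq, Complex.normSq_apply]
      simp only [hg]
      nlinarith
    nlinarith [norm_nonneg (g x)]
  have hAlt : ∀ z ∈ A, φ z < r₂ := by
    rintro _ ⟨x, hx, rfl⟩
    have h1 : x ^ 2 ≤ 1 := by nlinarith [hx.1, hx.2]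
    have hgD : g x ∈ DD := hAD ⟨x, hx, rfl⟩
    by_cases hxδ : |x| < δ
    · -- the chord
      have hxx : x ^ 2 < δ ^ 2 := by
        rw [← sq_abs]
        exact pow_lt_pow_left₀ hxδ (abs_nonneg x) two_ne_zero
      have hm : min y (√(1 - x ^ 2)) = y := by
        apply min_eq_left
        rw [hy]
        exact Real.sqrt_le_sqrt (by linarith)
      have hgx : g x = ⟨-x, σ * y⟩ := by simp only [hg, hm]
      apply hloc _ hgD
      · intro h
        have h2 := congrArg Complex.im h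
        rw [hgx, hcσ] at h2
        simp at h2
        rcases hσ with rfl | rfl <;> linarith
      · have h2 : g x - c = ((-x : ℝ) : ℂ) + ((σ * (y - 1) : ℝ) : ℂ) * Complex.I := by
          rw [hgx, hcσ]
          apply Complex.ext <;> simp
          ring
        rw [h2]
        refine (norm_add_le _ _).trans_lt ?_
        rw [norm_mul, Complex.norm_I, mul_one, Complex.norm_real, Complex.norm_real,
          Real.norm_eq_abs, Real.norm_eq_abs, abs_neg, abs_mul]
        have h3 : |σ| = 1 := by rcases hσ with rfl | rfl <;> norm_num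
        have h4 : |y - 1| = 1 - y := by rw [abs_sub_comm, abs_of_pos (by linarith)]
        rw [h3, h4]
        linarith
    · -- the circle
      push Not at hxδ
      have hxx : δ ^ 2 ≤ x ^ 2 := by
        rw [← sq_abs x]
        exact pow_le_pow_left₀ hδ0.le hxδ 2
      have hm : min y (√(1 - x ^ 2)) = √(1 - x ^ 2) := by
        apply min_eq_right
        rw [hy]
        exact Real.sqrt_le_sqrt (by linarith)
      have hs : (√(1 - x ^ 2)) ^ 2 = 1 - x ^ 2 := Real.sq_sqrt (by linarith)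
      have hgx : g x = ⟨-x, σ * √(1 - x ^ 2)⟩ := by simp only [hg, hm]
      have hn : ‖g x‖ = 1 := by
        have h4 : ‖g x‖ ^ 2 = 1 := by
          rw [← Complex.normSq_eq_norm_sq, Complex.normSq_apply, hgx]
          simp only
          nlinarith
        have := norm_nonneg (g x)
        nlinarith
      rw [hcirc _ hn, hgx]
      simp only
      have h5 : (σ * √(1 - x ^ 2)) ^ 2 = 1 - x ^ 2 := by rw [mul_pow, hσ2, hs, one_mul]
      rw [h5]
      have h6 : 0 < x ^ 2 := lt_of_lt_of_le (by positivity) hxx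
      nlinarith
  have hAne : A.Nonempty := ⟨g 0, 0, by constructor <;> norm_num, rfl⟩
  obtain ⟨z₀, hz₀, hmax⟩ := hAc.exists_isMaxOn hAne (hφ.mono hAD)
  have h0 := hAlt z₀ hz₀
  refine ⟨(r₂ - φ z₀) / 2, by linarith, ?_⟩
  have e1 : g (-1) = 1 := by
    simp only [hg]
    apply Complex.ext
    · simp
    · simp [hy0.le]
  have e2 : g 1 = -1 := by
    simp only [hg]
    apply Complex.ext
    · simp
    · simp [hy0.le]
  have hj : JoinedIn {z | z ∈ DD ∧ φ z < r₂ - (r₂ - φ z₀) / 2} (g (-1)) (g 1) := ?_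
  · rwa [e1, e2] at hj
  refine LH.joined g hgc (by norm_num) fun x hx => ?_
  have hgA : g x ∈ A := ⟨x, hx, rfl⟩
  refine ⟨hAD hgA, ?_⟩
  have : φ (g x) ≤ φ z₀ := hmax hgA
  linarith

end Pool.Agent.K1H41.OV
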