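import Pool.Agent.K1H41.OV.Stm

/-! Project OV, piece MAX: the support points of a smooth strictly curved convex body. -/

set_option autoImplicit false

namespace Pool.Agent.K1H41.OV

open scoped RealInnerProductSpace Topology ContDiff
open Set Filter

/-- a function which vanishes along a short segment from `q` has vanishing first and second
derivatives in the direction of the segment -/
theorem vanish_seg (f : E3 → ℝ) (U : Set E3) (hU : IsOpen U) (q w : E3) (hq : q ∈ U)
    (hf : ContDiffOn ℝ ∞ f U) (δ : ℝ) (hδ : 0 < δ) (hδU : ∀ t : ℝ, 0 < t → t < δ → q + t • w ∈ U)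
    (h0 : ∀ t : ℝ, 0 < t → t < δ → f (q + t • w) = 0) :
    fderiv ℝ f q w = 0 ∧ fderiv ℝ (fderiv ℝ f) q w w = 0 := by
  have hline : ∀ t : ℝ, HasDerivAt (fun t : ℝ => q + t • w) w t := by
    intro t
    have := ((hasDerivAt_id t).smul_const w).const_add q
    simpa using this
  -- general principle
  have key : ∀ G : E3 → ℝ, (∀ x ∈ U, DifferentiableAt ℝ G x) →
      ContinuousAt (fun x => fderiv ℝ G x w) q →
      (∀ t : ℝ, 0 < t → t < δ → G (q + t • w) = 0) →
      (∀ t : ℝ, 0 < t → t < δ → fderiv ℝ G (q + t • w) w = 0) ∧ fderiv ℝ G q w = 0 := by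
    intro G hG hc hz
    have h1 : ∀ t : ℝ, 0 < t → t < δ → fderiv ℝ G (q + t • w) w = 0 := by
      intro t ht1 ht2
      have hd : HasDerivAt (fun t : ℝ => G (q + t • w)) (fderiv ℝ G (q + t • w) w) t :=
        (hG _ (hδU t ht1 ht2)).hasFDerivAt.comp_hasDerivAt t (hline t)
      have hz' : (fun t : ℝ => G (q + t • w)) =ᶠ[𝓝 t] fun _ => 0 := by
        filter_upwards [Ioo_mem_nhds ht1 ht2] with s hs
        exact hz s hs.1 hs.2
      have hd0 : HasDerivAt (fun t : ℝ => G (q + t • w)) 0 t :=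
        (hasDerivAt_const t (0:ℝ)).congr_of_eventuallyEq hz'
      exact hd.unique hd0
    refine ⟨h1, ?_⟩
    have h2 : Tendsto (fun t : ℝ => fderiv ℝ G (q + t • w) w) (𝓝[>] 0) (𝓝 (fderiv ℝ G q w)) := by
      have h3 : Tendsto (fun t : ℝ => q + t • w) (𝓝[>] 0) (𝓝 q) := by
        have : ContinuousAt (fun t : ℝ => q + t • w) 0 := (hline 0).continuousAt
        have h4 : Tendsto (fun t : ℝ => q + t • w) (𝓝 0) (𝓝 (q + (0:ℝ) • w)) := this
        rw [zero_smul, add_zero] at h4
        exact h4.mono_left nhdsWithin_le_nhds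
      exact hc.tendsto.comp h3
    have h5 : Tendsto (fun t : ℝ => fderiv ℝ G (q + t • w) w) (𝓝[>] 0) (𝓝 0) := by
      refine tendsto_const_nhds.congr' ?_
      filter_upwards [Ioo_mem_nhdsGT hδ] with s hs
      exact (h1 s hs.1 hs.2).symm
    exact tendsto_nhds_unique h2 h5
  have hdf : ContDiffOn ℝ ∞ (fderiv ℝ f) U := hf.fderiv_of_isOpen hU (by simp)
  have hg1 : ContDiffOn ℝ ∞ (fun x => fderiv ℝ f x w) U := hdf.clm_apply contDiffOn_const
  have hdf2 : ContDiffOn ℝ ∞ (fderiv ℝ (fderiv ℝ f)) U := hdf.fderiv_of_isOpen hU (by simp)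
  have hne : (∞ : WithTop ℕ∞) ≠ 0 := by simp
  obtain ⟨a1, a2⟩ := key f (fun x hx => ((hf.differentiableOn hne) x hx).differentiableAt
    (hU.mem_nhds hx)) ((hg1.continuousOn q hq).continuousAt (hU.mem_nhds hq)) h0
  have hfd : ∀ x ∈ U, fderiv ℝ (fun x => fderiv ℝ f x w) x w = fderiv ℝ (fderiv ℝ f) x w w := by
    intro x hx
    have hd : DifferentiableAt ℝ (fderiv ℝ f) x :=
      ((hdf.differentiableOn hne) x hx).differentiableAt (hU.mem_nhds hx)
    have := (hd.hasFDerivAt.clm_apply (hasFDerivAt_const w x)).fderiv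
    rw [this]
    simp
  have hc2 : ContinuousAt (fun x => fderiv ℝ (fun x => fderiv ℝ f x w) x w) q := by
    have h6 : ContDiffOn ℝ ∞ (fun x => fderiv ℝ (fun x => fderiv ℝ f x w) x w) U :=
      (hg1.fderiv_of_isOpen hU (by simp) : ContDiffOn ℝ ∞ _ U).clm_apply contDiffOn_const
    exact (h6.continuousOn q hq).continuousAt (hU.mem_nhds hq)
  obtain ⟨-, b2⟩ := key (fun x => fderiv ℝ f x w) (fun x hx =>
    ((hg1.differentiableOn hne) x hx).differentiableAt (hU.mem_nhds hx)) hc2 a1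
  rw [hfd q hq] at b2
  exact ⟨a2, b2⟩

/-- `q` is a point of `K` where `⟪·, v⟫` is maximal -/
def MaxPt (K : Set E3) (v q : E3) : Prop := q ∈ K ∧ ∀ x ∈ K, ⟪x, v⟫ ≤ ⟪q, v⟫

theorem MaxPt.mem_frontier {K : Set E3} (_hK : IsCompact K) {v q : E3} (hv : v ≠ 0)
    (h : MaxPt K v q) : q ∈ frontier K := by
  refine ⟨subset_closure h.1, fun hint => ?_⟩
  have h1 : Tendsto (fun t : ℝ => q + t • v) (𝓝[>] 0) (𝓝 q) := by
    have : Continuous (fun t : ℝ => q + t • v) := by fun_prop
    have h4 := this.tendsto 0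
    rw [zero_smul, add_zero] at h4
    exact h4.mono_left nhdsWithin_le_nhds
  have h2 := h1.eventually (mem_interior_iff_mem_nhds.mp hint)
  obtain ⟨t, ht1, ht2⟩ := (h2.and self_mem_nhdsWithin).exists
  have h3 := h.2 _ ht1
  rw [inner_add_left, real_inner_smul_left, real_inner_self_eq_norm_sq] at h3
  have h5 : 0 < t * ‖v‖ ^ 2 := by
    have : 0 < ‖v‖ := norm_pos_iff.mpr hv
    have ht : 0 < t := ht2
    positivity
  linarith

theorem MaxPt.unique {S K : Set E3} (hKc : Convex ℝ K) (hK : IsCompact K) (hS : S = frontier K)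
    (hf : ∀ q ∈ S, ∃ f : E3 → ℝ, IsDefFn S q f ∧ PosCurv f q) {v q q' : E3} (hv : v ≠ 0)
    (h : MaxPt K v q) (h' : MaxPt K v q') : q = q' := by
  by_contra hne
  have hw : q' - q ≠ 0 := sub_ne_zero.mpr (Ne.symm hne)
  have hq : q ∈ S := hS ▸ h.mem_frontier hK hv
  obtain ⟨f, ⟨U, hU, hqU, hfU, -, hUS⟩, hpc⟩ := hf q hq
  have hval : ⟪q', v⟫ = ⟪q, v⟫ := le_antisymm (h.2 _ h'.1) (h'.2 _ h.1)
  have hseg : ∀ t : ℝ, 0 ≤ t → t ≤ 1 → q + t • (q' - q) ∈ S := by
    intro t ht0 ht1
    rw [hS]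
    refine MaxPt.mem_frontier hK hv (v := v) ⟨?_, ?_⟩
    · have := hKc h.1 h'.1 (show 0 ≤ 1 - t by linarith) ht0 (by ring)
      have e : q + t • (q' - q) = (1 - t) • q + t • q' := by
        rw [smul_sub, sub_smul, one_smul]; abel
      rw [e]; exact this
    · intro x hx
      rw [inner_add_left, real_inner_smul_left, inner_sub_left, hval, sub_self, mul_zero,
        add_zero]
      exact h.2 x hx
  have hcont : Tendsto (fun t : ℝ => q + t • (q' - q)) (𝓝 0) (𝓝 q) := by
    have : Continuous (fun t : ℝ => q + t • (q' - q)) := by fun_prop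
    have h4 := this.tendsto 0
    rwa [zero_smul, add_zero] at h4
  obtain ⟨δ, hδ, hδU⟩ := Metric.eventually_nhds_iff.mp (hcont.eventually (hU.mem_nhds hqU))
  have hδ' : 0 < min δ 1 := lt_min hδ one_pos
  have hinU : ∀ t : ℝ, 0 < t → t < min δ 1 → q + t • (q' - q) ∈ U := by
    intro t ht0 ht1
    refine hδU ?_
    rw [Real.dist_eq, sub_zero, abs_of_pos ht0]
    exact ht1.trans_le (min_le_left _ _)
  obtain ⟨v1, v2⟩ := vanish_seg f U hU q (q' - q) hqU hfU (min δ 1) hδ' hinU (by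
    intro t ht0 ht1
    exact (hUS _ (hinU t ht0 ht1)).mp (hseg t ht0.le (ht1.le.trans (min_le_right _ _))))
  exact hpc (q' - q) v1 hw v2

theorem t_MAX : S_MAX := by
  intro S K hKc hK hKi hS hf
  have hKne : K.Nonempty := hKi.mono interior_subset
  have hex : ∀ v : E3, ∃ q, MaxPt K v q := by
    intro v
    obtain ⟨q, hq, hmax⟩ := hK.exists_isMaxOn hKne
      (f := fun x => ⟪x, v⟫) (by fun_prop)
    exact ⟨q, hq, fun x hx => hmax hx⟩
  choose X hX using hex
  have huniq : ∀ v, v ≠ 0 → ∀ q, MaxPt K v q → q = X v := fun v hv q hq =>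
    MaxPt.unique hKc hK hS hf hv hq (hX v)
  have hXS : ∀ v, v ≠ 0 → X v ∈ S := fun v hv => hS ▸ (hX v).mem_frontier hK hv
  have hstrict : ∀ v, v ≠ 0 → ∀ x ∈ K, x ≠ X v → ⟪x, v⟫ < ⟪X v, v⟫ := by
    intro v hv x hx hne
    refine lt_of_le_of_ne ((hX v).2 x hx) fun he => hne ?_
    exact huniq v hv x ⟨hx, fun y hy => he ▸ (hX v).2 y hy⟩
  have hlag : ∀ v, v ≠ 0 → ∀ f, IsDefFn S (X v) f → ∃ μ : ℝ, μ ≠ 0 ∧
      ∀ w, fderiv ℝ f (X v) w = μ * ⟪v, w⟫ := by
    intro v hv f hfd
    obtain ⟨U, hU, hqU, hfU, hne, hUS⟩ := hfd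
    have hcd : ContDiffAt ℝ ∞ f (X v) := hfU.contDiffAt (hU.mem_nhds hqU)
    have hsf : HasStrictFDerivAt f (fderiv ℝ f (X v)) (X v) :=
      hcd.hasStrictFDerivAt (by simp)
    have hφ : HasStrictFDerivAt (fun x : E3 => ⟪v, x⟫) (innerSL ℝ v) (X v) :=
      (innerSL ℝ v).hasStrictFDerivAt
    have hf0 : f (X v) = 0 := (hUS _ hqU).mp (hXS v hv)
    have hext : IsLocalExtrOn (fun x : E3 => ⟪v, x⟫) {x | f x = f (X v)} (X v) := by
      right
      have hUn : U ∈ 𝓝[{x | f x = f (X v)}] (X v) := mem_nhdsWithin_of_mem_nhds (hU.mem_nhds hqU)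
      filter_upwards [hUn, self_mem_nhdsWithin] with x hxU hx
      have hx' : f x = f (X v) := hx
      rw [hf0] at hx'
      have hxS : x ∈ S := (hUS x hxU).mpr hx'
      have hxK : x ∈ K := by
        rw [hS] at hxS
        exact hK.isClosed.frontier_subset hxS
      show ⟪v, x⟫ ≤ ⟪v, X v⟫
      rw [real_inner_comm, real_inner_comm (X v)]
      exact (hX v).2 x hxK
    obtain ⟨α, β, hαβ, hlin⟩ := hext.exists_multipliers_of_hasStrictFDerivAt_1d hsf hφ
    have hlin' : ∀ w, α * fderiv ℝ f (X v) w + β * ⟪v, w⟫ = 0 := by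
      intro w
      have := congrArg (fun L : E3 →L[ℝ] ℝ => L w) hlin
      simpa using this
    have hα : α ≠ 0 := by
      rintro rfl
      have hβ : β ≠ 0 := by
        rintro rfl
        exact hαβ rfl
      have := hlin' v
      rw [zero_mul, zero_add, real_inner_self_eq_norm_sq] at this
      have h2 : ‖v‖ ≠ 0 := norm_ne_zero_iff.mpr hv
      exact mul_ne_zero hβ (pow_ne_zero 2 h2) this
    have hμ : ∀ w, fderiv ℝ f (X v) w = -(β / α) * ⟪v, w⟫ := by
      intro w
      have := hlin' w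
      field_simp
      linarith
    refine ⟨-(β / α), ?_, hμ⟩
    intro h0
    apply hne
    ext w
    rw [hμ w, h0, zero_mul]
    rfl
  refine ⟨X, ?_, hXS, hstrict, ?_, ?_, ?_, hlag⟩
  · intro v₀ hv₀
    have hv₀' : v₀ ≠ 0 := hv₀
    refine ContinuousAt.continuousWithinAt ?_
    refine hK.tendsto_nhds_of_unique_mapClusterPt (Eventually.of_forall fun v => (hX v).1) ?_
    intro x hx hcl
    refine huniq v₀ hv₀' x ⟨hx, fun y hy => ?_⟩
    obtain ⟨𝒰, h𝒰, hlim⟩ := mapClusterPt_iff_ultrafilter.mp hcl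
    have hid : Tendsto (fun v : E3 => v) 𝒰 (𝓝 v₀) := h𝒰
    have l1 : Tendsto (fun v : E3 => ⟪y, v⟫) 𝒰 (𝓝 ⟪y, v₀⟫) := tendsto_const_nhds.inner hid
    have l2 : Tendsto (fun v : E3 => ⟪X v, v⟫) 𝒰 (𝓝 ⟪x, v₀⟫) := hlim.inner hid
    exact le_of_tendsto_of_tendsto' l1 l2 fun v => (hX v).2 y hy
  · intro c hc v hv
    symm
    refine huniq (c • v) (smul_ne_zero hc.ne' hv) (X v) ⟨(hX v).1, fun x hx => ?_⟩
    rw [real_inner_smul_right, real_inner_smul_right]
    exact mul_le_mul_of_nonneg_left ((hX v).2 x hx) hc.le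
  · intro q hq
    rw [hS] at hq
    have hqK : q ∈ K := hK.isClosed.frontier_subset hq
    have hqi : q ∉ interior K := hq.2
    obtain ⟨F, hF⟩ := geometric_hahn_banach_open_point hKc.interior isOpen_interior hqi
    set v := (InnerProductSpace.toDual ℝ E3).symm F with hv
    have hFv : ∀ x, F x = ⟪x, v⟫ := by
      intro x
      rw [real_inner_comm, hv, InnerProductSpace.toDual_symm_apply]
    obtain ⟨y, hy⟩ := hKi
    have hv0 : v ≠ 0 := by
      intro h0
      have := hF y hy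
      rw [hFv, hFv, h0, inner_zero_right, inner_zero_right] at this
      exact lt_irrefl _ this
    have hle : ∀ x ∈ K, ⟪x, v⟫ ≤ ⟪q, v⟫ := by
      intro x hx
      have hxc : x ∈ closure (interior K) := by
        rw [hKc.closure_interior_eq_closure_of_nonempty_interior ⟨y, hy⟩]
        exact subset_closure hx
      have hcl : IsClosed {x : E3 | ⟪x, v⟫ ≤ ⟪q, v⟫} :=
        isClosed_le (by fun_prop) continuous_const
      refine closure_minimal (fun z hz => ?_) hcl hxc
      have := hF z hz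
      rw [hFv, hFv] at this
      exact this.le
    refine ⟨‖v‖⁻¹ • v, ?_, ?_⟩
    · rw [norm_smul, norm_inv, norm_norm, inv_mul_cancel₀ (norm_ne_zero_iff.mpr hv0)]
    · symm
      have hc : 0 < ‖v‖⁻¹ := inv_pos.mpr (norm_pos_iff.mpr hv0)
      refine huniq _ (smul_ne_zero hc.ne' hv0) q ⟨hqK, fun x hx => ?_⟩
      rw [real_inner_smul_right, real_inner_smul_right]
      exact mul_le_mul_of_nonneg_left (hle x hx) hc.le
  · intro v v' hv hv' hXX
    have hv0 : v ≠ 0 := by
      rintro rfl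
      rw [norm_zero] at hv
      exact zero_ne_one hv
    have hv0' : v' ≠ 0 := by
      rintro rfl
      rw [norm_zero] at hv'
      exact zero_ne_one hv'
    obtain ⟨f, hfd, -⟩ := hf (X v) (hXS v hv0)
    obtain ⟨μ, hμ0, hμ⟩ := hlag v hv0 f hfd
    obtain ⟨μ', hμ0', hμ'⟩ := hlag v' hv0' f (hXX ▸ hfd)
    rw [← hXX] at hμ'
    have hrel : ∀ w, μ * ⟪v, w⟫ = μ' * ⟪v', w⟫ := fun w => (hμ w).symm.trans (hμ' w)
    have hvv : μ • v = μ' • v' := by
      refine ext_inner_right ℝ fun w => ?_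
      rw [real_inner_smul_left, real_inner_smul_left]
      exact hrel w
    have hv1 : v = (μ' / μ) • v' := by
      rw [div_eq_inv_mul, mul_smul, ← hvv, smul_smul, inv_mul_cancel₀ hμ0, one_smul]
    have habs : |μ' / μ| = 1 := by
      have := congrArg norm hv1
      rw [norm_smul, hv, hv', mul_one, Real.norm_eq_abs] at this
      exact this.symm
    rcases (abs_eq zero_le_one).mp habs with h1 | h1
    · rw [h1, one_smul] at hv1
      exact hv1
    · exfalso
      rw [h1, neg_one_smul] at hv1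
      obtain ⟨y, hy⟩ := hKi
      have hcst : ∀ x ∈ K, ⟪x, v'⟫ = ⟪X v, v'⟫ := by
        intro x hx
        refine le_antisymm ?_ ?_
        · rw [hXX]; exact (hX v').2 x hx
        · have := (hX v).2 x hx
          rw [hv1, inner_neg_right, inner_neg_right] at this
          rw [← hv1] at this
          linarith
      have h1 : Tendsto (fun t : ℝ => y + t • v') (𝓝[>] 0) (𝓝 y) := by
        have : Continuous (fun t : ℝ => y + t • v') := by fun_prop
        have h4 := this.tendsto 0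
        rw [zero_smul, add_zero] at h4
        exact h4.mono_left nhdsWithin_le_nhds
      have h2 := h1.eventually (mem_interior_iff_mem_nhds.mp hy)
      obtain ⟨t, ht1, ht2⟩ := (h2.and self_mem_nhdsWithin).exists
      have h3 := hcst _ ht1
      have h4 := hcst y (interior_subset hy)
      rw [inner_add_left, real_inner_smul_left, real_inner_self_eq_norm_sq, hv', h4] at h3
      have ht : 0 < t := ht2
      nlinarith

end Pool.Agent.K1H41.OV
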