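import Pool.Agent.K1H41.OV.Stm

/-! Project OV, piece MP: the mountain pass lemma in the closed disc. -/

set_option autoImplicit false

namespace Pool.Agent.K1H41.OV

open scoped Topology

namespace MP

/-- nearby points of the sublevel set are joined by segments -/
theorem near {φ : ℂ → ℝ} {ℓ : ℝ} (hφ : ContinuousOn φ DD) {z : ℂ} (hz : z ∈ DD)
    (hzℓ : φ z < ℓ) :
    ∃ δ : ℝ, 0 < δ ∧ ∀ z' ∈ DD, dist z' z < δ → JoinedIn {x | x ∈ DD ∧ φ x < ℓ} z z' := by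
  have h1 : {x | φ x < ℓ} ∈ 𝓝[DD] z := (hφ z hz) (Iio_mem_nhds hzℓ)
  obtain ⟨δ, hδ, h2⟩ := Metric.mem_nhdsWithin_iff.1 h1
  refine ⟨δ, hδ, fun z' hz' hd => ?_⟩
  apply JoinedIn.of_segment_subset
  have hconv : Convex ℝ (Metric.ball z δ ∩ DD) := (convex_ball z δ).inter (convex_closedBall _ _)
  have h3 : segment ℝ z z' ⊆ Metric.ball z δ ∩ DD :=
    hconv.segment_subset ⟨Metric.mem_ball_self hδ, hz⟩ ⟨hd, hz'⟩
  intro x hx
  exact ⟨(h3 hx).2, h2 (h3 hx)⟩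

end MP

open MP in
theorem t_MP : S_MP := by
  intro φ a b ℓ hφ ha hb haℓ hbℓ hJ hnJ
  by_contra hcon
  push Not at hcon
  obtain ⟨L, hL⟩ : ∃ L : Set ℂ, L = {x | x ∈ DD ∧ φ x < ℓ} := ⟨_, rfl⟩
  have hmemL : ∀ x, x ∈ L ↔ x ∈ DD ∧ φ x < ℓ := fun x => by rw [hL]; exact Iff.rfl
  rw [← hL] at hnJ
  obtain ⟨C, hC⟩ : ∃ C : Set ℂ, C = {z | JoinedIn L a z} := ⟨_, rfl⟩
  have hmemC : ∀ z, z ∈ C ↔ JoinedIn L a z := fun z => by rw [hC]; exact Iff.rfl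
  have hCL : C ⊆ L := fun z hz => ((hmemC z).1 hz).target_mem
  have haC : a ∈ C := (hmemC a).2 (JoinedIn.refl ((hmemL a).2 ⟨ha, haℓ⟩))
  have hbC : b ∉ C := fun h => hnJ ((hmemC b).1 h)
  have htr : ∀ x y, x ∈ C → JoinedIn L x y → y ∈ C := fun x y hx hxy =>
    (hmemC y).2 (((hmemC x).1 hx).trans hxy)
  have hnear : ∀ z ∈ L, ∃ δ : ℝ, 0 < δ ∧ ∀ z' ∈ DD, dist z' z < δ → JoinedIn L z z' := by
    intro z hz
    rw [hmemL] at hz
    rw [hL]
    exact near hφ hz.1 hz.2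
  obtain ⟨X, hX⟩ : ∃ X : Set ℂ, X = DD ∩ φ ⁻¹' Set.Iic ℓ := ⟨_, rfl⟩
  have hXc : IsClosed X := by
    rw [hX]
    exact hφ.preimage_isClosed_of_isClosed Metric.isClosed_closedBall isClosed_Iic
  have hmemX : ∀ x, x ∈ X ↔ x ∈ DD ∧ φ x ≤ ℓ := fun x => by rw [hX]; exact Iff.rfl
  have hLX : L ⊆ X := fun x hx => (hmemX x).2 ⟨((hmemL x).1 hx).1, ((hmemL x).1 hx).2.le⟩
  have hXcomp : IsCompact X :=
    (isCompact_closedBall (0 : ℂ) 1).of_isClosed_subset hXc fun x hx => ((hmemX x).1 hx).1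
  obtain ⟨Cb, hCb⟩ : ∃ Cb : Set ℂ, Cb = closure C := ⟨_, rfl⟩
  have hCbX : Cb ⊆ X := by
    rw [hCb]
    exact closure_minimal (hCL.trans hLX) hXc
  -- claim A
  have hA : ∀ z ∈ Cb, φ z < ℓ → z ∈ C := by
    intro z hz hzℓ
    have hzD := ((hmemX z).1 (hCbX hz)).1
    obtain ⟨δ, hδ, h1⟩ := hnear z ((hmemL z).2 ⟨hzD, hzℓ⟩)
    rw [hCb] at hz
    obtain ⟨y, hy, hyd⟩ := Metric.mem_closure_iff.1 hz δ hδ
    rw [dist_comm] at hyd
    exact htr y z hy (h1 y ((hmemL y).1 (hCL hy)).1 hyd).symm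
  -- claim B
  have hB : ∀ z ∈ Cb, ∃ δ : ℝ, 0 < δ ∧ ∀ z' ∈ X, dist z' z < δ → z' ∈ Cb := by
    intro z hz
    have hzX := (hmemX z).1 (hCbX hz)
    rcases lt_or_eq_of_le hzX.2 with hzℓ | hzℓ
    · obtain ⟨δ, hδ, h1⟩ := hnear z ((hmemL z).2 ⟨hzX.1, hzℓ⟩)
      refine ⟨δ, hδ, fun z' hz' hd => ?_⟩
      rw [hCb]
      exact subset_closure (htr z z' (hA z hz hzℓ) (h1 z' ((hmemX z').1 hz').1 hd))
    · obtain ⟨N, hN1, hN2, -, hN4⟩ := hcon z hzX.1 hzℓ 1 one_pos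
      obtain ⟨δ, hδ, h2⟩ := Metric.mem_nhdsWithin_iff.1 hN2
      have hcl := hz
      rw [hCb] at hcl
      obtain ⟨y, hy, hyd⟩ := Metric.mem_closure_iff.1 hcl δ hδ
      rw [dist_comm] at hyd
      have hyL := (hmemL y).1 (hCL hy)
      have hyN : y ∈ N := h2 ⟨hyd, hyL.1⟩
      have hNC : ∀ x ∈ N, φ x < ℓ → x ∈ C := by
        intro x hx hxℓ
        refine htr y x hy ((hN4 y hyN hyL.2 x hx hxℓ).mono ?_)
        rintro w ⟨hw1, hw2⟩
        exact (hmemL w).2 ⟨(hN1 hw1).2, hw2⟩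
      refine ⟨δ, hδ, fun z' hz' hd => ?_⟩
      have hz'X := (hmemX z').1 hz'
      rcases lt_or_eq_of_le hz'X.2 with h3 | h3
      · rw [hCb]
        exact subset_closure (hNC z' (h2 ⟨hd, hz'X.1⟩) h3)
      · rw [hCb, Metric.mem_closure_iff]
        intro ε hε
        obtain ⟨N', hN1', -, ⟨x, hxN', hxℓ⟩, -⟩ :=
          hcon z' hz'X.1 h3 (min ε (δ - dist z' z)) (lt_min hε (by linarith))
        have hx := hN1' hxN'
        have hxd : dist x z' < min ε (δ - dist z' z) := hx.1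
        refine ⟨x, hNC x (h2 ⟨?_, hx.2⟩) hxℓ, ?_⟩
        · have h4 := dist_triangle x z' z
          have h5 := hxd.trans_le (min_le_right _ _)
          rw [Metric.mem_ball]
          linarith
        · rw [dist_comm]
          exact hxd.trans_le (min_le_left _ _)
  -- the two compact sets
  have hK1 : IsCompact Cb := hXcomp.of_isClosed_subset (by rw [hCb]; exact isClosed_closure) hCbX
  have hK2c : IsClosed (X \ Cb) := by
    apply isClosed_of_closure_subset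
    intro y hy
    have hyX : y ∈ X := by
      have h1 : closure (X \ Cb) ⊆ X := closure_minimal Set.diff_subset hXc
      exact h1 hy
    refine ⟨hyX, fun hyC => ?_⟩
    obtain ⟨δ, hδ, h1⟩ := hB y hyC
    obtain ⟨x, hx, hxd⟩ := Metric.mem_closure_iff.1 hy δ hδ
    rw [dist_comm] at hxd
    exact hx.2 (h1 x hx.1 hxd)
  have hK2 : IsCompact (X \ Cb) := hXcomp.of_isClosed_subset hK2c Set.diff_subset
  have hsep : SeparatedNhds Cb (X \ Cb) :=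
    SeparatedNhds.of_isCompact_isCompact hK1 hK2 Set.disjoint_sdiff_right
  obtain ⟨O1, O2, hO1, hO2, h1, h2, hdis⟩ := hsep
  have hbK2 : b ∈ X \ Cb := by
    refine ⟨(hmemX b).2 ⟨hb, hbℓ.le⟩, fun h => hbC (hA b h hbℓ)⟩
  have haK1 : a ∈ Cb := by
    rw [hCb]
    exact subset_closure haC
  -- the gap
  have hK3 : IsCompact (DD \ (O1 ∪ O2)) :=
    (isCompact_closedBall (0 : ℂ) 1).diff (hO1.union hO2)
  have hgap : ∃ η : ℝ, 0 < η ∧ ∀ x ∈ DD \ (O1 ∪ O2), ℓ + η ≤ φ x := by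
    rcases (DD \ (O1 ∪ O2)).eq_empty_or_nonempty with h3 | h3
    · refine ⟨1, one_pos, fun x hx => ?_⟩
      rw [h3] at hx
      exact absurd hx (Set.notMem_empty x)
    · obtain ⟨x₀, hx₀, hmin⟩ := hK3.exists_isMinOn h3 (hφ.mono Set.diff_subset)
      have h4 : ℓ < φ x₀ := by
        by_contra h5
        push Not at h5
        have hx₀X : x₀ ∈ X := (hmemX x₀).2 ⟨hx₀.1, h5⟩
        apply hx₀.2
        by_cases h6 : x₀ ∈ Cb
        · exact Or.inl (h1 h6)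
        · exact Or.inr (h2 ⟨hx₀X, h6⟩)
      refine ⟨φ x₀ - ℓ, by linarith, fun x hx => ?_⟩
      have := hmin hx
      simp only [Set.mem_setOf_eq] at this
      linarith
  obtain ⟨η, hη, hgap⟩ := hgap
  obtain ⟨γ, hγ⟩ := hJ (ℓ + η) (by linarith)
  have hrange : Set.range γ ⊆ O1 ∪ O2 := by
    rintro _ ⟨t, rfl⟩
    by_contra h3
    have h4 := hγ t
    have h5 := hgap (γ t) ⟨h4.1, h3⟩
    have h6 : φ (γ t) < ℓ + η := h4.2
    linarith
  have hpre : IsPreconnected (Set.range γ) := isPreconnected_range γ.continuous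
  obtain ⟨x, -, hx1, hx2⟩ := hpre O1 O2 hO1 hO2 hrange ⟨a, ⟨0, γ.source⟩, h1 haK1⟩
    ⟨b, ⟨1, γ.target⟩, h2 hbK2⟩
  exact Set.disjoint_left.1 hdis hx1 hx2

end Pool.Agent.K1H41.OV
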