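import Pool.Agent.K1H41.OV.Stm

/-!
# Project OV, piece OPN: openness statements
-/

set_option autoImplicit false
set_option maxSynthPendingDepth 3

namespace Pool.Agent.K1H41.OV

open scoped RealInnerProductSpace Topology ContDiff
open Filter

/-- projection to the orthogonal complement of a unit vector -/
private noncomputable def opnP (v w : E3) : E3 := w - ⟪v, w⟫ • v

private lemma opnP_orth {v : E3} (hv : ‖v‖ = 1) (w : E3) : ⟪v, opnP v w⟫ = 0 := by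
  unfold opnP
  rw [inner_sub_right, inner_smul_right, real_inner_self_eq_norm_sq, hv]
  ring

private lemma opnP_self {v w : E3} (h : ⟪v, w⟫ = 0) : opnP v w = w := by
  unfold opnP
  rw [h, zero_smul, sub_zero]

private lemma opnP_tendsto {ι : Type*} {l : Filter ι} {u : ι → E3} {v : E3} (hu : Tendsto u l (𝓝 v))
    (w : E3) : Tendsto (fun i => opnP (u i) w) l (𝓝 (opnP v w)) := by
  unfold opnP
  exact tendsto_const_nhds.sub ((hu.inner tendsto_const_nhds).smul hu)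

private lemma opn_cd {h : E3 → ℝ} (H : SF h) {v : E3} (hv : v ≠ 0) : ContDiffAt ℝ ∞ h v :=
  H.smooth.contDiffAt (isOpen_compl_singleton.mem_nhds hv)

private lemma opn_c1 {h : E3 → ℝ} (H : SF h) {v : E3} (hv : v ≠ 0) :
    ContDiffAt ℝ ∞ (fderiv ℝ h) v := (opn_cd H hv).fderiv_right (by simp)

private lemma opn_c2 {h : E3 → ℝ} (H : SF h) {v : E3} (hv : v ≠ 0) :
    ContDiffAt ℝ ∞ (fderiv ℝ (fderiv ℝ h)) v := (opn_c1 H hv).fderiv_right (by simp)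

private lemma opn_c3 {h : E3 → ℝ} (H : SF h) {v : E3} (hv : v ≠ 0) :
    ContDiffAt ℝ ∞ (fderiv ℝ (fderiv ℝ (fderiv ℝ h))) v := (opn_c2 H hv).fderiv_right (by simp)

private lemma opn_app {F G : Type*} [NormedAddCommGroup F] [NormedSpace ℝ F]
    [NormedAddCommGroup G] [NormedSpace ℝ G] {ι : Type*} {l : Filter ι} {A : ι → F →L[ℝ] G}
    {A0 : F →L[ℝ] G} {x : ι → F} {x0 : F} (hA : Tendsto A l (𝓝 A0)) (hx : Tendsto x l (𝓝 x0)) :
    Tendsto (fun i => A i (x i)) l (𝓝 (A0 x0)) := by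
  have h1 : Continuous (fun p : (F →L[ℝ] G) × F => p.1 p.2) := isBoundedBilinearMap_apply.continuous
  exact (h1.tendsto (A0, x0)).comp (hA.prodMk_nhds hx)

private lemma opn_t1 {h : E3 → ℝ} (H : SF h) {v : E3} (hv : v ≠ 0) {ι : Type*} {l : Filter ι}
    {u a : ι → E3} {a0 : E3} (hu : Tendsto u l (𝓝 v)) (ha : Tendsto a l (𝓝 a0)) :
    Tendsto (fun i => d1 h (u i) (a i)) l (𝓝 (d1 h v a0)) := by
  unfold d1
  have h1 : Tendsto (fun i => fderiv ℝ h (u i)) l (𝓝 (fderiv ℝ h v)) :=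
    (opn_c1 H hv).continuousAt.tendsto.comp hu
  exact opn_app h1 ha

private lemma opn_t2 {h : E3 → ℝ} (H : SF h) {v : E3} (hv : v ≠ 0) {ι : Type*} {l : Filter ι}
    {u a b : ι → E3} {a0 b0 : E3} (hu : Tendsto u l (𝓝 v)) (ha : Tendsto a l (𝓝 a0))
    (hb : Tendsto b l (𝓝 b0)) :
    Tendsto (fun i => d2 h (u i) (a i) (b i)) l (𝓝 (d2 h v a0 b0)) := by
  unfold d2
  have h1 : Tendsto (fun i => fderiv ℝ (fderiv ℝ h) (u i)) l (𝓝 (fderiv ℝ (fderiv ℝ h) v)) :=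
    (opn_c2 H hv).continuousAt.tendsto.comp hu
  exact opn_app (opn_app h1 ha) hb

private lemma opn_t3 {h : E3 → ℝ} (H : SF h) {v : E3} (hv : v ≠ 0) {ι : Type*} {l : Filter ι}
    {u a b c : ι → E3} {a0 b0 c0 : E3} (hu : Tendsto u l (𝓝 v)) (ha : Tendsto a l (𝓝 a0))
    (hb : Tendsto b l (𝓝 b0)) (hc : Tendsto c l (𝓝 c0)) :
    Tendsto (fun i => d3 h (u i) (a i) (b i) (c i)) l (𝓝 (d3 h v a0 b0 c0)) := by
  unfold d3
  have h1 : Tendsto (fun i => fderiv ℝ (fderiv ℝ (fderiv ℝ h)) (u i)) l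
      (𝓝 (fderiv ℝ (fderiv ℝ (fderiv ℝ h)) v)) := (opn_c3 H hv).continuousAt.tendsto.comp hu
  exact opn_app (opn_app (opn_app h1 ha) hb) hc

private lemma opn_d2_smul (h : E3 → ℝ) (v w : E3) (c : ℝ) :
    d2 h v (c • w) (c • w) = c ^ 2 * d2 h v w w := by
  unfold d2
  rw [map_smul, map_smul, smul_apply, smul_eq_mul, smul_eq_mul]
  ring

/-- umbilic points by an identity -/
private lemma opn_umb {h : E3 → ℝ} {v : E3} (hn : ¬ Umb h v) : ∃ w₁ w₂ : E3, ⟪v, w₁⟫ = 0 ∧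
    ⟪v, w₂⟫ = 0 ∧ d2 h v w₁ w₁ * ‖w₂‖ ^ 2 - d2 h v w₂ w₂ * ‖w₁‖ ^ 2 ≠ 0 := by
  by_contra hc
  push Not at hc
  apply hn
  by_cases hw : ∃ w₂ : E3, ⟪v, w₂⟫ = 0 ∧ w₂ ≠ 0
  · obtain ⟨w₂, h0, h1⟩ := hw
    refine ⟨d2 h v w₂ w₂ / ‖w₂‖ ^ 2, fun w hw => ?_⟩
    have h2 : ‖w₂‖ ^ 2 ≠ 0 := by
      have := norm_pos_iff.2 h1
      positivity
    have h3 := hc w w₂ hw h0
    field_simp
    linarith
  · push Not at hw
    refine ⟨0, fun w hw' => ?_⟩
    have := hw w hw'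
    subst this
    unfold d2
    simp

private lemma opn_dir {h : E3 → ℝ} {σ : ℝ} {v e : E3} (hd : Dir h σ v e) (u : E3)
    (hu : ⟪v, u⟫ = 0) : σ * d2 h v e e * ‖u‖ ^ 2 ≤ σ * d2 h v u u := by
  rcases eq_or_ne u 0 with rfl | h0
  · unfold d2
    simp
  · have hn : 0 < ‖u‖ := norm_pos_iff.2 h0
    have h1 := hd.2.2 (‖u‖⁻¹ • u) (by
      rw [norm_smul, norm_inv, norm_norm]
      field_simp) (by rw [inner_smul_right, hu, mul_zero])
    rw [opn_d2_smul] at h1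
    have h2 : σ * (‖u‖⁻¹ ^ 2 * d2 h v u u) * ‖u‖ ^ 2 = σ * d2 h v u u := by
      field_simp
    rw [← h2]
    exact mul_le_mul_of_nonneg_right h1 (by positivity)

theorem t_OPN : S_OPN := by
  intro h v H hv
  have hv0 : v ≠ 0 := by
    intro h0
    rw [h0, norm_zero] at hv
    exact zero_ne_one hv
  have hid : Tendsto (fun x : E3 => x) (𝓝 v) (𝓝 v) := tendsto_id
  refine ⟨fun hn => ?_, fun p hn => ?_, fun σ hσ hnu hd => ?_⟩
  · obtain ⟨w₁, w₂, o1, o2, hne⟩ := opn_umb hn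
    have t1 := opnP_tendsto hid w₁
    have t2 := opnP_tendsto hid w₂
    rw [opnP_self o1] at t1
    rw [opnP_self o2] at t2
    have hG : Tendsto (fun x => d2 h x (opnP x w₁) (opnP x w₁) * ‖opnP x w₂‖ ^ 2 -
        d2 h x (opnP x w₂) (opnP x w₂) * ‖opnP x w₁‖ ^ 2) (𝓝 v)
        (𝓝 (d2 h v w₁ w₁ * ‖w₂‖ ^ 2 - d2 h v w₂ w₂ * ‖w₁‖ ^ 2)) :=
      ((opn_t2 H hv0 hid t1 t1).mul (t2.norm.pow 2)).sub
        ((opn_t2 H hv0 hid t2 t2).mul (t1.norm.pow 2))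
    have hev := hG.eventually_ne hne
    obtain ⟨O, hO1, hO2, hO3⟩ := eventually_nhds_iff.1 hev
    refine ⟨O, hO2, hO3, fun v' hv' hv1 => ?_⟩
    rintro ⟨r, hr⟩
    apply hO1 v' hv'
    rw [hr _ (opnP_orth hv1 w₁), hr _ (opnP_orth hv1 w₂)]
    ring
  · have hex : ∃ w, ⟪v, w⟫ = 0 ∧ d1 h v w - ⟪p, w⟫ ≠ 0 := by
      by_contra hc
      push Not at hc
      exact hn ⟨hv, fun w hw => sub_eq_zero.1 (hc w hw)⟩
    obtain ⟨w, o, hne⟩ := hex
    have t := opnP_tendsto hid w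
    rw [opnP_self o] at t
    have hG : Tendsto (fun x => d1 h x (opnP x w) - ⟪p, opnP x w⟫) (𝓝 v)
        (𝓝 (d1 h v w - ⟪p, w⟫)) :=
      (opn_t1 H hv0 hid t).sub (tendsto_const_nhds.inner t)
    have hev := hG.eventually_ne hne
    obtain ⟨O, hO1, hO2, hO3⟩ := eventually_nhds_iff.1 hev
    refine ⟨O, hO2, hO3, fun v' hv' hcr => ?_⟩
    apply hO1 v' hv'
    rw [hcr.2 _ (opnP_orth hcr.1 w), sub_self]
  · by_contra hc
    push Not at hc
    have hseq : ∀ n : ℕ, ∃ v' e : E3, ‖v' - v‖ < 1 / ((n : ℝ) + 1) ∧ ‖v'‖ = 1 ∧ Dir h σ v' e ∧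
        d3 h v' e e e = 0 := by
      intro n
      have hp : (0 : ℝ) < 1 / ((n : ℝ) + 1) := by positivity
      obtain ⟨v', h1, h2, e, h3, h4⟩ := hc (Metric.ball v (1 / ((n : ℝ) + 1))) Metric.isOpen_ball
        (Metric.mem_ball_self hp)
      exact ⟨v', e, by rwa [Metric.mem_ball, dist_eq_norm] at h1, h2, h3, h4⟩
    choose V e hV1 hV2 hV3 hV4 using hseq
    have hVt : Tendsto V atTop (𝓝 v) := by
      rw [tendsto_iff_norm_sub_tendsto_zero]
      exact squeeze_zero (fun n => norm_nonneg _) (fun n => (hV1 n).le)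
        tendsto_one_div_add_atTop_nhds_zero_nat
    have hsph : ∀ n, e n ∈ Metric.sphere (0 : E3) 1 := fun n => by
      rw [mem_sphere_zero_iff_norm]; exact (hV3 n).1
    obtain ⟨e0, he0, φ, hφ, hlim⟩ := (isCompact_sphere (0 : E3) 1).tendsto_subseq hsph
    have hVφ : Tendsto (fun n => V (φ n)) atTop (𝓝 v) := hVt.comp hφ.tendsto_atTop
    have hlim' : Tendsto (fun n => e (φ n)) atTop (𝓝 e0) := hlim
    have hdir : Dir h σ v e0 := by
      refine ⟨mem_sphere_zero_iff_norm.1 he0, ?_, fun w hw1 hw2 => ?_⟩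
      · have h1 : Tendsto (fun n => ⟪V (φ n), e (φ n)⟫) atTop (𝓝 ⟪v, e0⟫) := hVφ.inner hlim'
        have h2 : ∀ n, ⟪V (φ n), e (φ n)⟫ = 0 := fun n => (hV3 (φ n)).2.1
        simp_rw [h2] at h1
        exact (tendsto_nhds_unique h1 tendsto_const_nhds)
      · have t := opnP_tendsto hVφ w
        rw [opnP_self hw2] at t
        have l1 : Tendsto (fun n => σ * d2 h (V (φ n)) (e (φ n)) (e (φ n)) *
            ‖opnP (V (φ n)) w‖ ^ 2) atTop (𝓝 (σ * d2 h v e0 e0 * ‖w‖ ^ 2)) :=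
          ((opn_t2 H hv0 hVφ hlim' hlim').const_mul σ).mul (t.norm.pow 2)
        have l2 : Tendsto (fun n => σ * d2 h (V (φ n)) (opnP (V (φ n)) w) (opnP (V (φ n)) w))
            atTop (𝓝 (σ * d2 h v w w)) := (opn_t2 H hv0 hVφ t t).const_mul σ
        have h3 := le_of_tendsto_of_tendsto' l1 l2 (fun n =>
          opn_dir (hV3 (φ n)) _ (opnP_orth (hV2 (φ n)) w))
        rwa [hw1, one_pow, mul_one] at h3
    apply hd e0 hdir
    have l3 := opn_t3 H hv0 hVφ hlim' hlim' hlim'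
    have h4 : ∀ n, d3 h (V (φ n)) (e (φ n)) (e (φ n)) (e (φ n)) = 0 := fun n => hV4 (φ n)
    simp_rw [h4] at l3
    exact (tendsto_nhds_unique l3 tendsto_const_nhds)

end Pool.Agent.K1H41.OV
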