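import Pool.Agent.K1H41.OV.Stm

set_option autoImplicit false

namespace Pool.Agent.K1H41.OV

open scoped RealInnerProductSpace Topology ContDiff

theorem t_PL (hCR : S_CR) (hMP : S_MP) (hLO : S_LO) (hHI : S_HI) : S_PL := by
  intro φ r₁ r₂ a c hr hφ hbd ha hc hmin hmax hreg
  obtain ⟨η₁, hη₁, hlo⟩ := hLO φ r₁ a hφ ha hmin
  obtain ⟨η₂, hη₂, hhi⟩ := hHI φ r₁ r₂ c hr hφ hbd hc hmax
  set L : Set ℝ := {ℓ | JoinedIn {z | z ∈ DD ∧ φ z < ℓ} 1 (-1)} with hL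
  have hmono : ∀ ℓ ∈ L, ∀ ℓ', ℓ ≤ ℓ' → ℓ' ∈ L := by
    intro ℓ hℓ ℓ' h
    exact JoinedIn.mono hℓ (fun z hz => ⟨hz.1, lt_of_lt_of_le hz.2 h⟩)
  have hbelow : ∀ ℓ ∈ L, r₁ + η₁ ≤ ℓ := by
    intro ℓ hℓ
    by_contra h
    push Not at h
    exact hlo (hmono ℓ hℓ _ h.le)
  have hbdd : BddBelow L := ⟨r₁ + η₁, hbelow⟩
  have hne : L.Nonempty := ⟨_, hhi⟩
  set ℓ := sInf L with hℓ
  have hℓ1 : r₁ < ℓ := lt_of_lt_of_le (by linarith) (le_csInf hne hbelow)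
  have hℓ2 : ℓ < r₂ := lt_of_le_of_lt (csInf_le hbdd hhi) (by linarith)
  -- joined above
  have habove : ∀ ℓ', ℓ < ℓ' → JoinedIn {z | z ∈ DD ∧ φ z < ℓ'} 1 (-1) := by
    intro ℓ' h
    obtain ⟨m, hm, hm'⟩ := (csInf_lt_iff hbdd hne).1 h
    exact hmono m hm ℓ' hm'.le
  -- not joined at ℓ
  have hnot : ¬ JoinedIn {z | z ∈ DD ∧ φ z < ℓ} 1 (-1) := by
    rintro ⟨γ, hγ⟩
    have hcont : Continuous (fun t => φ (γ t)) :=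
      hφ.comp_continuous γ.continuous (fun t => (hγ t).1)
    obtain ⟨t₀, -, ht₀'⟩ := isCompact_univ.exists_isMaxOn Set.univ_nonempty hcont.continuousOn
    have ht₀ : ∀ t, φ (γ t) ≤ φ (γ t₀) := fun t => ht₀' (Set.mem_univ t)
    have hmem : (φ (γ t₀) + ℓ) / 2 ∈ L := by
      refine ⟨γ, fun t => ⟨(hγ t).1, ?_⟩⟩
      have h1 := ht₀ t
      have h2 := (hγ t₀).2
      linarith
    have h3 := csInf_le hbdd hmem
    have h4 := (hγ t₀).2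
    rw [← hℓ] at h3
    linarith
  have h1D : (1 : ℂ) ∈ DD := by simp
  have hm1D : (-1 : ℂ) ∈ DD := by simp
  have hφ1 : φ 1 < ℓ := by
    rw [hbd 1 (by simp)]
    simpa using hℓ1
  have hφm1 : φ (-1) < ℓ := by
    rw [hbd (-1) (by simp)]
    simpa using hℓ1
  refine ⟨ℓ, hℓ1, hℓ2, hnot, ?_, ?_⟩
  · rintro ⟨γ, hγ⟩
    have hcont : Continuous (fun t => φ (γ t)) :=
      hφ.comp_continuous γ.continuous (fun t => (hγ t).1)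
    obtain ⟨t₀, -, ht₀'⟩ := isCompact_univ.exists_isMinOn Set.univ_nonempty hcont.continuousOn
    have ht₀ : ∀ t, φ (γ t₀) ≤ φ (γ t) := fun t => ht₀' (Set.mem_univ t)
    have h1 := habove _ (hγ t₀).2
    obtain ⟨z, hz1, hz2⟩ := hCR {z | z ∈ DD ∧ φ z < φ (γ t₀)} {z | z ∈ DD ∧ φ (γ t₀) ≤ φ z}
      (fun z hz => hz.1) (fun z hz => hz.1) h1 ⟨γ, fun t => ⟨(hγ t).1, ht₀ t⟩⟩
    exact absurd hz1.2 (not_lt.2 hz2.2)
  · obtain ⟨z, hzD, hzℓ, hzR⟩ := hMP φ 1 (-1) ℓ hφ h1D hm1D hφ1 hφm1 habove hnot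
    refine ⟨z, ?_, hzℓ, hzR⟩
    rcases (mem_closedBall_zero_iff.1 hzD).lt_or_eq with h | h
    · exact h
    · exact absurd (hreg ℓ z h hℓ1 hℓ2 hzℓ) hzR

end Pool.Agent.K1H41.OV
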