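import Pool.Agent.K1H41.OV.Stm

set_option autoImplicit false

namespace Pool.Agent.K1H41.OV

open scoped RealInnerProductSpace Topology ContDiff

theorem inner_YY {v₀ e₁ e₂ : E3} (hF : Frame v₀ e₁ e₂) (z : ℂ) :
    ⟪v₀, YY v₀ e₁ e₂ z⟫ = ‖z‖ ^ 2 - (1 - ‖z‖ ^ 2) ^ 2 := by
  have h0 : ⟪v₀, v₀⟫ = (1 : ℝ) := by rw [real_inner_self_eq_norm_sq, hF.n0]; norm_num
  simp only [YY, hat, inner_add_right, real_inner_smul_right, h0, hF.o01, hF.o02]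
  ring

theorem t_PSI (h0 : S_HOM) (h1 : S_VV) : S_PSI := by
  intro h v₀ e₁ e₂ hh hF ℓ
  obtain ⟨hn, hv2, hv3, hv4, hv5, hv6, hv7⟩ := h1 v₀ e₁ e₂ hF
  have hv₀ : v₀ ≠ 0 := by
    intro h
    have := hF.n0
    rw [h, norm_zero] at this
    exact zero_ne_one this
  obtain ⟨hE, _⟩ := h0 h hh v₀ hv₀
  have hVne : ∀ z, VV v₀ e₁ e₂ z ≠ 0 := by
    intro z hz
    have := (hn z).2.2
    rw [hz, norm_zero] at this
    exact zero_ne_one this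
  have hYne : ∀ z, YY v₀ e₁ e₂ z ≠ 0 := by
    intro z hz
    have := (hn z).2.1
    rw [hz, norm_zero] at this
    exact (hn z).1.ne this
  have hsm : ∀ v, v ≠ 0 → ContDiffAt ℝ ∞ h v := fun v hv =>
    hh.smooth.contDiffAt (isOpen_compl_singleton.mem_nhds hv)
  have hd1c : Continuous (fun v => d1 h v₀ v) := (fderiv ℝ h v₀).continuous
  have hpc : ∀ z, ContDiffAt ℝ ∞ (psi h v₀ e₁ e₂ ℓ) z := by
    intro z
    have e : psi h v₀ e₁ e₂ ℓ = fun z => h (VV v₀ e₁ e₂ z) -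
        (fderiv ℝ h v₀ (VV v₀ e₁ e₂ z) - ℓ * ⟪v₀, VV v₀ e₁ e₂ z⟫) - ℓ := rfl
    rw [e]
    have a1 : ContDiffAt ℝ ∞ (fun z => h (VV v₀ e₁ e₂ z)) z :=
      (hsm _ (hVne z)).comp z hv5.contDiffAt
    have a2 : ContDiffAt ℝ ∞ (fun z => fderiv ℝ h v₀ (VV v₀ e₁ e₂ z)) z :=
      (fderiv ℝ h v₀).contDiff.contDiffAt.comp z hv5.contDiffAt
    have a3 : ContDiffAt ℝ ∞ (fun z => ⟪v₀, VV v₀ e₁ e₂ z⟫) z :=
      contDiffAt_const.inner ℝ hv5.contDiffAt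
    exact (a1.sub (a2.sub (contDiffAt_const.mul a3))).sub contDiffAt_const
  have hrel : ∀ z, ‖z‖ < 1 → 0 < 2 * (1 - ‖z‖ ^ 2) ^ 2 / nn z ∧
      psi h v₀ e₁ e₂ ℓ z = 2 * (1 - ‖z‖ ^ 2) ^ 2 / nn z * (phi h v₀ e₁ e₂ z - ℓ) := by
    intro z hz
    have hw : 0 < 1 - ‖z‖ ^ 2 := by nlinarith [norm_nonneg z]
    have hn0 := (hn z).1
    refine ⟨by positivity, ?_⟩
    have e1 : h (VV v₀ e₁ e₂ z) = (nn z)⁻¹ * h (YY v₀ e₁ e₂ z) := by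
      rw [VV, hh.hom _ (inv_pos.2 hn0)]
    have e2 : d1 h v₀ (VV v₀ e₁ e₂ z) = (nn z)⁻¹ * d1 h v₀ (YY v₀ e₁ e₂ z) := by
      rw [VV, d1, d1, map_smul, smul_eq_mul]
    have e3 : ⟪v₀, VV v₀ e₁ e₂ z⟫ = (nn z)⁻¹ * (‖z‖ ^ 2 - (1 - ‖z‖ ^ 2) ^ 2) := by
      rw [VV, real_inner_smul_right, inner_YY hF]
    have e4 : nn z = ‖z‖ ^ 2 + (1 - ‖z‖ ^ 2) ^ 2 := rfl
    rw [psi, e1, e2, e3, phi, if_pos hz]
    have hn' := hn0.ne'
    have hw' := hw.ne'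
    field_simp
    rw [e4]
    ring
  -- smoothness of phi
  have hphi : ∀ z, ‖z‖ < 1 → ContDiffAt ℝ 1 (phi h v₀ e₁ e₂) z := by
    intro z hz
    have hw : 0 < 1 - ‖z‖ ^ 2 := by nlinarith [norm_nonneg z]
    have e : phi h v₀ e₁ e₂ =ᶠ[𝓝 z] fun z =>
        (h (YY v₀ e₁ e₂ z) - fderiv ℝ h v₀ (YY v₀ e₁ e₂ z)) / (2 * (1 - ‖z‖ ^ 2) ^ 2) := by
      filter_upwards [(isOpen_lt continuous_norm continuous_const).mem_nhds hz] with y hy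
      exact if_pos hy
    refine ContDiffAt.congr_of_eventuallyEq ?_ e
    have a1 : ContDiffAt ℝ ∞ (fun z => h (YY v₀ e₁ e₂ z)) z :=
      (hsm _ (hYne z)).comp z hv6.contDiffAt
    have a2 : ContDiffAt ℝ ∞ (fun z => fderiv ℝ h v₀ (YY v₀ e₁ e₂ z)) z :=
      (fderiv ℝ h v₀).contDiff.contDiffAt.comp z hv6.contDiffAt
    have a3 : ContDiffAt ℝ ∞ (fun z : ℂ => 2 * (1 - ‖z‖ ^ 2) ^ 2) z :=
      contDiffAt_const.mul ((contDiffAt_const.sub (contDiff_norm_sq ℝ).contDiffAt).pow 2)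
    exact ((a1.sub a2).div a3 (by positivity)).of_le (by exact_mod_cast le_top)
  refine ⟨fun z _ => (hpc z).continuousAt.continuousWithinAt, ?_, hrel,
    fun z hz => ⟨hphi z hz, (hpc z).differentiableAt (by simp)⟩, ?_⟩
  · intro z hz
    have h0 : ⟪v₀, v₀⟫ = (1 : ℝ) := by rw [real_inner_self_eq_norm_sq, hF.n0]; norm_num
    rw [psi, hv2 z hz, hE, h0]
    ring
  · intro z hz hd hval
    have hw : 0 < 1 - ‖z‖ ^ 2 := by nlinarith [norm_nonneg z]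
    have e : psi h v₀ e₁ e₂ ℓ =ᶠ[𝓝 z] fun z =>
        2 * (1 - ‖z‖ ^ 2) ^ 2 / (‖z‖ ^ 2 + (1 - ‖z‖ ^ 2) ^ 2) * (phi h v₀ e₁ e₂ z - ℓ) := by
      filter_upwards [(isOpen_lt continuous_norm continuous_const).mem_nhds hz] with y hy
      exact (hrel y hy).2
    rw [e.fderiv_eq]
    have hn0 : 0 < ‖z‖ ^ 2 + (1 - ‖z‖ ^ 2) ^ 2 := (hn z).1
    have b1 : DifferentiableAt ℝ (fun z : ℂ =>
        2 * (1 - ‖z‖ ^ 2) ^ 2 / (‖z‖ ^ 2 + (1 - ‖z‖ ^ 2) ^ 2)) z := by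
      have c1 : ContDiffAt ℝ 1 (fun z : ℂ => ‖z‖ ^ 2) z := (contDiff_norm_sq ℝ).contDiffAt
      have c2 : ContDiffAt ℝ 1 (fun z : ℂ => (1 - ‖z‖ ^ 2) ^ 2) z :=
        (contDiffAt_const.sub c1).pow 2
      have c4 : ContDiffAt ℝ 1 (fun z : ℂ => 2 * (1 - ‖z‖ ^ 2) ^ 2) z := contDiffAt_const.mul c2
      exact (c4.div (c1.add c2) hn0.ne').differentiableAt (by simp)
    have b2 : HasFDerivAt (fun z => phi h v₀ e₁ e₂ z - ℓ) (0 : ℂ →L[ℝ] ℝ) z := by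
      have := ((hphi z hz).differentiableAt (by simp)).hasFDerivAt
      rw [hd] at this
      exact this.sub_const ℓ
    have b3 := b1.hasFDerivAt.fun_mul b2
    rw [b3.fderiv]
    simp [hval]

end Pool.Agent.K1H41.OV
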