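import Pool.Agent.K1H41.OV.Stm

/-!
Project OV (helper61): `S_REGB`, regularity at the boundary circle.
-/

set_option autoImplicit false

namespace Pool.Agent.K1H41.OV

open scoped RealInnerProductSpace Topology ContDiff
open Filter

private lemma hat_exp (e₁ e₂ : E3) (θ : ℝ) :
    hat e₁ e₂ (Complex.exp (θ * Complex.I)) = Real.cos θ • e₁ + Real.sin θ • e₂ := by
  unfold hat
  rw [Complex.exp_ofReal_mul_I_re, Complex.exp_ofReal_mul_I_im]

private lemma cs_norm {v₀ e₁ e₂ : E3} (F : Frame v₀ e₁ e₂) (a b : ℝ) (h : a ^ 2 + b ^ 2 = 1) :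
    ‖a • e₁ + b • e₂‖ = 1 := by
  have h1 : ‖a • e₁ + b • e₂‖ ^ 2 = 1 := by
    rw [norm_add_sq_real, norm_smul, norm_smul, F.n1, F.n2, inner_smul_left, inner_smul_right,
      F.o12, mul_one, mul_one, Real.norm_eq_abs, Real.norm_eq_abs, sq_abs, sq_abs]
    simp
    linarith
  have h2 : ‖a • e₁ + b • e₂‖ ^ 2 = 1 ^ 2 := by rw [h1]; norm_num
  exact (pow_left_inj₀ (norm_nonneg _) (by norm_num) (by norm_num)).1 h2

private lemma d2_cs {h : E3 → ℝ} {v₀ e₁ e₂ : E3} (h12 : d2 h v₀ e₁ e₂ = 0)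
    (h21 : d2 h v₀ e₂ e₁ = 0) (a b c d : ℝ) :
    d2 h v₀ (a • e₁ + b • e₂) (c • e₁ + d • e₂) =
      a * c * d2 h v₀ e₁ e₁ + b * d * d2 h v₀ e₂ e₂ := by
  unfold d2 at *
  rw [map_add, map_smul, map_smul]
  simp only [add_apply, smul_apply, map_add, map_smul,
    smul_eq_mul, h12, h21]
  ring

private lemma ne0 {v₀ e₁ e₂ : E3} (F : Frame v₀ e₁ e₂) (a b : ℝ) :
    v₀ + (a • e₁ + b • e₂) ≠ 0 := by
  intro h
  have h1 : ⟪v₀, v₀ + (a • e₁ + b • e₂)⟫ = 1 := by
    rw [inner_add_right, inner_add_right, inner_smul_right, inner_smul_right, F.o01, F.o02,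
      real_inner_self_eq_norm_sq, F.n0]
    norm_num
  rw [h, inner_zero_right] at h1
  exact zero_ne_one h1

private lemma polar {z z' : ℂ} {θ₀ : ℝ} (hz : z = Complex.exp (θ₀ * Complex.I)) :
    z' = (‖z'‖ : ℂ) * Complex.exp (((θ₀ + Complex.arg (z' / z) : ℝ) : ℂ) * Complex.I) := by
  have hz1 : ‖z‖ = 1 := by rw [hz, Complex.norm_exp_ofReal_mul_I]
  have hz0 : z ≠ 0 := by
    intro h
    rw [h, norm_zero] at hz1
    exact zero_ne_one hz1
  have h1 := Complex.norm_mul_exp_arg_mul_I (z' / z)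
  rw [norm_div, hz1, div_one] at h1
  push_cast
  rw [add_mul, Complex.exp_add, ← hz]
  calc z' = z' / z * z := by field_simp
    _ = (‖z'‖ : ℂ) * Complex.exp ((Complex.arg (z' / z) : ℂ) * Complex.I) * z := by rw [h1]
    _ = _ := by ring

theorem t_REGB (h0 : S_HOM) (h1 : S_TAY) (h2 : S_POL) (h3 : S_CONT) (h4 : S_BOX) : S_REGB := by
  intro h v₀ e₁ e₂ hS F h12 hlt ℓ z hz hl1 hl2 hphi
  have hv : v₀ ≠ 0 := by
    intro h
    have := F.n0
    rw [h, norm_zero] at this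
    exact zero_ne_one this
  have h21 : d2 h v₀ e₂ e₁ = 0 := by
    rw [(h0 h hS v₀ hv).2.2.1, h12]
  set r₁ : ℝ := d2 h v₀ e₁ e₁ with hr₁
  set r₂ : ℝ := d2 h v₀ e₂ e₂ with hr₂
  obtain ⟨C, s₀, hC, hs₀, hT⟩ := h1 h v₀
    (hS.smooth.contDiffAt (isOpen_compl_singleton.mem_nhds hv))
  have hcont := h3 h v₀ e₁ e₂ hS F
  -- angle of z
  set θ₀ : ℝ := Complex.arg z with hθ₀
  have hzexp : z = Complex.exp (θ₀ * Complex.I) := by
    have := Complex.norm_mul_exp_arg_mul_I z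
    rw [hz, Complex.ofReal_one, one_mul] at this
    exact this.symm
  -- the circle
  have hcirc : ∀ θ : ℝ, phi h v₀ e₁ e₂ (Complex.exp (θ * Complex.I)) =
      r₁ * Real.cos θ ^ 2 + r₂ * Real.sin θ ^ 2 := by
    intro θ
    unfold phi
    rw [if_neg (by rw [Complex.norm_exp_ofReal_mul_I]; exact lt_irrefl 1), hat_exp,
      d2_cs h12 h21]
    ring
  set k : ℝ → ℝ := fun θ => (r₂ - r₁) * (Real.sin θ * Real.cos θ) with hk
  have hkc : Continuous k := by
    simp only [hk]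
    fun_prop
  have hk0 : k θ₀ ≠ 0 := by
    intro h5
    have h6 := hcirc θ₀
    rw [← hzexp, hphi] at h6
    have h7 : (r₂ - r₁) ≠ 0 := by
      intro h; linarith
    have h8 := Real.sin_sq_add_cos_sq θ₀
    rcases mul_eq_zero.1 h5 with h9 | h9
    · exact h7 h9
    · rcases mul_eq_zero.1 h9 with h10 | h10
      · rw [h10] at h6 h8
        have : Real.cos θ₀ ^ 2 = 1 := by linarith
        rw [this] at h6
        linarith
      · rw [h10] at h6 h8
        have : Real.sin θ₀ ^ 2 = 1 := by linarith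
        rw [this] at h6
        linarith
  obtain ⟨σ, hσ2, hσk⟩ : ∃ σ : ℝ, σ * σ = 1 ∧ 0 < σ * k θ₀ := by
    rcases lt_or_gt_of_ne hk0 with h5 | h5
    · exact ⟨-1, by norm_num, by linarith⟩
    · exact ⟨1, by norm_num, by linarith⟩
  have hσ1 : |σ| = 1 := by
    have : |σ| * |σ| = 1 := by rw [← abs_mul, hσ2, abs_one]
    nlinarith [abs_nonneg σ]
  set m : ℝ := σ * k θ₀ / 2 with hm
  have hm0 : 0 < m := half_pos hσk
  -- derivative in the angle
  set c : ℝ → ℝ := fun ρ => 2 * ρ ^ 2 / (ρ ^ 2 - (1 - ρ ^ 2) ^ 2) with hc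
  set s : ℝ → ℝ := fun ρ => 2 * (1 - ρ ^ 2) * ρ / (ρ ^ 2 - (1 - ρ ^ 2) ^ 2) with hs
  have hder : ∀ ρ : ℝ, 4 / 5 < ρ → ρ < 1 → s ρ ≤ s₀ → C * s ρ ≤ m → ∀ θ : ℝ, m ≤ σ * k θ →
      ∃ D : ℝ, 0 ≤ σ * D ∧
        HasDerivAt (fun θ : ℝ => phi h v₀ e₁ e₂ (ρ * Complex.exp (θ * Complex.I))) D θ := by
    intro ρ hρ hρ1 hsρ hCs θ hθ
    have hfun : (fun θ : ℝ => phi h v₀ e₁ e₂ (ρ * Complex.exp (θ * Complex.I))) =
        fun θ : ℝ => c ρ * ((h (v₀ + ((s ρ * Real.cos θ) • e₁ + (s ρ * Real.sin θ) • e₂)) - h v₀ -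
          d1 h v₀ ((s ρ * Real.cos θ) • e₁ + (s ρ * Real.sin θ) • e₂)) / s ρ ^ 2) := by
      funext θ
      have := (h2 h v₀ e₁ e₂ hS F ρ (Complex.exp (θ * Complex.I)) hρ hρ1
        (Complex.norm_exp_ofReal_mul_I θ)).2
      rw [hat_exp, smul_add, smul_smul, smul_smul] at this
      exact this
    have hD0 : 0 < ρ ^ 2 - (1 - ρ ^ 2) ^ 2 :=
      (h2 h v₀ e₁ e₂ hS F ρ 1 hρ hρ1 (by simp)).1
    have hw : 0 < 1 - ρ ^ 2 := by nlinarith
    have hρ0 : 0 < ρ := by linarith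
    have hsp : 0 < s ρ := by simp only [hs]; positivity
    have hcp : 0 < c ρ := by simp only [hc]; positivity
    set ξ : E3 := (s ρ * Real.cos θ) • e₁ + (s ρ * Real.sin θ) • e₂ with hξ
    set η : E3 := (-Real.sin θ) • e₁ + Real.cos θ • e₂ with hη
    have hξn : ‖ξ‖ = s ρ := by
      have : ξ = s ρ • (Real.cos θ • e₁ + Real.sin θ • e₂) := by
        rw [hξ, smul_add, smul_smul, smul_smul]
      rw [this, norm_smul, cs_norm F _ _ (by have := Real.sin_sq_add_cos_sq θ; linarith), mul_one,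
        Real.norm_eq_abs, abs_of_pos hsp]
    have hηn : ‖η‖ = 1 := cs_norm F _ _ (by have := Real.sin_sq_add_cos_sq θ; nlinarith)
    have hdξ : HasDerivAt (fun θ : ℝ => (s ρ * Real.cos θ) • e₁ + (s ρ * Real.sin θ) • e₂)
        (s ρ • η) θ := by
      have a1 := ((Real.hasDerivAt_cos θ).const_mul (s ρ)).smul_const e₁
      have a2 := ((Real.hasDerivAt_sin θ).const_mul (s ρ)).smul_const e₂
      have a3 := a1.add a2
      rw [hη, smul_add, smul_smul, smul_smul]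
      exact a3
    have hcd : ContDiffAt ℝ ∞ h (v₀ + ξ) :=
      hS.smooth.contDiffAt (isOpen_compl_singleton.mem_nhds (ne0 F _ _))
    have hf1 : HasFDerivAt h (fderiv ℝ h (v₀ + ξ)) (v₀ + ξ) :=
      (hcd.differentiableAt (by simp)).hasFDerivAt
    have hd1 : HasDerivAt (fun θ : ℝ =>
        h (v₀ + ((s ρ * Real.cos θ) • e₁ + (s ρ * Real.sin θ) • e₂)))
        (fderiv ℝ h (v₀ + ξ) (s ρ • η)) θ :=
      hf1.comp_hasDerivAt θ (hdξ.const_add v₀)
    have hd2 : HasDerivAt (fun θ : ℝ =>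
        d1 h v₀ ((s ρ * Real.cos θ) • e₁ + (s ρ * Real.sin θ) • e₂))
        (fderiv ℝ h v₀ (s ρ • η)) θ :=
      (fderiv ℝ h v₀).hasFDerivAt.comp_hasDerivAt θ hdξ
    have hd3 := (((hd1.sub_const (h v₀)).sub hd2).div_const (s ρ ^ 2)).const_mul (c ρ)
    refine ⟨_, ?_, by rw [hfun]; exact hd3⟩
    have ht := (hT ξ (by rw [hξn]; exact hsρ)).2 η
    rw [hξn, hηn, mul_one] at ht
    have hd2v : d2 h v₀ ξ η = s ρ * k θ := by
      rw [hξ, hη, d2_cs h12 h21]
      simp only [hk]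
      ring
    rw [hd2v] at ht
    have e1 : fderiv ℝ h (v₀ + ξ) (s ρ • η) - fderiv ℝ h v₀ (s ρ • η) =
        s ρ * (d1 h (v₀ + ξ) η - d1 h v₀ η) := by
      unfold d1
      rw [map_smul, map_smul, smul_eq_mul, smul_eq_mul]
      ring
    rw [e1]
    have e2 : σ * (c ρ * (s ρ * (d1 h (v₀ + ξ) η - d1 h v₀ η) / s ρ ^ 2)) =
        c ρ / s ρ * (σ * (d1 h (v₀ + ξ) η - d1 h v₀ η)) := by
      field_simp
    rw [e2]
    refine mul_nonneg (by positivity) ?_
    have h5 : |σ * (d1 h (v₀ + ξ) η - d1 h v₀ η - s ρ * k θ)| ≤ C * s ρ ^ 2 := by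
      rw [abs_mul, hσ1, one_mul]
      exact ht
    have h6 := (abs_le.1 h5).1
    have h7 : σ * (s ρ * k θ) ≥ s ρ * m := by
      have : σ * (s ρ * k θ) = s ρ * (σ * k θ) := by ring
      rw [this]
      exact mul_le_mul_of_nonneg_left hθ hsp.le
    have h8 : C * s ρ ^ 2 ≤ s ρ * m := by
      have : C * s ρ ^ 2 = s ρ * (C * s ρ) := by ring
      rw [this]
      exact mul_le_mul_of_nonneg_left hCs hsp.le
    nlinarith
  -- the choice of the angles
  intro ε hε
  have hpc : Continuous (fun p : ℝ × ℝ => (p.1 : ℂ) * Complex.exp (p.2 * Complex.I)) := by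
    fun_prop
  have hpz : (fun p : ℝ × ℝ => (p.1 : ℂ) * Complex.exp (p.2 * Complex.I)) (1, θ₀) = z := by
    simp only
    rw [← hzexp]; simp
  obtain ⟨δ₂, hδ₂, hball⟩ : ∃ δ₂ : ℝ, 0 < δ₂ ∧ ∀ ρ θ : ℝ, |ρ - 1| < δ₂ → |θ - θ₀| < δ₂ →
      (ρ : ℂ) * Complex.exp (θ * Complex.I) ∈ Metric.ball z ε := by
    have h5 := Metric.continuousAt_iff.1 (hpc.continuousAt (x := ((1 : ℝ), θ₀))) ε hε
    obtain ⟨δ, hδ, h6⟩ := h5
    refine ⟨δ, hδ, fun ρ θ h7 h8 => ?_⟩
    rw [Metric.mem_ball, ← hpz]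
    refine @h6 (ρ, θ) ?_
    rw [Prod.dist_eq, Real.dist_eq, Real.dist_eq]
    exact max_lt h7 h8
  obtain ⟨δ₁, hδ₁, hkm⟩ : ∃ δ₁ : ℝ, 0 < δ₁ ∧ ∀ θ : ℝ, |θ - θ₀| < δ₁ → m ≤ σ * k θ := by
    have h5 : ContinuousAt (fun θ => σ * k θ) θ₀ := (continuous_const.mul hkc).continuousAt
    have h6 : ∀ᶠ θ in 𝓝 θ₀, m < σ * k θ := h5.eventually_const_lt (by linarith)
    obtain ⟨δ, hδ, h7⟩ := Metric.eventually_nhds_iff.1 h6
    exact ⟨δ, hδ, fun θ hθ => (h7 (by rwa [Real.dist_eq])).le⟩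
  obtain ⟨δ, hδ0, hδ1, hδ2⟩ : ∃ δ : ℝ, 0 < δ ∧ δ < δ₁ ∧ δ < δ₂ := by
    refine ⟨min δ₁ δ₂ / 2, by positivity, ?_, ?_⟩
    · have := min_le_left δ₁ δ₂
      have h5 : 0 < min δ₁ δ₂ := lt_min hδ₁ hδ₂
      linarith
    · have := min_le_right δ₁ δ₂
      have h5 : 0 < min δ₁ δ₂ := lt_min hδ₁ hδ₂
      linarith
  set ang : ℝ → ℝ := fun x => θ₀ + σ * δ * (2 * x - 1) with hang
  have hangb : ∀ x ∈ Set.Icc (0 : ℝ) 1, |ang x - θ₀| ≤ δ := by
    intro x hx
    have e : ang x - θ₀ = σ * (δ * (2 * x - 1)) := by simp only [hang]; ring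
    rw [e, abs_mul, hσ1, one_mul, abs_mul, abs_of_pos hδ0]
    have : |2 * x - 1| ≤ 1 := by
      rw [abs_le]
      constructor <;> linarith [hx.1, hx.2]
    nlinarith
  have hangd : ∀ x, HasDerivAt ang (2 * (σ * δ)) x := by
    intro x
    have h5 := ((((hasDerivAt_id x).const_mul 2).sub_const 1).const_mul (σ * δ)).const_add θ₀
    simp only [id_eq, mul_one] at h5
    rw [mul_comm (σ * δ) 2] at h5
    exact h5
  -- monotone on the circle
  have hedge1 : phi h v₀ e₁ e₂ (Complex.exp (ang 0 * Complex.I)) < ℓ := by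
    have hmono : StrictMonoOn (fun x => phi h v₀ e₁ e₂ (Complex.exp (ang x * Complex.I)))
        (Set.Icc 0 1) := by
      have hfun : (fun x => phi h v₀ e₁ e₂ (Complex.exp (ang x * Complex.I))) =
          fun x => r₁ * Real.cos (ang x) ^ 2 + r₂ * Real.sin (ang x) ^ 2 := by
        funext x
        exact hcirc (ang x)
      have hd : ∀ x, HasDerivAt (fun x => r₁ * Real.cos (ang x) ^ 2 + r₂ * Real.sin (ang x) ^ 2)
          (4 * δ * (σ * k (ang x))) x := by
        intro x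
        have a1 := (((Real.hasDerivAt_cos (ang x)).comp x (hangd x)).pow 2).const_mul r₁
        have a2 := (((Real.hasDerivAt_sin (ang x)).comp x (hangd x)).pow 2).const_mul r₂
        have a3 := a1.add a2
        refine a3.congr_deriv ?_
        simp only [hk, Function.comp_apply]
        push_cast
        ring
      rw [hfun]
      refine strictMonoOn_of_deriv_pos (convex_Icc 0 1)
        (fun x _ => (hd x).continuousAt.continuousWithinAt) fun x hx => ?_
      rw [(hd x).deriv]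
      rw [interior_Icc] at hx
      have h5 := hkm (ang x) (lt_of_le_of_lt (hangb x ⟨hx.1.le, hx.2.le⟩) hδ1)
      have : 0 < σ * k (ang x) := lt_of_lt_of_le hm0 h5
      positivity
    have h5 := hmono (Set.mem_Icc.2 ⟨le_refl 0, zero_le_one⟩)
      (Set.mem_Icc.2 ⟨by norm_num, by norm_num⟩ : (1 / 2 : ℝ) ∈ Set.Icc (0 : ℝ) 1) (by norm_num)
    simp only at h5
    have e : ang (1 / 2) = θ₀ := by simp only [hang]; ring
    rw [e, ← hzexp, hphi] at h5
    exact h5
  -- the choice of the radii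
  have hsc : ContinuousAt s 1 :=
    ContinuousAt.div (by fun_prop) (by fun_prop) (by norm_num)
  have hs1 : s 1 = 0 := by simp [hs]
  have hev : ∀ᶠ ρ : ℝ in 𝓝[≤] (1 : ℝ), 4 / 5 < ρ ∧ s ρ < s₀ ∧ C * s ρ < m ∧ |ρ - 1| < δ₂ ∧
      phi h v₀ e₁ e₂ (ρ * Complex.exp (ang 0 * Complex.I)) < ℓ := by
    have b1 : ∀ᶠ ρ in 𝓝[≤] (1 : ℝ), 4 / 5 < ρ :=
      mem_nhdsWithin_of_mem_nhds (lt_mem_nhds (by norm_num))
    have b2 : ∀ᶠ ρ in 𝓝[≤] (1 : ℝ), s ρ < s₀ :=
      mem_nhdsWithin_of_mem_nhds (hsc.eventually_lt_const (by rw [hs1]; exact hs₀))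
    have b3 : ∀ᶠ ρ in 𝓝[≤] (1 : ℝ), C * s ρ < m :=
      mem_nhdsWithin_of_mem_nhds ((hsc.const_mul C).eventually_lt_const (by
        simp only [hs1, mul_zero]; exact hm0))
    have b4 : ∀ᶠ ρ in 𝓝[≤] (1 : ℝ), |ρ - 1| < δ₂ := by
      apply mem_nhdsWithin_of_mem_nhds
      rw [Metric.mem_nhds_iff]
      exact ⟨δ₂, hδ₂, fun ρ hρ => by rwa [Metric.mem_ball, Real.dist_eq] at hρ⟩
    have b5 : ∀ᶠ ρ : ℝ in 𝓝[≤] (1 : ℝ),
        phi h v₀ e₁ e₂ (ρ * Complex.exp (ang 0 * Complex.I)) < ℓ := by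
      have c1 : ContinuousWithinAt (phi h v₀ e₁ e₂) DD (Complex.exp (ang 0 * Complex.I)) := by
        apply hcont
        rw [mem_closedBall_zero_iff, Complex.norm_exp_ofReal_mul_I]
      have c2 : Tendsto (fun ρ : ℝ => (ρ : ℂ) * Complex.exp (ang 0 * Complex.I)) (𝓝[≤] (1 : ℝ))
          (𝓝[DD] (Complex.exp (ang 0 * Complex.I))) := by
        apply tendsto_nhdsWithin_of_tendsto_nhds_of_eventually_within
        · have c3 : Continuous (fun ρ : ℝ => (ρ : ℂ) * Complex.exp (ang 0 * Complex.I)) := by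
            fun_prop
          have c4 := c3.tendsto 1
          simp only [Complex.ofReal_one, one_mul] at c4
          exact c4.mono_left nhdsWithin_le_nhds
        · filter_upwards [b1, self_mem_nhdsWithin] with ρ hρ hρ1
          rw [mem_closedBall_zero_iff, norm_mul, Complex.norm_exp_ofReal_mul_I, mul_one,
            Complex.norm_real, Real.norm_eq_abs, abs_of_pos (by linarith)]
          exact hρ1
      exact (c1.tendsto.comp c2).eventually_lt_const hedge1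
    filter_upwards [b1, b2, b3, b4, b5] with ρ c1 c2 c3 c4 c5
    exact ⟨c1, c2, c3, c4, c5⟩
  obtain ⟨d, hd0, hd⟩ : ∃ d : ℝ, 0 < d ∧ ∀ ρ : ℝ, 1 - d ≤ ρ → ρ ≤ 1 → 4 / 5 < ρ ∧ s ρ < s₀ ∧
      C * s ρ < m ∧ |ρ - 1| < δ₂ ∧
      phi h v₀ e₁ e₂ (ρ * Complex.exp (ang 0 * Complex.I)) < ℓ := by
    rw [eventually_nhdsWithin_iff] at hev
    obtain ⟨d, hd, h5⟩ := Metric.eventually_nhds_iff.1 hev
    refine ⟨d / 2, half_pos hd, fun ρ h6 h7 => h5 ?_ h7⟩
    rw [Real.dist_eq, abs_lt]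
    constructor <;> linarith
  -- the box
  set χ : ℝ × ℝ → ℂ := fun p => ((1 - d * p.2 : ℝ) : ℂ) * Complex.exp (ang p.1 * Complex.I)
    with hχ
  have hχc : Continuous χ := by
    simp only [hχ, hang]
    fun_prop
  have hρb : ∀ y ∈ Set.Icc (0 : ℝ) 1, 1 - d ≤ 1 - d * y ∧ 1 - d * y ≤ 1 := by
    intro y hy
    constructor <;> nlinarith [hy.1, hy.2]
  have hsub : χ '' (Set.Icc 0 1 ×ˢ Set.Icc 0 1) ⊆ Metric.ball z ε ∩ DD := by
    rintro _ ⟨p, ⟨hp1, hp2⟩, rfl⟩
    have hb := hρb p.2 hp2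
    obtain ⟨c1, c2, c3, c4, c5⟩ := hd _ hb.1 hb.2
    refine ⟨hball _ _ c4 (lt_of_le_of_lt (hangb p.1 hp1) hδ2), ?_⟩
    rw [mem_closedBall_zero_iff]
    simp only [hχ]
    rw [norm_mul, Complex.norm_exp_ofReal_mul_I, mul_one,
      Complex.norm_real, Real.norm_eq_abs, abs_of_pos (by linarith)]
    exact hb.2
  have hbox := h4 (phi h v₀ e₁ e₂) χ ℓ hχc (hcont.mono fun w hw => (hsub hw).2) ?_ ?_
  · refine ⟨χ '' (Set.Icc 0 1 ×ˢ Set.Icc 0 1), hsub, ?_, hbox.1, hbox.2⟩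
    -- neighbourhood
    have hz0 : z ≠ 0 := by
      intro h
      rw [h, norm_zero] at hz
      exact zero_ne_one hz
    have b1 : ∀ᶠ z' in 𝓝[DD] z, 1 - d < ‖z'‖ :=
      mem_nhdsWithin_of_mem_nhds
        (continuous_norm.continuousAt.eventually_const_lt (by simp only [hz]; linarith))
    have b2 : ∀ᶠ z' in 𝓝[DD] z, |Complex.arg (z' / z)| < δ := by
      apply mem_nhdsWithin_of_mem_nhds
      have c1 : ContinuousAt (fun z' => |Complex.arg (z' / z)|) z := by
        have c2 : ContinuousAt Complex.arg (z / z) := by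
          apply Complex.continuousAt_arg
          rw [div_self hz0]
          exact Complex.one_mem_slitPlane
        exact (ContinuousAt.comp (g := Complex.arg) (f := fun z' => z' / z) c2
          (continuousAt_id.div_const z)).abs
      apply c1.eventually_lt_const
      simp only [div_self hz0]
      simpa using hδ0
    filter_upwards [b1, b2, self_mem_nhdsWithin] with z' c1 c2 c3
    rw [mem_closedBall_zero_iff] at c3
    refine ⟨((1 + σ * Complex.arg (z' / z) / δ) / 2, (1 - ‖z'‖) / d), ⟨?_, ?_⟩, ?_⟩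
    · have h5 : |σ * Complex.arg (z' / z) / δ| ≤ 1 := by
        rw [abs_div, abs_mul, hσ1, one_mul, abs_of_pos hδ0, div_le_one hδ0]
        exact c2.le
      rw [abs_le] at h5
      constructor <;> simp only <;> linarith [h5.1, h5.2]
    · simp only
      constructor
      · apply div_nonneg _ hd0.le
        linarith
      · rw [div_le_one hd0]
        linarith
    · simp only [hχ]
      have e1 : 1 - d * ((1 - ‖z'‖) / d) = ‖z'‖ := by
        field_simp
        ring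
      have e2 : ang ((1 + σ * Complex.arg (z' / z) / δ) / 2) = θ₀ + Complex.arg (z' / z) := by
        simp only [hang]
        have : σ * δ * (2 * ((1 + σ * Complex.arg (z' / z) / δ) / 2) - 1) =
            (σ * σ) * Complex.arg (z' / z) := by
          field_simp
          ring
        rw [this, hσ2, one_mul]
      rw [e1, e2]
      exact (polar hzexp).symm
  · intro y hy
    have hb := hρb y hy
    obtain ⟨c1, c2, c3, c4, c5⟩ := hd _ hb.1 hb.2
    rcases lt_or_eq_of_le hb.2 with h5 | h5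
    · have hall : ∀ x ∈ Set.Icc (0 : ℝ) 1, ∃ D : ℝ, 0 ≤ D ∧
          HasDerivAt (fun x => phi h v₀ e₁ e₂ (χ (x, y))) D x := by
        intro x hx
        obtain ⟨D, hD, hDd⟩ := hder _ c1 h5 c2.le c3.le (ang x)
          (hkm _ (lt_of_le_of_lt (hangb x hx) hδ1))
        refine ⟨D * (2 * (σ * δ)), ?_, ?_⟩
        · have : D * (2 * (σ * δ)) = 2 * δ * (σ * D) := by ring
          rw [this]
          positivity
        · exact hDd.comp x (hangd x)
      refine monotoneOn_of_deriv_nonneg (convex_Icc 0 1) ?_ ?_ ?_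
      · intro x hx
        obtain ⟨D, hD, hDd⟩ := hall x hx
        exact hDd.continuousAt.continuousWithinAt
      · intro x hx
        rw [interior_Icc] at hx
        obtain ⟨D, hD, hDd⟩ := hall x ⟨hx.1.le, hx.2.le⟩
        exact hDd.differentiableAt.differentiableWithinAt
      · intro x hx
        rw [interior_Icc] at hx
        obtain ⟨D, hD, hDd⟩ := hall x ⟨hx.1.le, hx.2.le⟩
        rw [hDd.deriv]
        exact hD
    · have hfun : (fun x => phi h v₀ e₁ e₂ (χ (x, y))) =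
          fun x => r₁ * Real.cos (ang x) ^ 2 + r₂ * Real.sin (ang x) ^ 2 := by
        funext x
        simp only [hχ]
        rw [h5, Complex.ofReal_one, one_mul]
        exact hcirc (ang x)
      have hdd : ∀ x, HasDerivAt (fun x => r₁ * Real.cos (ang x) ^ 2 + r₂ * Real.sin (ang x) ^ 2)
          (4 * δ * (σ * k (ang x))) x := by
        intro x
        have a1 := (((Real.hasDerivAt_cos (ang x)).comp x (hangd x)).pow 2).const_mul r₁
        have a2 := (((Real.hasDerivAt_sin (ang x)).comp x (hangd x)).pow 2).const_mul r₂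
        have a3 := a1.add a2
        refine a3.congr_deriv ?_
        simp only [hk, Function.comp_apply]
        push_cast
        ring
      rw [hfun]
      refine monotoneOn_of_deriv_nonneg (convex_Icc 0 1)
        (fun x _ => (hdd x).continuousAt.continuousWithinAt)
        (fun x _ => (hdd x).differentiableAt.differentiableWithinAt) fun x hx => ?_
      rw [(hdd x).deriv]
      rw [interior_Icc] at hx
      have h6 := hkm (ang x) (lt_of_le_of_lt (hangb x ⟨hx.1.le, hx.2.le⟩) hδ1)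
      have : 0 < σ * k (ang x) := lt_of_lt_of_le hm0 h6
      positivity
  · intro y hy
    have hb := hρb y hy
    exact (hd _ hb.1 hb.2).2.2.2.2

end Pool.Agent.K1H41.OV
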