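import Pool.Agent.K1H41.OV.Stm

/-!
# Project OV: the box lemma and regular points in the open disc
-/

set_option autoImplicit false

namespace Pool.Agent.K1H41.OV

open scoped Topology

theorem t_BOX : S_BOX := by
  intro φ χ l hχ hφ hmono hedge
  set B : Set ℂ := χ '' (Set.Icc 0 1 ×ˢ Set.Icc 0 1) with hB
  have hmem : ∀ x ∈ Set.Icc (0 : ℝ) 1, ∀ y ∈ Set.Icc (0 : ℝ) 1, χ (x, y) ∈ B := fun x hx y hy =>
    ⟨(x, y), ⟨hx, hy⟩, rfl⟩
  have h00 : (0 : ℝ) ∈ Set.Icc (0 : ℝ) 1 := ⟨le_rfl, zero_le_one⟩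
  -- horizontal segments
  have key : ∀ x0 ∈ Set.Icc (0 : ℝ) 1, ∀ y0 ∈ Set.Icc (0 : ℝ) 1, φ (χ (x0, y0)) < l →
      JoinedIn (B ∩ {x | φ x < l}) (χ (x0, y0)) (χ (0, y0)) := by
    intro x0 hx0 y0 hy0 hlt
    apply JoinedIn.ofLine (f := fun t : ℝ => χ ((1 - t) * x0, y0))
    · apply Continuous.continuousOn
      fun_prop
    · simp
    · simp
    · rintro w ⟨t, ht, rfl⟩
      have h1 : (1 - t) * x0 ∈ Set.Icc (0 : ℝ) 1 :=
        ⟨mul_nonneg (by linarith [ht.2]) hx0.1, by nlinarith [ht.1, ht.2, hx0.1, hx0.2]⟩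
      refine ⟨hmem _ h1 _ hy0, ?_⟩
      have h2 := hmono y0 hy0 h1 hx0 (by nlinarith [ht.1, hx0.1])
      exact lt_of_le_of_lt h2 hlt
  -- the edge
  have edge : ∀ y0 ∈ Set.Icc (0 : ℝ) 1, ∀ y1 ∈ Set.Icc (0 : ℝ) 1,
      JoinedIn (B ∩ {x | φ x < l}) (χ (0, y0)) (χ (0, y1)) := by
    intro y0 hy0 y1 hy1
    apply JoinedIn.ofLine (f := fun t : ℝ => χ (0, (1 - t) * y0 + t * y1))
    · apply Continuous.continuousOn
      fun_prop
    · simp
    · simp
    · rintro w ⟨t, ht, rfl⟩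
      have h1 : (1 - t) * y0 + t * y1 ∈ Set.Icc (0 : ℝ) 1 := by
        constructor
        · have := mul_nonneg (by linarith [ht.2] : 0 ≤ 1 - t) hy0.1
          have := mul_nonneg ht.1 hy1.1
          linarith
        · have := mul_le_mul_of_nonneg_left hy0.2 (by linarith [ht.2] : 0 ≤ 1 - t)
          have := mul_le_mul_of_nonneg_left hy1.2 ht.1
          linarith
      exact ⟨hmem _ h00 _ h1, hedge _ h1⟩
  refine ⟨⟨χ (0, 0), hmem _ h00 _ h00, hedge _ h00⟩, ?_⟩
  rintro x ⟨⟨x0, y0⟩, ⟨hx0, hy0⟩, rfl⟩ hxl y ⟨⟨x1, y1⟩, ⟨hx1, hy1⟩, rfl⟩ hyl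
  exact ((key x0 hx0 y0 hy0 hxl).trans (edge y0 hy0 y1 hy1)).trans (key x1 hx1 y1 hy1 hyl).symm

theorem t_REGI : S_REGI := by
  intro φ z hz hφ hD ε hε
  -- a unit direction in which the derivative is positive
  obtain ⟨e, he1, hepos⟩ : ∃ e : ℂ, ‖e‖ = 1 ∧ 0 < fderiv ℝ φ z e := by
    have h1 : ∃ e0 : ℂ, fderiv ℝ φ z e0 ≠ 0 := by
      by_contra hcon
      push Not at hcon
      exact hD (ContinuousLinearMap.ext hcon)
    obtain ⟨e0, he0⟩ := h1
    have hne : e0 ≠ 0 := by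
      rintro rfl
      exact he0 (map_zero _)
    have hn : 0 < ‖e0‖ := norm_pos_iff.2 hne
    rcases lt_or_gt_of_ne he0 with h2 | h2
    · refine ⟨-((‖e0‖⁻¹ : ℝ) • e0), ?_, ?_⟩
      · rw [norm_neg, norm_smul, norm_inv, norm_norm, inv_mul_cancel₀ hn.ne']
      · rw [map_neg, map_smul, smul_eq_mul]
        have : 0 < ‖e0‖⁻¹ := inv_pos.2 hn
        nlinarith
    · refine ⟨(‖e0‖⁻¹ : ℝ) • e0, ?_, ?_⟩
      · rw [norm_smul, norm_inv, norm_norm, inv_mul_cancel₀ hn.ne']
      · rw [map_smul, smul_eq_mul]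
        exact mul_pos (inv_pos.2 hn) h2
  -- a ball
  have hev1 : ∀ᶠ w in 𝓝 z, DifferentiableAt ℝ φ w := by
    have h1 : ∀ᶠ w in 𝓝 z, ContDiffAt ℝ 1 φ w := hφ.eventually (by simp)
    exact h1.mono fun w hw => hw.differentiableAt (by norm_num)
  have hev2 : ∀ᶠ w in 𝓝 z, 0 < fderiv ℝ φ w e := by
    have h1 : ContinuousAt (fderiv ℝ φ) z := (hφ.fderiv_right (m := 0) (by norm_num)).continuousAt
    have h2 : ContinuousAt (fun w => fderiv ℝ φ w e) z := h1.clm_apply continuousAt_const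
    exact h2.eventually (lt_mem_nhds hepos)
  have hev3 : ∀ᶠ w in 𝓝 z, ‖w‖ < 1 := continuous_norm.continuousAt.eventually (gt_mem_nhds hz)
  obtain ⟨r0, hr0, hball⟩ := Metric.eventually_nhds_iff_ball.1 (hev1.and (hev2.and hev3))
  set r : ℝ := min r0 ε with hr
  have hrpos : 0 < r := lt_min hr0 hε
  have hb : ∀ w ∈ Metric.ball z r, DifferentiableAt ℝ φ w ∧ 0 < fderiv ℝ φ w e ∧ ‖w‖ < 1 := by
    intro w hw
    exact hball w (Metric.ball_subset_ball (min_le_left _ _) hw)
  set d : ℝ := r / 4 with hd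
  have hdpos : 0 < d := by positivity
  have hIe : ‖Complex.I * e‖ = 1 := by rw [norm_mul, Complex.norm_I, one_mul, he1]
  -- points near z
  have hin : ∀ a b : ℝ, |a| ≤ d → |b| ≤ d → z + a • e + b • (Complex.I * e) ∈ Metric.ball z r := by
    intro a b ha hb
    rw [Metric.mem_ball, dist_eq_norm]
    have h1 : z + a • e + b • (Complex.I * e) - z = a • e + b • (Complex.I * e) := by ring
    rw [h1]
    refine lt_of_le_of_lt (norm_add_le _ _) ?_
    rw [norm_smul, norm_smul, he1, hIe, mul_one, mul_one, Real.norm_eq_abs, Real.norm_eq_abs]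
    linarith
  -- monotone in the direction e
  have hmono : ∀ b : ℝ, |b| ≤ d →
      StrictMonoOn (fun a : ℝ => φ (z + a • e + b • (Complex.I * e))) (Set.Icc (-d) d) := by
    intro b hb'
    have hder : ∀ a ∈ Set.Icc (-d) d, HasDerivAt (fun a : ℝ => φ (z + a • e + b • (Complex.I * e)))
        (fderiv ℝ φ (z + a • e + b • (Complex.I * e)) e) a := by
      intro a ha
      have h1 := (hb _ (hin a b (abs_le.2 ha) hb')).1.hasFDerivAt
      have h2 : HasDerivAt (fun a : ℝ => z + a • e + b • (Complex.I * e)) e a := by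
        have h3 : HasDerivAt (fun a : ℝ => a • e) ((1 : ℝ) • e) a :=
          (hasDerivAt_id a).smul_const e
        rw [one_smul] at h3
        exact (h3.const_add z).add_const _
      exact h1.comp_hasDerivAt a h2
    apply strictMonoOn_of_deriv_pos (convex_Icc _ _)
    · exact fun a ha => (hder a ha).continuousAt.continuousWithinAt
    · intro a ha
      rw [interior_Icc] at ha
      have ha' : a ∈ Set.Icc (-d) d := ⟨ha.1.le, ha.2.le⟩
      rw [(hder a ha').deriv]
      exact (hb _ (hin a b (abs_le.2 ha') hb')).2.1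
  -- the edge
  have h0 : φ (z + (-d) • e) < φ z := by
    have h1 := hmono 0 (by rw [abs_zero]; exact hdpos.le)
      (show -d ∈ Set.Icc (-d) d from ⟨le_rfl, by linarith⟩)
      (show (0 : ℝ) ∈ Set.Icc (-d) d from ⟨by linarith, hdpos.le⟩) (by linarith)
    simpa using h1
  have hcont : ContinuousAt φ (z + (-d) • e) := by
    have h1 := hin (-d) 0 (by rw [abs_neg, abs_of_pos hdpos]) (by rw [abs_zero]; exact hdpos.le)
    rw [zero_smul, add_zero] at h1
    exact (hb _ h1).1.continuousAt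
  obtain ⟨δ, hδ, hδb⟩ := Metric.eventually_nhds_iff_ball.1 (hcont.eventually (gt_mem_nhds h0))
  set d' : ℝ := min d (δ / 2) with hd'
  have hd'pos : 0 < d' := lt_min hdpos (by positivity)
  have hd'd : d' ≤ d := min_le_left _ _
  set χ : ℝ × ℝ → ℂ := fun p =>
    z + ((2 * p.1 - 1) * d) • e + ((2 * p.2 - 1) * d') • (Complex.I * e) with hχ
  have habs : ∀ t ∈ Set.Icc (0 : ℝ) 1, |2 * t - 1| ≤ 1 := by
    intro t ht
    rw [abs_le]
    constructor <;> linarith [ht.1, ht.2]
  have habs1 : ∀ t ∈ Set.Icc (0 : ℝ) 1, |(2 * t - 1) * d| ≤ d := by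
    intro t ht
    rw [abs_mul, abs_of_pos hdpos]
    nlinarith [habs t ht]
  have habs2 : ∀ t ∈ Set.Icc (0 : ℝ) 1, |(2 * t - 1) * d'| ≤ d' := by
    intro t ht
    rw [abs_mul, abs_of_pos hd'pos]
    nlinarith [habs t ht]
  have hχin : ∀ p ∈ (Set.Icc (0 : ℝ) 1 ×ˢ Set.Icc (0 : ℝ) 1), χ p ∈ Metric.ball z r := by
    rintro ⟨x, y⟩ ⟨hx, hy⟩
    exact hin _ _ (habs1 x hx) ((habs2 y hy).trans hd'd)
  obtain ⟨hbox1, hbox2⟩ := t_BOX φ χ (φ z) (by
      have g1 : Continuous fun p : ℝ × ℝ => (2 * p.1 - 1) * d := by fun_prop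
      have g2 : Continuous fun p : ℝ × ℝ => (2 * p.2 - 1) * d' := by fun_prop
      exact (continuous_const.add (g1.smul continuous_const)).add (g2.smul continuous_const))
    (by
      rintro w ⟨p, hp, rfl⟩
      exact (hb _ (hχin p hp)).1.continuousAt.continuousWithinAt)
    (by
      intro y hy x1 hx1 x2 hx2 h12
      exact (hmono _ ((habs2 y hy).trans hd'd)).monotoneOn (abs_le.1 (habs1 x1 hx1))
        (abs_le.1 (habs1 x2 hx2)) (by nlinarith))
    (by
      intro y hy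
      apply hδb
      rw [Metric.mem_ball, dist_eq_norm]
      have h1 : χ (0, y) - (z + (-d) • e) = ((2 * y - 1) * d') • (Complex.I * e) := by
        simp only [hχ]
        have : (2 * (0 : ℝ) - 1) * d = -d := by ring
        rw [this]
        ring
      rw [h1, norm_smul, hIe, mul_one, Real.norm_eq_abs]
      refine lt_of_le_of_lt (habs2 y hy) ?_
      refine lt_of_le_of_lt (min_le_right _ _) ?_
      linarith)
  refine ⟨χ '' (Set.Icc 0 1 ×ˢ Set.Icc 0 1), ?_, ?_, hbox1, hbox2⟩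
  · rintro w ⟨p, hp, rfl⟩
    have h1 := hχin p hp
    refine ⟨Metric.ball_subset_ball (min_le_right _ _) h1, ?_⟩
    rw [Metric.mem_closedBall, dist_zero_right]
    exact (hb _ h1).2.2.le
  · apply mem_nhdsWithin_of_mem_nhds
    rw [Metric.mem_nhds_iff]
    refine ⟨d', hd'pos, fun w hw => ?_⟩
    rw [Metric.mem_ball, dist_eq_norm] at hw
    have hene : e ≠ 0 := by
      rintro rfl
      simp at he1
    set q : ℂ := (w - z) / e with hq
    have hqn : ‖q‖ < d' := by rw [hq, norm_div, he1, div_one]; exact hw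
    have hqre : |q.re| < d' := lt_of_le_of_lt (Complex.abs_re_le_norm q) hqn
    have hqim : |q.im| < d' := lt_of_le_of_lt (Complex.abs_im_le_norm q) hqn
    refine ⟨((q.re / d + 1) / 2, (q.im / d' + 1) / 2), ⟨?_, ?_⟩, ?_⟩
    · have h1 : |q.re / d| ≤ 1 := by
        rw [abs_div, abs_of_pos hdpos, div_le_one hdpos]
        linarith
      rw [abs_le] at h1
      constructor
      · show 0 ≤ (q.re / d + 1) / 2
        linarith
      · show (q.re / d + 1) / 2 ≤ 1
        linarith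
    · have h1 : |q.im / d'| ≤ 1 := by
        rw [abs_div, abs_of_pos hd'pos, div_le_one hd'pos]
        linarith
      rw [abs_le] at h1
      constructor
      · show 0 ≤ (q.im / d' + 1) / 2
        linarith
      · show (q.im / d' + 1) / 2 ≤ 1
        linarith
    · show z + ((2 * ((q.re / d + 1) / 2) - 1) * d) • e +
        ((2 * ((q.im / d' + 1) / 2) - 1) * d') • (Complex.I * e) = w
      have h1 : (2 * ((q.re / d + 1) / 2) - 1) * d = q.re := by
        field_simp
        ring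
      have h2 : (2 * ((q.im / d' + 1) / 2) - 1) * d' = q.im := by
        field_simp
        ring
      rw [h1, h2, Complex.real_smul, Complex.real_smul]
      have h3 : z + (q.re : ℂ) * e + (q.im : ℂ) * (Complex.I * e)
          = z + ((q.re : ℂ) + (q.im : ℂ) * Complex.I) * e := by ring
      rw [h3, Complex.re_add_im, hq, div_mul_cancel₀ _ hene]
      ring

end Pool.Agent.K1H41.OV
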