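import Pool.Agent.K1H41.OV.T_HOM

/-! Piece OV-SPH (S_CU, S_SPH): umbilic points (helper65 for helper41). -/

set_option autoImplicit false

namespace Pool.Agent.K1H41.OV

open scoped RealInnerProductSpace Topology ContDiff
open Filter

namespace SPH

open HOM

/-- derivatives along lines -/
theorem lineD {G : Type} [NormedAddCommGroup G] [NormedSpace ℝ G] {F : E3 → G} {L : E3 →L[ℝ] G}
    {v : E3} (hF : HasFDerivAt F L v) (u : E3) : HasDerivAt (fun t : ℝ => F (v + t • u)) (L u) 0 := by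
  have h1 : HasDerivAt (fun t : ℝ => v + t • u) u 0 := by
    have := ((hasDerivAt_id (0 : ℝ)).smul_const u).const_add v
    rwa [one_smul] at this
  have h2 : HasFDerivAt F L (v + (0 : ℝ) • u) := by rwa [zero_smul, add_zero]
  exact h2.comp_hasDerivAt 0 h1

theorem d1_line {h : E3 → ℝ} (hh : SF h) {v : E3} (hv : v ≠ 0) (u a : E3) :
    HasDerivAt (fun t : ℝ => d1 h (v + t • u) a) (d2 h v u a) 0 := by
  have h1 := lineD ((dAt1 hh hv).clm_apply (hasFDerivAt_const a v)) u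
  have h2 : ((fderiv ℝ h v).comp (0 : E3 →L[ℝ] E3) + (fderiv ℝ (fderiv ℝ h) v).flip a) u =
      d2 h v u a := by
    simp [d2]
  rw [h2] at h1
  exact h1

theorem d2_line {h : E3 → ℝ} (hh : SF h) {v : E3} (hv : v ≠ 0) (u a b : E3) :
    HasDerivAt (fun t : ℝ => d2 h (v + t • u) a b) (d3 h v u a b) 0 := by
  have h1 := ((dAt2 hh hv).clm_apply (hasFDerivAt_const a v)).clm_apply (hasFDerivAt_const b v)
  refine (lineD h1 u).congr_deriv ?_
  simp [d3]

theorem near_ne {v : E3} (hv : v ≠ 0) (u : E3) : ∀ᶠ t : ℝ in 𝓝 0, v + t • u ≠ 0 := by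
  have h1 : Continuous fun t : ℝ => v + t • u := by fun_prop
  have h2 : v + (0 : ℝ) • u ≠ 0 := by rwa [zero_smul, add_zero]
  exact h1.continuousAt.eventually_ne h2

/-- the derivative of the norm -/
theorem norm_fd {y : E3} (hy : y ≠ 0) : HasFDerivAt (fun x : E3 => ‖x‖) (‖y‖⁻¹ • innerSL ℝ y) y := by
  have h1 : HasFDerivAt (fun x : E3 => ‖x‖ ^ 2) (2 • innerSL ℝ y) y := by
    have := (hasStrictFDerivAt_norm_sq y).hasFDerivAt
    simpa using this
  have hpos : 0 < ‖y‖ := norm_pos_iff.2 hy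
  have h2 := h1.sqrt (by positivity)
  have h3 : (fun x : E3 => √(‖x‖ ^ 2)) = fun x => ‖x‖ := by
    funext x
    exact Real.sqrt_sq (norm_nonneg x)
  rw [h3] at h2
  refine h2.congr_fderiv ?_
  rw [Real.sqrt_sq hpos.le]
  ext x
  simp
  field_simp

end SPH

open HOM SPH

theorem t_CU (h0 : S_HOM) : S_CU := by
  intro h p O hh hO hC v hv hv1
  have hvne : v ≠ 0 := by
    intro h0
    rw [h0, norm_zero] at hv1
    exact zero_ne_one hv1
  -- the formula for the derivative near `v`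
  have hnear : ∀ᶠ y in 𝓝 v, y ≠ 0 ∧ ‖y‖⁻¹ • y ∈ O := by
    have hc : ContinuousAt (fun y : E3 => ‖y‖⁻¹ • y) v :=
      (continuousAt_id.norm.inv₀ (by rw [id, hv1]; exact one_ne_zero)).smul continuousAt_id
    have h1 : (fun y : E3 => ‖y‖⁻¹ • y) v ∈ O := by
      change ‖v‖⁻¹ • v ∈ O
      rwa [hv1, inv_one, one_smul]
    filter_upwards [isOpen_compl_singleton.mem_nhds hvne, hc.preimage_mem_nhds (hO.mem_nhds h1)]
      with y hy1 hy2
    exact ⟨hy1, hy2⟩
  have hform : ∀ y : E3, y ≠ 0 → ‖y‖⁻¹ • y ∈ O → ∀ w, d1 h y w =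
      ⟪p, w⟫ + ⟪y, w⟫ * ((h y - ⟪p, y⟫) / ‖y‖ ^ 2) := by
    intro y hy hyO w
    have hpos : 0 < ‖y‖ := norm_pos_iff.2 hy
    have hn : ‖‖y‖⁻¹ • y‖ = 1 := by
      rw [norm_smul, norm_inv, norm_norm, inv_mul_cancel₀ hpos.ne']
    obtain ⟨-, hcr⟩ := hC _ hyO hn
    have h5 := (h0 h hh y hy).2.2.2.2.1 ‖y‖⁻¹ (inv_pos.2 hpos)
    have hyy := (h0 h hh y hy).1
    have h6 : ∀ w', ⟪y, w'⟫ = 0 → d1 h y w' = ⟪p, w'⟫ := by
      intro w' hw'
      rw [← h5 w']
      refine hcr w' ?_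
      rw [real_inner_smul_left, hw', mul_zero]
    have h7 := h6 (w - (⟪y, w⟫ / ‖y‖ ^ 2) • y) (by
      rw [inner_sub_right, real_inner_smul_right, real_inner_self_eq_norm_sq,
        div_mul_cancel₀ _ (by positivity), sub_self])
    have h8 : d1 h y (w - (⟪y, w⟫ / ‖y‖ ^ 2) • y) = d1 h y w - ⟪y, w⟫ / ‖y‖ ^ 2 * d1 h y y := by
      unfold d1
      rw [map_sub, map_smul, smul_eq_mul]
    rw [h8, hyy, inner_sub_right, real_inner_smul_right] at h7
    field_simp at h7 ⊢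
    linarith
  refine ⟨h v - ⟪p, v⟫, fun w hw => ?_⟩
  -- differentiate along `v + t w`
  have hl := d1_line hh hvne w w
  let K : E3 → ℝ := fun y => (h y - ⟪p, y⟫) / ‖y‖ ^ 2
  have hK : DifferentiableAt ℝ K v := by
    have k1 : DifferentiableAt ℝ (fun y : E3 => h y - ⟪p, y⟫) v :=
      (dAt hh hvne).differentiableAt.sub ((innerSL ℝ p).differentiableAt)
    have k2 : DifferentiableAt ℝ (fun y : E3 => ‖y‖ ^ 2) v :=
      (hasStrictFDerivAt_norm_sq v).hasFDerivAt.differentiableAt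
    have k3 := k1.fun_mul (k2.fun_inv (by rw [hv1]; norm_num))
    simpa only [K, div_eq_mul_inv] using k3
  have hg := lineD hK.hasFDerivAt w
  have hr : HasDerivAt (fun t : ℝ => ⟪p, w⟫ + (t * ‖w‖ ^ 2) * K (v + t • w)) (‖w‖ ^ 2 * K v) 0 := by
    have h1 := (((hasDerivAt_id (0 : ℝ)).mul_const (‖w‖ ^ 2)).mul hg).const_add ⟪p, w⟫
    refine h1.congr_deriv ?_
    simp
  have he : (fun t : ℝ => d1 h (v + t • w) w) =ᶠ[𝓝 0]
      fun t : ℝ => ⟪p, w⟫ + (t * ‖w‖ ^ 2) * K (v + t • w) := by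
    have hc : ContinuousAt (fun t : ℝ => v + t • w) 0 := by fun_prop
    have h1 : Tendsto (fun t : ℝ => v + t • w) (𝓝 0) (𝓝 v) := by
      have := hc.tendsto
      rwa [zero_smul, add_zero] at this
    filter_upwards [h1.eventually hnear] with t ht
    rw [hform _ ht.1 ht.2]
    congr 2
    rw [inner_add_left, hw, real_inner_smul_left, real_inner_self_eq_norm_sq, zero_add]
  have h9 := hl.unique (hr.congr_of_eventuallyEq he)
  rw [h9]
  change ‖w‖ ^ 2 * ((h v - ⟪p, v⟫) / ‖v‖ ^ 2) = _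
  rw [hv1]
  ring

/-- in dimension three there is a vector orthogonal to two given vectors -/
theorem SPH.exists_orth (v w : E3) : ∃ u : E3, u ≠ 0 ∧ ⟪v, u⟫ = 0 ∧ ⟪w, u⟫ = 0 := by
  classical
  have h1 : Submodule.span ℝ ({v, w} : Set E3) ≠ ⊤ := by
    intro h
    have h2 : Module.finrank ℝ (Submodule.span ℝ ({v, w} : Set E3)) ≤ 2 := by
      have := finrank_span_finset_le_card (R := ℝ) ({v, w} : Finset E3)
      rw [Finset.coe_insert, Finset.coe_singleton] at this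
      exact this.trans Finset.card_le_two
    rw [h, finrank_top, finrank_euclideanSpace_fin] at h2
    omega
  have h2 : (Submodule.span ℝ ({v, w} : Set E3))ᗮ ≠ ⊥ := fun h =>
    h1 (Submodule.orthogonal_eq_bot_iff.mp h)
  obtain ⟨u, hu, hu0⟩ := Submodule.exists_mem_ne_zero_of_ne_bot h2
  refine ⟨u, hu0, ?_, ?_⟩
  · exact (Submodule.mem_orthogonal _ _).mp hu v (Submodule.subset_span (by simp))
  · exact (Submodule.mem_orthogonal _ _).mp hu w (Submodule.subset_span (by simp))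

/-- half of the trace of the second derivative -/
noncomputable def SPH.RR (h : E3 → ℝ) (y : E3) : ℝ :=
  (1 / 2) * ∑ i : Fin 3, d2 h y (EuclideanSpace.single i 1) (EuclideanSpace.single i 1)

theorem SPH.unit_form (h0 : S_HOM) {h : E3 → ℝ} (hh : SF h) {v : E3} (hv : ‖v‖ = 1) {ρ : ℝ}
    (hρ : ∀ w, ⟪v, w⟫ = 0 → d2 h v w w = ρ * ‖w‖ ^ 2) (a b : E3) :
    d2 h v a b = ρ * (⟪a, b⟫ - ⟪v, a⟫ * ⟪v, b⟫) := by
  have hvne : v ≠ 0 := by
    intro h0
    rw [h0, norm_zero] at hv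
    exact zero_ne_one hv
  obtain ⟨-, hz, hs, -, -, -⟩ := h0 h hh v hvne
  have hadd : ∀ x y z, d2 h v (x + y) z = d2 h v x z + d2 h v y z := fun x y z => by
    unfold d2
    rw [map_add]
    rfl
  have hadd' : ∀ x y z, d2 h v z (x + y) = d2 h v z x + d2 h v z y := fun x y z => by
    unfold d2
    rw [map_add]
  have hsm : ∀ (c : ℝ) x z, d2 h v (c • x) z = c * d2 h v x z := fun c x z => by
    unfold d2
    rw [map_smul]
    rfl
  have hsm' : ∀ (c : ℝ) x z, d2 h v z (c • x) = c * d2 h v z x := fun c x z => by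
    unfold d2
    rw [map_smul, smul_eq_mul]
  have hvv : ⟪v, v⟫ = (1 : ℝ) := by rw [real_inner_self_eq_norm_sq, hv, one_pow]
  obtain ⟨a', ha'⟩ : ∃ a', a' = a + (-⟪v, a⟫) • v := ⟨_, rfl⟩
  obtain ⟨b', hb'⟩ : ∃ b', b' = b + (-⟪v, b⟫) • v := ⟨_, rfl⟩
  have hva : ⟪v, a'⟫ = 0 := by
    rw [ha', inner_add_right, real_inner_smul_right, hvv]
    ring
  have hvb : ⟪v, b'⟫ = 0 := by
    rw [hb', inner_add_right, real_inner_smul_right, hvv]
    ring
  have e1 : d2 h v a b = d2 h v a' b' := by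
    rw [ha', hb', hadd, hadd', hadd', hsm, hsm, hsm', hsm', (hz b).1, (hz a).2, (hz v).1]
    ring
  have e2 := hρ a' hva
  have e3 := hρ b' hvb
  have e4 := hρ (a' + b') (by rw [inner_add_right, hva, hvb, add_zero])
  rw [hadd, hadd', hadd', hs b' a', e2, e3] at e4
  have e5 := norm_add_sq_real a' b'
  have e6 : d2 h v a' b' = ρ * ⟪a', b'⟫ := by
    rw [e5] at e4
    linarith
  have e7 : ⟪a', b'⟫ = ⟪a, b⟫ - ⟪v, a⟫ * ⟪v, b⟫ := by
    rw [ha', hb', inner_add_left, inner_add_right, inner_add_right, real_inner_smul_left,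
      real_inner_smul_left, real_inner_smul_right, real_inner_smul_right, hvv, real_inner_comm v a]
    ring
  rw [e1, e6, e7]

theorem SPH.form (h0 : S_HOM) {h : E3 → ℝ} (hh : SF h) (hU : ∀ v, ‖v‖ = 1 → Umb h v) {y : E3}
    (hy : y ≠ 0) (a b : E3) : d2 h y a b = SPH.RR h y * (⟪a, b⟫ - ⟪y, a⟫ * ⟪y, b⟫ / ‖y‖ ^ 2) := by
  have hpos : 0 < ‖y‖ := norm_pos_iff.2 hy
  obtain ⟨v, hvdef⟩ : ∃ v, v = ‖y‖⁻¹ • y := ⟨_, rfl⟩
  have hn : ‖v‖ = 1 := by
    rw [hvdef, norm_smul, norm_inv, norm_norm, inv_mul_cancel₀ hpos.ne']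
  have hvne : v ≠ 0 := by
    intro h0
    rw [h0, norm_zero] at hn
    exact zero_ne_one hn
  have hyv : y = ‖y‖ • v := by
    rw [hvdef, smul_smul, mul_inv_cancel₀ hpos.ne', one_smul]
  obtain ⟨ρ, hρ⟩ := hU v hn
  have h1 : ∀ a b, d2 h y a b = ‖y‖⁻¹ * (ρ * (⟪a, b⟫ - ⟪v, a⟫ * ⟪v, b⟫)) := by
    intro a b
    conv_lhs => rw [hyv]
    rw [(h0 h hh v hvne).2.2.2.2.2 ‖y‖ hpos a b, SPH.unit_form h0 hh hn hρ]
  have h2 : SPH.RR h y = ‖y‖⁻¹ * ρ := by
    unfold SPH.RR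
    have h3 : ∀ i : Fin 3, d2 h y (EuclideanSpace.single i 1) (EuclideanSpace.single i 1) =
        ‖y‖⁻¹ * (ρ * (1 - v i * v i)) := by
      intro i
      rw [h1, EuclideanSpace.inner_single_left, EuclideanSpace.inner_single_right]
      simp
    rw [Finset.sum_congr rfl fun i _ => h3 i]
    have h4 : ∑ i : Fin 3, v i * v i = 1 := by
      have h5 := EuclideanSpace.real_norm_sq_eq v
      rw [hn] at h5
      rw [one_pow] at h5
      rw [h5]
      refine Finset.sum_congr rfl fun i _ => ?_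
      ring
    rw [Fin.sum_univ_three] at h4 ⊢
    linear_combination (-1 / 2) * ‖y‖⁻¹ * ρ * h4
  rw [h1, h2, hvdef, real_inner_smul_left, real_inner_smul_left]
  field_simp

/-- off the origin the function `RR` is smooth and `‖y‖ * RR y` is constant -/
theorem SPH.const (h0 : S_HOM) {h : E3 → ℝ} (hh : SF h) (hU : ∀ v, ‖v‖ = 1 → Umb h v) :
    ∃ r : ℝ, ∀ y : E3, y ≠ 0 → ‖y‖ * SPH.RR h y = r := by
  have hRd : ∀ y : E3, y ≠ 0 → DifferentiableAt ℝ (SPH.RR h) y := by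
    intro y hy
    unfold SPH.RR
    refine DifferentiableAt.const_mul ?_ _
    refine DifferentiableAt.fun_sum fun i _ => ?_
    exact (((dAt2 hh hy).clm_apply (hasFDerivAt_const _ y)).clm_apply
      (hasFDerivAt_const _ y)).differentiableAt
  -- derivative in orthogonal directions
  have hw : ∀ y : E3, y ≠ 0 → ∀ w, ⟪y, w⟫ = 0 → fderiv ℝ (SPH.RR h) y w = 0 := by
    intro y hy w hyw
    obtain ⟨u, hu0, hyu, hwu⟩ := SPH.exists_orth y w
    have hun : 0 < ‖u‖ ^ 2 := by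
      have : 0 < ‖u‖ := norm_pos_iff.2 hu0
      positivity
    have h1 := d2_line hh hy w u u
    have h2 : HasDerivAt (fun t : ℝ => SPH.RR h (y + t • w) * ‖u‖ ^ 2)
        (fderiv ℝ (SPH.RR h) y w * ‖u‖ ^ 2) 0 := (lineD (hRd y hy).hasFDerivAt w).mul_const _
    have h3 : (fun t : ℝ => d2 h (y + t • w) u u) =ᶠ[𝓝 0]
        fun t : ℝ => SPH.RR h (y + t • w) * ‖u‖ ^ 2 := by
      filter_upwards [near_ne hy w] with t ht
      rw [SPH.form h0 hh hU ht, inner_add_left, real_inner_smul_left, hyu, hwu,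
        real_inner_self_eq_norm_sq]
      ring
    have h4 := h1.unique (h2.congr_of_eventuallyEq h3)
    have k1 := d2_line hh hy u w u
    have k3 : (fun t : ℝ => d2 h (y + t • u) w u) =ᶠ[𝓝 0] fun t : ℝ => (0 : ℝ) := by
      filter_upwards [near_ne hy u] with t ht
      rw [SPH.form h0 hh hU ht, inner_add_left, real_inner_smul_left, hyw, real_inner_comm w u, hwu]
      ring
    have k4 := k1.unique ((hasDerivAt_const (0 : ℝ) (0 : ℝ)).congr_of_eventuallyEq k3)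
    have h5 := ((h0 h hh y hy).2.2.2.1 w u u).1
    rw [h4, k4] at h5
    rcases mul_eq_zero.mp h5 with h6 | h6
    · exact h6
    · exact absurd h6 hun.ne'
  let T : E3 → ℝ := fun y => ‖y‖ * SPH.RR h y
  have hTd : ∀ y : E3, y ≠ 0 → HasFDerivAt T (‖y‖ • fderiv ℝ (SPH.RR h) y +
      SPH.RR h y • (‖y‖⁻¹ • innerSL ℝ y)) y := fun y hy =>
    (norm_fd hy).fun_mul (hRd y hy).hasFDerivAt
  have hTh : ∀ y : E3, y ≠ 0 → ∀ c : ℝ, 0 < c → T (c • y) = T y := by
    intro y hy c hc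
    have hpos : 0 < ‖y‖ := norm_pos_iff.2 hy
    change ‖c • y‖ * SPH.RR h (c • y) = ‖y‖ * SPH.RR h y
    unfold SPH.RR
    rw [norm_smul, Real.norm_of_nonneg hc.le]
    have h1 : ∀ i : Fin 3, d2 h (c • y) (EuclideanSpace.single i 1) (EuclideanSpace.single i 1) =
        c⁻¹ * d2 h y (EuclideanSpace.single i 1) (EuclideanSpace.single i 1) := fun i =>
      (h0 h hh y hy).2.2.2.2.2 c hc _ _
    rw [Finset.sum_congr rfl fun i _ => h1 i, ← Finset.mul_sum]
    field_simp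
  have hT0 : ∀ y : E3, y ≠ 0 → fderiv ℝ T y = 0 := by
    intro y hy
    have hpos : 0 < ‖y‖ := norm_pos_iff.2 hy
    have hyT : fderiv ℝ T y y = 0 := by
      have h1 := ray (hTd y hy).differentiableAt.hasFDerivAt
      have h2 : HasDerivAt (fun c : ℝ => T (c • y)) 0 1 := by
        refine (hasDerivAt_const (1 : ℝ) (T y)).congr_of_eventuallyEq ?_
        filter_upwards [lt_mem_nhds (one_pos : (0 : ℝ) < 1)] with c hc
        exact hTh y hy c hc
      exact h1.unique h2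
    ext x
    have hx : x = (⟪y, x⟫ / ‖y‖ ^ 2) • y + (x - (⟪y, x⟫ / ‖y‖ ^ 2) • y) := by abel
    have hort : ⟪y, x - (⟪y, x⟫ / ‖y‖ ^ 2) • y⟫ = 0 := by
      rw [inner_sub_right, real_inner_smul_right, real_inner_self_eq_norm_sq,
        div_mul_cancel₀ _ (by positivity), sub_self]
    have h2 : fderiv ℝ T y (x - (⟪y, x⟫ / ‖y‖ ^ 2) • y) = 0 := by
      rw [(hTd y hy).fderiv]
      change ‖y‖ • fderiv ℝ (SPH.RR h) y (x - (⟪y, x⟫ / ‖y‖ ^ 2) • y) +
        SPH.RR h y • (‖y‖⁻¹ • ⟪y, x - (⟪y, x⟫ / ‖y‖ ^ 2) • y⟫) = 0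
      rw [hort, hw y hy _ hort, smul_zero, smul_zero, smul_zero, add_zero]
    rw [hx, map_add, map_smul, hyT, h2]
    simp
  have hconn : IsPreconnected ({0}ᶜ : Set E3) := by
    refine (isConnected_compl_singleton_of_one_lt_rank ?_ 0).isPreconnected
    rw [← Module.finrank_eq_rank, finrank_euclideanSpace_fin]
    norm_num
  obtain ⟨r, hr⟩ := isOpen_compl_singleton.exists_is_const_of_fderiv_eq_zero hconn
    (f := T) (𝕜 := ℝ) (fun y hy => (hTd y hy).differentiableAt.differentiableWithinAt)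
    (fun y hy => hT0 y hy)
  exact ⟨r, fun y hy => hr y hy⟩

theorem t_SPH (h0 : S_HOM) : S_SPH := by
  intro h hh hU
  obtain ⟨r, hr⟩ := SPH.const h0 hh hU
  have hRR : ∀ y : E3, y ≠ 0 → SPH.RR h y = r / ‖y‖ := by
    intro y hy
    have hpos : 0 < ‖y‖ := norm_pos_iff.2 hy
    rw [← hr y hy]
    field_simp
  obtain ⟨y₀, hy₀⟩ : ∃ y₀ : E3, y₀ ≠ 0 := ⟨EuclideanSpace.single 0 1, by
    intro h
    have := congrArg (fun v : E3 => v 0) h
    simp at this⟩
  have hrpos : 0 < r := by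
    obtain ⟨u, hu0, hu1, -⟩ := SPH.exists_orth y₀ 0
    have h1 := hh.pos y₀ hy₀ u hu1 hu0
    rw [SPH.form h0 hh hU hy₀, hu1, zero_mul, zero_div, sub_zero, real_inner_self_eq_norm_sq,
      hRR y₀ hy₀] at h1
    have hpos : 0 < ‖y₀‖ := norm_pos_iff.2 hy₀
    have hpos2 : 0 < ‖u‖ ^ 2 := by
      have : 0 < ‖u‖ := norm_pos_iff.2 hu0
      positivity
    by_contra hcon
    push Not at hcon
    have : r / ‖y₀‖ * ‖u‖ ^ 2 ≤ 0 :=
      mul_nonpos_of_nonpos_of_nonneg (div_nonpos_of_nonpos_of_nonneg hcon hpos.le) hpos2.le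
    linarith
  have hconn : IsPreconnected ({0}ᶜ : Set E3) := by
    refine (isConnected_compl_singleton_of_one_lt_rank ?_ 0).isPreconnected
    rw [← Module.finrank_eq_rank, finrank_euclideanSpace_fin]
    norm_num
  -- the first derivative minus the one of the norm is constant
  have hg : ∀ b : E3, ∀ y : E3, y ≠ 0 →
      d1 h y b - r * (⟪y, b⟫ * ‖y‖⁻¹) = d1 h y₀ b - r * (⟪y₀, b⟫ * ‖y₀‖⁻¹) := by
    intro b
    have hgd : ∀ y : E3, y ≠ 0 → DifferentiableAt ℝ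
        (fun y : E3 => d1 h y b - r * (⟪y, b⟫ * ‖y‖⁻¹)) y := by
      intro y hy
      have hpos : 0 < ‖y‖ := norm_pos_iff.2 hy
      have k1 : DifferentiableAt ℝ (fun y : E3 => d1 h y b) y :=
        ((dAt1 hh hy).clm_apply (hasFDerivAt_const b y)).differentiableAt
      have k2 : DifferentiableAt ℝ (fun y : E3 => ⟪y, b⟫) y :=
        (differentiableAt_id.inner ℝ (differentiableAt_const b))
      have k3 : DifferentiableAt ℝ (fun y : E3 => ‖y‖⁻¹) y :=
        (norm_fd hy).differentiableAt.fun_inv hpos.ne'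
      exact k1.fun_sub ((k2.fun_mul k3).const_mul r)
    have hg0 : ∀ y : E3, y ≠ 0 →
        fderiv ℝ (fun y : E3 => d1 h y b - r * (⟪y, b⟫ * ‖y‖⁻¹)) y = 0 := by
      intro y hy
      have hpos : 0 < ‖y‖ := norm_pos_iff.2 hy
      ext a
      have h1 := lineD (hgd y hy).hasFDerivAt a
      have h2 := d1_line hh hy a b
      have h3 : HasDerivAt (fun t : ℝ => ⟪y + t • a, b⟫) ⟪a, b⟫ 0 := by
        have h4 : (fun t : ℝ => ⟪y + t • a, b⟫) = fun t : ℝ => ⟪y, b⟫ + t * ⟪a, b⟫ := by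
          funext t
          rw [inner_add_left, real_inner_smul_left]
        rw [h4]
        have h5 := ((hasDerivAt_id (0 : ℝ)).mul_const (⟪a, b⟫ : ℝ)).const_add (⟪y, b⟫ : ℝ)
        rwa [one_mul] at h5
      have h4 : HasDerivAt (fun t : ℝ => ‖y + t • a‖) (‖y‖⁻¹ * ⟪y, a⟫) 0 :=
        lineD (norm_fd hy) a
      have h5 := h4.fun_inv (by rw [zero_smul, add_zero]; exact hpos.ne')
      have h6 := h2.fun_sub ((h3.fun_mul h5).const_mul r)
      have h7 := h1.unique h6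
      rw [h7, SPH.form h0 hh hU hy, hRR y hy]
      simp only [zero_smul, add_zero]
      change _ = (0 : ℝ)
      field_simp
      ring
    obtain ⟨c, hc⟩ := isOpen_compl_singleton.exists_is_const_of_fderiv_eq_zero hconn
      (f := fun y : E3 => d1 h y b - r * (⟪y, b⟫ * ‖y‖⁻¹)) (𝕜 := ℝ)
      (fun y hy => (hgd y hy).differentiableWithinAt) (fun y hy => hg0 y hy)
    intro y hy
    exact (hc y hy).trans (hc y₀ hy₀).symm
  refine ⟨(InnerProductSpace.toDual ℝ E3).symm (fderiv ℝ h y₀) - (r * ‖y₀‖⁻¹) • y₀, r, hrpos,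
    fun v hv => ?_⟩
  have hpos : 0 < ‖v‖ := norm_pos_iff.2 hv
  rw [inner_sub_left, InnerProductSpace.toDual_symm_apply, real_inner_smul_left]
  have h1 := hg v v hv
  rw [(h0 h hh v hv).1, real_inner_self_eq_norm_sq] at h1
  unfold d1 at h1
  have h2 : r * (‖v‖ ^ 2 * ‖v‖⁻¹) = r * ‖v‖ := by
    field_simp
  rw [h2] at h1
  linarith

end Pool.Agent.K1H41.OV
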