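import Pool.Agent.K1H41.OV.Stm

/-! STR: strict local minimum and maximum on the circle -/

set_option autoImplicit false

namespace Pool.Agent.K1H41.OV

open scoped RealInnerProductSpace Topology ContDiff

private theorem str_hat_norm {v₀ e₁ e₂ : E3} (hF : Frame v₀ e₁ e₂) (u : ℂ) :
    ‖hat e₁ e₂ u‖ = ‖u‖ := by
  have h1 : ‖hat e₁ e₂ u‖ ^ 2 = ‖u‖ ^ 2 := by
    unfold hat
    rw [norm_add_sq_real, norm_smul, norm_smul, hF.n1, hF.n2, inner_smul_left, inner_smul_right,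
      hF.o12, ← Complex.normSq_eq_norm_sq, Complex.normSq_apply]
    simp only [mul_one, mul_zero, add_zero, Real.norm_eq_abs, sq_abs]
    ring
  exact (sq_eq_sq₀ (norm_nonneg _) (norm_nonneg _)).1 h1

private theorem str_hat_cont (e₁ e₂ : E3) : Continuous (hat e₁ e₂) := by
  unfold hat
  exact (Complex.continuous_re.smul continuous_const).add
    (Complex.continuous_im.smul continuous_const)

private theorem str_A {h : E3 → ℝ} {v₀ e₁ e₂ : E3} (h12 : d2 h v₀ e₁ e₂ = 0)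
    (h21 : d2 h v₀ e₂ e₁ = 0) (u : ℂ) : d2 h v₀ (hat e₁ e₂ u) (hat e₁ e₂ u) =
      d2 h v₀ e₁ e₁ * u.re ^ 2 + d2 h v₀ e₂ e₂ * u.im ^ 2 := by
  unfold hat
  unfold d2 at *
  simp only [map_add, map_smul, add_apply, FunLike.coe_smul, Pi.smul_apply,
    smul_eq_mul, h12, h21]
  ring

private theorem str_T_cont (h : E3 → ℝ) (v₀ e₁ e₂ : E3) :
    Continuous fun u : ℂ => d3 h v₀ (hat e₁ e₂ u) (hat e₁ e₂ u) (hat e₁ e₂ u) := by
  unfold d3
  have h1 := str_hat_cont e₁ e₂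
  exact (((fderiv ℝ (fderiv ℝ (fderiv ℝ h)) v₀).continuous.comp h1).clm_apply h1).clm_apply h1

private theorem str_d3_neg (h : E3 → ℝ) (v₀ e : E3) : d3 h v₀ (-e) (-e) (-e) = -d3 h v₀ e e e := by
  unfold d3
  simp only [map_neg, neg_apply, neg_neg]

/-- the expansion near the circle -/
private theorem str_core (h1 : S_TAY) (h2 : S_POL) {h : E3 → ℝ} {v₀ e₁ e₂ : E3} (hh : SF h)
    (hF : Frame v₀ e₁ e₂) : ∃ C s₀ : ℝ, 0 < C ∧ 0 < s₀ ∧ ∀ (ρ : ℝ) (u : ℂ), 4 / 5 < ρ → ρ < 1 →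
      ‖u‖ = 1 → 8 * (1 - ρ) ≤ s₀ → ∃ s κ g : ℝ, 0 < s ∧ s ≤ 8 * (1 - ρ) ∧ 2 ≤ κ ∧
        κ ≤ 2 + 4 * s ^ 2 ∧ phi h v₀ e₁ e₂ (ρ * u) = κ * g ∧
        |g - d2 h v₀ (hat e₁ e₂ u) (hat e₁ e₂ u) / 2 -
          s * d3 h v₀ (hat e₁ e₂ u) (hat e₁ e₂ u) (hat e₁ e₂ u) / 6| ≤ C * s ^ 2 := by
  have hv0 : v₀ ≠ 0 := by
    rintro rfl
    have := hF.n0
    rw [norm_zero] at this
    exact zero_ne_one this
  have hsm : ContDiffAt ℝ ∞ h v₀ :=
    hh.smooth.contDiffAt (isOpen_compl_singleton.mem_nhds hv0)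
  obtain ⟨C, s₀, hC, hs₀, hT⟩ := h1 h v₀ hsm
  refine ⟨C, s₀, hC, hs₀, fun ρ u hρ hρ1 hu hs => ?_⟩
  obtain ⟨hpos, hphi⟩ := h2 h v₀ e₁ e₂ hh hF ρ u hρ hρ1 hu
  obtain ⟨w, hw⟩ : ∃ w : ℝ, w = 1 - ρ ^ 2 := ⟨_, rfl⟩
  rw [← hw] at hpos hphi
  have hw0 : 0 < w := by rw [hw]; nlinarith
  have hw1 : w ≤ 2 * (1 - ρ) := by rw [hw]; nlinarith
  have hw2 : w < 9 / 25 := by rw [hw]; nlinarith
  have hd : 1 / 2 < ρ ^ 2 - w ^ 2 := by nlinarith
  obtain ⟨s, hsd⟩ : ∃ s : ℝ, s = 2 * w * ρ / (ρ ^ 2 - w ^ 2) := ⟨_, rfl⟩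
  rw [← hsd] at hphi
  have hs0 : 0 < s := by rw [hsd]; positivity
  have hsle : s ≤ 8 * (1 - ρ) := by
    rw [hsd, div_le_iff₀ hpos]
    nlinarith
  have hws : w ≤ s := by
    rw [hsd, le_div_iff₀ hpos]
    nlinarith [mul_pos hw0 (by linarith : (0:ℝ) < ρ), mul_pos hw0 hw0]
  refine ⟨s, 2 * ρ ^ 2 / (ρ ^ 2 - w ^ 2), (h (v₀ + s • hat e₁ e₂ u) - h v₀ -
        d1 h v₀ (s • hat e₁ e₂ u)) / s ^ 2, hs0, hsle, ?_, ?_, hphi, ?_⟩
  · rw [le_div_iff₀ hpos]
    nlinarith [sq_nonneg w]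
  · rw [div_le_iff₀ hpos]
    have h3 : w ^ 2 ≤ s ^ 2 := by nlinarith
    nlinarith [mul_nonneg (sq_nonneg s) (by linarith : (0:ℝ) ≤ ρ ^ 2 - w ^ 2 - 1 / 2)]
  · have hn : ‖s • hat e₁ e₂ u‖ = s := by
      rw [norm_smul, str_hat_norm hF, hu, mul_one, Real.norm_of_nonneg hs0.le]
    have h3 := (hT (s • hat e₁ e₂ u) (by rw [hn]; linarith)).1
    rw [hn] at h3
    have h4 : d2 h v₀ (s • hat e₁ e₂ u) (s • hat e₁ e₂ u) =
        s ^ 2 * d2 h v₀ (hat e₁ e₂ u) (hat e₁ e₂ u) := by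
      unfold d2
      simp only [map_smul, FunLike.coe_smul, Pi.smul_apply, smul_eq_mul]
      ring
    have h5 : d3 h v₀ (s • hat e₁ e₂ u) (s • hat e₁ e₂ u) (s • hat e₁ e₂ u) =
        s ^ 3 * d3 h v₀ (hat e₁ e₂ u) (hat e₁ e₂ u) (hat e₁ e₂ u) := by
      unfold d3
      simp only [map_smul, FunLike.coe_smul, Pi.smul_apply, smul_eq_mul]
      ring
    rw [h4, h5] at h3
    have h6 : (h (v₀ + s • hat e₁ e₂ u) - h v₀ - d1 h v₀ (s • hat e₁ e₂ u)) / s ^ 2 -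
        d2 h v₀ (hat e₁ e₂ u) (hat e₁ e₂ u) / 2 -
        s * d3 h v₀ (hat e₁ e₂ u) (hat e₁ e₂ u) (hat e₁ e₂ u) / 6 =
        (h (v₀ + s • hat e₁ e₂ u) - h v₀ - d1 h v₀ (s • hat e₁ e₂ u) -
          s ^ 2 * d2 h v₀ (hat e₁ e₂ u) (hat e₁ e₂ u) / 2 -
          s ^ 3 * d3 h v₀ (hat e₁ e₂ u) (hat e₁ e₂ u) (hat e₁ e₂ u) / 6) / s ^ 2 := by
      field_simp
    rw [h6, abs_div, abs_of_pos (by positivity : 0 < s ^ 2), div_le_iff₀ (by positivity)]
    refine h3.trans (le_of_eq ?_)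
    ring

/-- polar coordinates near a point of the circle -/
private theorem str_polar (a : ℂ) (ha : ‖a‖ = 1) (δ : ℝ) (hδ1 : δ ≤ 1 / 5) (z : ℂ)
    (hz : ‖z‖ < 1) (hza : ‖z - a‖ < δ) : ∃ (ρ : ℝ) (u : ℂ), 4 / 5 < ρ ∧ ρ < 1 ∧ ‖u‖ = 1 ∧
      z = ρ * u ∧ 1 - ρ < δ ∧ ‖u - a‖ < 2 * δ := by
  have h1 : 1 - ‖z‖ < δ := by
    have h2 := norm_sub_norm_le a z
    rw [norm_sub_rev, ha] at h2
    linarith
  have hρ : 4 / 5 < ‖z‖ := by linarith
  have hρ0 : (‖z‖ : ℂ) ≠ 0 := by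
    rw [Ne, Complex.ofReal_eq_zero]
    linarith
  refine ⟨‖z‖, z / ‖z‖, hρ, hz, ?_, ?_, h1, ?_⟩
  · rw [norm_div, Complex.norm_real, norm_norm, div_self (by linarith)]
  · field_simp
  · have h2 : z / ‖z‖ - a = (z / ‖z‖) * (1 - ‖z‖) + (z - a) := by
      field_simp
      ring
    rw [h2]
    refine (norm_add_le _ _).trans_lt ?_
    have h3 : ‖z / (‖z‖ : ℂ) * (1 - ‖z‖)‖ = 1 - ‖z‖ := by
      rw [norm_mul, norm_div, Complex.norm_real, norm_norm, div_self (by linarith), one_mul]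
      rw [← Complex.ofReal_one, ← Complex.ofReal_sub, Complex.norm_real,
        Real.norm_of_nonneg (by linarith)]
    rw [h3]
    linarith

private theorem str_sq (u : ℂ) (hu : ‖u‖ = 1) : u.re ^ 2 + u.im ^ 2 = 1 := by
  have h1 : ‖u‖ ^ 2 = 1 := by rw [hu, one_pow]
  rw [← Complex.normSq_eq_norm_sq, Complex.normSq_apply] at h1
  linarith

private theorem str_pm (b z a : ℂ) (hb : ‖b‖ = 1) (ha : a = b ∨ a = -b) (hz : z = b ∨ z = -b)
    (h : ‖z - a‖ < 1) : z = a := by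
  rcases ha with rfl | rfl <;> rcases hz with rfl | rfl
  · rfl
  · exfalso
    have h1 : -a - a = -((2 : ℂ) * a) := by ring
    rw [h1, norm_neg, norm_mul, hb] at h
    norm_num at h
  · exfalso
    have h1 : z - -z = (2 : ℂ) * z := by ring
    rw [h1, norm_mul, hb] at h
    norm_num at h
  · rfl

theorem t_STR (h0 : S_HOM) (h1 : S_TAY) (h2 : S_POL) : S_STR := by
  intro h v₀ e₁ e₂ hh hF h12 hlt
  have hv0 : v₀ ≠ 0 := by
    rintro rfl
    have := hF.n0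
    rw [norm_zero] at this
    exact zero_ne_one this
  have he1 : e₁ ≠ 0 := by
    rintro rfl
    have := hF.n1
    rw [norm_zero] at this
    exact zero_ne_one this
  have hr1 : 0 < d2 h v₀ e₁ e₁ := hh.pos v₀ hv0 e₁ hF.o01 he1
  have h21 : d2 h v₀ e₂ e₁ = 0 := by
    rw [← (h0 h hh v₀ hv0).2.2.1 e₁ e₂, h12]
  have hA := str_A h12 h21
  obtain ⟨C, s₀, hC, hs₀, hcore⟩ := str_core h1 h2 hh hF
  have hTc := str_T_cont h v₀ e₁ e₂
  have hphi1 : ∀ z : ℂ, ‖z‖ = 1 → phi h v₀ e₁ e₂ z =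
      d2 h v₀ e₁ e₁ * z.re ^ 2 + d2 h v₀ e₂ e₂ * z.im ^ 2 := by
    intro z hz
    unfold phi
    rw [if_neg (by rw [hz]; exact lt_irrefl _), hA]
  generalize d2 h v₀ e₁ e₁ = r1 at hlt hr1 hA hphi1 ⊢
  generalize d2 h v₀ e₂ e₂ = r2 at hlt hA hphi1 ⊢
  refine ⟨fun hne => ?_, fun hne => ?_⟩
  · -- minimum
    obtain ⟨a, ha, τ, hτ, hTa⟩ : ∃ a : ℂ, (a = 1 ∨ a = -1) ∧ ∃ τ : ℝ, 0 < τ ∧
        d3 h v₀ (hat e₁ e₂ a) (hat e₁ e₂ a) (hat e₁ e₂ a) = τ := by
      rcases lt_or_gt_of_ne hne with h3 | h3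
      · refine ⟨-1, Or.inr rfl, -d3 h v₀ e₁ e₁ e₁, by linarith, ?_⟩
        have h4 : hat e₁ e₂ (-1) = -e₁ := by simp [hat]
        rw [h4, str_d3_neg]
      · refine ⟨1, Or.inl rfl, d3 h v₀ e₁ e₁ e₁, h3, ?_⟩
        have h4 : hat e₁ e₂ 1 = e₁ := by simp [hat]
        rw [h4]
    have han : ‖a‖ = 1 := by rcases ha with rfl | rfl <;> simp
    obtain ⟨δ₁, hδ₁, hδT⟩ := Metric.continuousAt_iff.1 (hTc.continuousAt (x := a)) (τ / 2)
      (by positivity)
    obtain ⟨δ, hδ, hd1, hd2, hd3, hd4⟩ : ∃ δ : ℝ, 0 < δ ∧ δ ≤ 1 / 5 ∧ 2 * δ ≤ δ₁ ∧ 8 * δ ≤ s₀ ∧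
        C * (8 * δ) ≤ τ / 24 := by
      refine ⟨min (1 / 5) (min (δ₁ / 2) (min (s₀ / 8) (τ / (192 * C)))), by positivity,
        min_le_left _ _, ?_, ?_, ?_⟩
      · have := (min_le_right (1 / 5 : ℝ) (min (δ₁ / 2) (min (s₀ / 8) (τ / (192 * C))))).trans
          (min_le_left _ _)
        linarith
      · have := ((min_le_right (1 / 5 : ℝ) (min (δ₁ / 2) (min (s₀ / 8) (τ / (192 * C))))).trans
          (min_le_right _ _)).trans (min_le_left _ _)
        linarith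
      · have := ((min_le_right (1 / 5 : ℝ) (min (δ₁ / 2) (min (s₀ / 8) (τ / (192 * C))))).trans
          (min_le_right _ _)).trans (min_le_right _ _)
        calc C * (8 * _) ≤ C * (8 * (τ / (192 * C))) := by gcongr
          _ = τ / 24 := by field_simp; norm_num
    refine ⟨a, ha, δ, hδ, fun z hz hza hzd => ?_⟩
    have hz1 : ‖z‖ ≤ 1 := by simpa using hz
    rcases lt_or_eq_of_le hz1 with hz2 | hz2
    · obtain ⟨ρ, u, hρ, hρ1, hu, rfl, h3, h4⟩ := str_polar a han δ hd1 z hz2 hzd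
      obtain ⟨s, κ, g, hs, hs8, hκ, -, hφ, hg⟩ := hcore ρ u hρ hρ1 hu (by linarith)
      have h5 := hδT (x := u) (by rw [dist_eq_norm]; linarith)
      rw [Real.dist_eq, hTa] at h5
      have h6 := (abs_lt.1 h5).1
      have h7 := (abs_le.1 hg).1
      rw [hA] at h7
      have h8 := str_sq u hu
      generalize d3 h v₀ (hat e₁ e₂ u) (hat e₁ e₂ u) (hat e₁ e₂ u) = T at h6 h7
      have hA1 : r1 ≤ r1 * u.re ^ 2 + r2 * u.im ^ 2 := by
        have h9 : r1 * (u.re ^ 2 + u.im ^ 2) = r1 := by rw [h8, mul_one]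
        have h10 := mul_nonneg (sub_nonneg.2 hlt.le) (sq_nonneg u.im)
        linarith
      have h9 : C * s ≤ τ / 24 := by
        refine le_trans ?_ hd4
        gcongr
        linarith
      have h10 : s * (τ / 2) ≤ s * T := mul_le_mul_of_nonneg_left (by linarith) hs.le
      have h11 : C * s ^ 2 ≤ s * (τ / 24) := by
        have := mul_le_mul_of_nonneg_right h9 hs.le
        linarith [show C * s * s = C * s ^ 2 by ring]
      have h12' : r1 / 2 + s * τ / 24 ≤ g := by linarith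
      have h14 : 0 < s * τ := mul_pos hs hτ
      have h13 : 0 < g := by linarith
      rw [hφ]
      have h15 := mul_le_mul_of_nonneg_right hκ h13.le
      linarith
    · rw [hphi1 z hz2]
      have h3 := str_sq z hz2
      have h4 : 0 < z.im ^ 2 := by
        refine lt_of_le_of_ne (sq_nonneg _) fun h5 => ?_
        have h6 : z.im = 0 := pow_eq_zero_iff (two_ne_zero) |>.1 h5.symm
        have h7 : (z.re - 1) * (z.re + 1) = 0 := by
          rw [h6] at h3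
          linarith [show (z.re - 1) * (z.re + 1) = z.re ^ 2 - 1 by ring]
        apply hza
        refine str_pm 1 z a (by simp) ha ?_ (by linarith)
        rcases mul_eq_zero.1 h7 with h8 | h8
        · left
          apply Complex.ext
          · simp; linarith
          · simpa using h6
        · right
          apply Complex.ext
          · simp; linarith
          · simpa using h6
      have h9 : r1 * (z.re ^ 2 + z.im ^ 2) = r1 := by rw [h3, mul_one]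
      have h10 := mul_pos (sub_pos.2 hlt) h4
      linarith
  · -- maximum
    obtain ⟨a, ha, τ, hτ, hTa⟩ : ∃ a : ℂ, (a = Complex.I ∨ a = -Complex.I) ∧ ∃ τ : ℝ, 0 < τ ∧
        d3 h v₀ (hat e₁ e₂ a) (hat e₁ e₂ a) (hat e₁ e₂ a) = -τ := by
      rcases lt_or_gt_of_ne hne with h3 | h3
      · refine ⟨Complex.I, Or.inl rfl, -d3 h v₀ e₂ e₂ e₂, by linarith, ?_⟩
        have h4 : hat e₁ e₂ Complex.I = e₂ := by simp [hat]
        rw [h4, neg_neg]
      · refine ⟨-Complex.I, Or.inr rfl, d3 h v₀ e₂ e₂ e₂, h3, ?_⟩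
        have h4 : hat e₁ e₂ (-Complex.I) = -e₂ := by simp [hat]
        rw [h4, str_d3_neg]
    have han : ‖a‖ = 1 := by rcases ha with rfl | rfl <;> simp
    have hr2 : 0 < r2 := hr1.trans hlt
    obtain ⟨δ₁, hδ₁, hδT⟩ := Metric.continuousAt_iff.1 (hTc.continuousAt (x := a)) (τ / 2)
      (by positivity)
    have hK : 0 < 2 * r2 + 6 * C := by positivity
    obtain ⟨δ, hδ, hd1, hd2, hd3, hd4⟩ : ∃ δ : ℝ, 0 < δ ∧ δ ≤ 1 / 8 ∧ 2 * δ ≤ δ₁ ∧ 8 * δ ≤ s₀ ∧
        (2 * r2 + 6 * C) * (8 * δ) ≤ τ / 12 := by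
      refine ⟨min (1 / 8) (min (δ₁ / 2) (min (s₀ / 8) (τ / (96 * (2 * r2 + 6 * C))))),
        by positivity, min_le_left _ _, ?_, ?_, ?_⟩
      · have := (min_le_right (1 / 8 : ℝ) (min (δ₁ / 2) (min (s₀ / 8)
          (τ / (96 * (2 * r2 + 6 * C)))))).trans (min_le_left _ _)
        linarith
      · have := ((min_le_right (1 / 8 : ℝ) (min (δ₁ / 2) (min (s₀ / 8)
          (τ / (96 * (2 * r2 + 6 * C)))))).trans (min_le_right _ _)).trans (min_le_left _ _)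
        linarith
      · have := ((min_le_right (1 / 8 : ℝ) (min (δ₁ / 2) (min (s₀ / 8)
          (τ / (96 * (2 * r2 + 6 * C)))))).trans (min_le_right _ _)).trans (min_le_right _ _)
        generalize 2 * r2 + 6 * C = K at this hK
        calc K * (8 * _) ≤ K * (8 * (τ / (96 * K))) := by gcongr
          _ = τ / 12 := by field_simp; norm_num
    refine ⟨a, ha, δ, hδ, fun z hz hza hzd => ?_⟩
    have hz1 : ‖z‖ ≤ 1 := by simpa using hz
    rcases lt_or_eq_of_le hz1 with hz2 | hz2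
    · obtain ⟨ρ, u, hρ, hρ1, hu, rfl, h3, h4⟩ := str_polar a han δ (by linarith) z hz2 hzd
      obtain ⟨s, κ, g, hs, hs8, hκ, hκ2, hφ, hg⟩ := hcore ρ u hρ hρ1 hu (by linarith)
      have h5 := hδT (x := u) (by rw [dist_eq_norm]; linarith)
      rw [Real.dist_eq, hTa] at h5
      have h6 := (abs_lt.1 h5).2
      have h7 := (abs_le.1 hg).2
      rw [hA] at h7
      have h8 := str_sq u hu
      generalize d3 h v₀ (hat e₁ e₂ u) (hat e₁ e₂ u) (hat e₁ e₂ u) = T at h6 h7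
      have hA1 : r1 * u.re ^ 2 + r2 * u.im ^ 2 ≤ r2 := by
        have h9 : r2 * (u.re ^ 2 + u.im ^ 2) = r2 := by rw [h8, mul_one]
        have h10 := mul_nonneg (sub_nonneg.2 hlt.le) (sq_nonneg u.re)
        linarith
      have h9 : (2 * r2 + 6 * C) * s ≤ τ / 12 := by
        refine le_trans ?_ hd4
        gcongr
        linarith
      have h10 : s * T ≤ s * (-(τ / 2)) := mul_le_mul_of_nonneg_left (by linarith) hs.le
      have h11 : (2 * r2 + 6 * C) * s ^ 2 ≤ s * (τ / 12) := by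
        have := mul_le_mul_of_nonneg_right h9 hs.le
        linarith [show (2 * r2 + 6 * C) * s * s = (2 * r2 + 6 * C) * s ^ 2 by ring]
      have h14 : 0 < s * τ := mul_pos hs hτ
      have hg1 : g ≤ r2 / 2 - s * τ / 12 + C * s ^ 2 := by linarith
      have hs1 : s ≤ 1 := by linarith
      have hs2 : s ^ 2 ≤ 1 := pow_le_one₀ hs.le hs1
      have hg2 : g ≤ r2 / 2 + C := by
        have := mul_le_mul_of_nonneg_left hs2 hC.le
        linarith
      have hkg : κ * g ≤ 2 * g + 4 * s ^ 2 * (r2 / 2 + C) := by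
        rcases le_total 0 g with h15 | h15
        · have h16 := mul_le_mul_of_nonneg_right hκ2 h15
          have h17 := mul_le_mul_of_nonneg_left hg2 (by positivity : 0 ≤ 4 * s ^ 2)
          linarith
        · have h16 := mul_le_mul_of_nonpos_right hκ h15
          have h17 : 0 ≤ 4 * s ^ 2 * (r2 / 2 + C) := by positivity
          linarith
      rw [hφ]
      linarith
    · rw [hphi1 z hz2]
      have h3 := str_sq z hz2
      have h4 : 0 < z.re ^ 2 := by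
        refine lt_of_le_of_ne (sq_nonneg _) fun h5 => ?_
        have h6 : z.re = 0 := pow_eq_zero_iff (two_ne_zero) |>.1 h5.symm
        have h7 : (z.im - 1) * (z.im + 1) = 0 := by
          rw [h6] at h3
          linarith [show (z.im - 1) * (z.im + 1) = z.im ^ 2 - 1 by ring]
        apply hza
        refine str_pm Complex.I z a (by simp) ha ?_ (by linarith)
        rcases mul_eq_zero.1 h7 with h8 | h8
        · left
          apply Complex.ext
          · simpa using h6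
          · simp; linarith
        · right
          apply Complex.ext
          · simpa using h6
          · simp; linarith
      have h9 : r2 * (z.re ^ 2 + z.im ^ 2) = r2 := by rw [h3, mul_one]
      have h10 := mul_pos (sub_pos.2 hlt) h4
      linarith

end Pool.Agent.K1H41.OV
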