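import Pool.Agent.K1H41.OV.Stm

/-!
# OV-SUP: from ovaloids to support functions
-/

set_option autoImplicit false

namespace Pool.Agent.K1H41.OV

open scoped RealInnerProductSpace Topology ContDiff
open Filter

namespace Sup

variable {S : Set E3} {X : E3 → E3}

/-- a defining function at `X v` is a defining function at all points `X v'` nearby -/
theorem ev_def (hc : ContinuousOn X {0}ᶜ) (hm : ∀ v, v ≠ 0 → X v ∈ S) {v : E3} (hv : v ≠ 0)
    {f : E3 → ℝ} (hf : IsDefFn S (X v) f) :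
    ∀ᶠ v' in 𝓝 v, v' ≠ 0 ∧ IsDefFn S (X v') f ∧ f (X v') = 0 ∧ ContDiffAt ℝ ∞ f (X v') := by
  obtain ⟨U, hUo, hqU, hcd, hne, hiff⟩ := hf
  have hXc : ContinuousAt X v := hc.continuousAt (isOpen_compl_singleton.mem_nhds hv)
  have hfd : ContDiffAt ℝ ∞ f (X v) := hcd.contDiffAt (hUo.mem_nhds hqU)
  have e1 : ∀ᶠ v' in 𝓝 v, v' ≠ 0 := isOpen_compl_singleton.mem_nhds hv
  have e2 : ∀ᶠ v' in 𝓝 v, X v' ∈ U := hXc.eventually (hUo.mem_nhds hqU)
  have hfc : ContinuousAt (fun v' => fderiv ℝ f (X v')) v := by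
    have h1 : ContDiffAt ℝ 0 (fderiv ℝ f) (X v) := hfd.fderiv_right (by simp)
    exact ContinuousAt.comp (f := X) (x := v) h1.continuousAt hXc
  have e3 : ∀ᶠ v' in 𝓝 v, fderiv ℝ f (X v') ≠ 0 := hfc.eventually_ne hne
  filter_upwards [e1, e2, e3] with v' h1 h2 h3
  exact ⟨h1, ⟨U, hUo, h2, hcd, h3, hiff⟩, (hiff _ h2).mp (hm v' h1),
    hcd.contDiffAt (hUo.mem_nhds h2)⟩

theorem smooth (h2 : S_IFT) (hc : ContinuousOn X {0}ᶜ) (hm : ∀ v, v ≠ 0 → X v ∈ S)
    (hmul : ∀ v, v ≠ 0 → ∀ f, IsDefFn S (X v) f → ∃ μ : ℝ, μ ≠ 0 ∧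
        ∀ w, fderiv ℝ f (X v) w = μ * ⟪v, w⟫)
    (hS : ∀ q ∈ S, ∃ f : E3 → ℝ, IsDefFn S q f ∧ PosCurv f q) {v : E3} (hv : v ≠ 0) :
    ContDiffAt ℝ ∞ X v := by
  obtain ⟨f, hf, hp⟩ := hS (X v) (hm v hv)
  obtain ⟨μ, hμ, hμw⟩ := hmul v hv f hf
  have hev := ev_def hc hm hv hf
  obtain ⟨-, -, hf0, hfd⟩ := hev.self_of_nhds
  obtain ⟨x, ε, hε, hxv, hxd, hx⟩ := h2 f (X v) v μ hfd hf0 hv hμ hμw hp
  have hXc : ContinuousAt X v := hc.continuousAt (isOpen_compl_singleton.mem_nhds hv)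
  have e1 : ∀ᶠ v' in 𝓝 v, ‖X v' - X v‖ < ε := by
    have := Metric.continuousAt_iff'.mp hXc ε hε
    filter_upwards [this] with v' h
    rwa [dist_eq_norm] at h
  have hfc : ContinuousAt (fun v' => fderiv ℝ f (X v')) v := by
    have h1 : ContDiffAt ℝ 0 (fderiv ℝ f) (X v) := hfd.fderiv_right (by simp)
    exact ContinuousAt.comp (f := X) (x := v) h1.continuousAt hXc
  have hnv : ‖v‖ ^ 2 ≠ 0 := pow_ne_zero 2 (norm_ne_zero_iff.mpr hv)
  have hquo : ContinuousAt (fun v' => fderiv ℝ f (X v') v' / ‖v'‖ ^ 2) v :=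
    (hfc.clm_apply continuousAt_id).div (continuous_norm.pow 2).continuousAt hnv
  have hqv : fderiv ℝ f (X v) v / ‖v‖ ^ 2 = μ := by
    rw [hμw v, real_inner_self_eq_norm_sq]
    field_simp
  have e2 : ∀ᶠ v' in 𝓝 v, |fderiv ℝ f (X v') v' / ‖v'‖ ^ 2 - μ| < ε := by
    have := Metric.continuousAt_iff'.mp hquo ε hε
    filter_upwards [this] with v' h
    rw [Real.dist_eq, hqv] at h
    exact h
  have heq : X =ᶠ[𝓝 v] x := by
    filter_upwards [hev, e1, e2, hx] with v' ha hb hcc hd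
    obtain ⟨hv', hdef, hf0', -⟩ := ha
    obtain ⟨μ', -, hμw'⟩ := hmul v' hv' f hdef
    refine hd (X v') hb hf0' ⟨μ', ?_, hμw'⟩
    have h1 : fderiv ℝ f (X v') v' / ‖v'‖ ^ 2 = μ' := by
      rw [hμw' v', real_inner_self_eq_norm_sq]
      have : ‖v'‖ ^ 2 ≠ 0 := pow_ne_zero 2 (norm_ne_zero_iff.mpr hv')
      field_simp
    rw [h1] at hcc
    exact hcc
  exact hxd.congr_of_eventuallyEq heq

end Sup

open Sup in
theorem t_SUP (h1 : S_MAX) (h2 : S_IFT) : S_SUP := by
  rintro S ⟨⟨K, hKc, hKk, hKi, hSK⟩, hS⟩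
  obtain ⟨X, hc, hm, hmax, hhom, hsurj, hinj, hmul⟩ := h1 S K hKc hKk hKi hSK hS
  have hSK' : S ⊆ K := by
    rw [hSK]
    exact hKk.isClosed.frontier_subset
  have hsm : ∀ v, v ≠ 0 → ContDiffAt ℝ ∞ X v := fun v hv => smooth h2 hc hm hmul hS hv
  have hle : ∀ v, v ≠ 0 → ∀ v', v' ≠ 0 → ⟪X v', v⟫ ≤ ⟪X v, v⟫ := by
    intro v hv v' hv'
    by_cases h : X v' = X v
    · rw [h]
    · exact (hmax v hv (X v') (hSK' (hm v' hv')) h).le
  set h : E3 → ℝ := fun v => ⟪X v, v⟫ with hh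
  have hXd : ∀ v, v ≠ 0 → HasFDerivAt X (fderiv ℝ X v) v := fun v hv =>
    ((hsm v hv).differentiableAt (by simp)).hasFDerivAt
  -- the derivative of `X` is orthogonal to `v`
  have horth : ∀ v, v ≠ 0 → ∀ w, ⟪fderiv ℝ X v w, v⟫ = 0 := by
    intro v hv w
    have hg : HasFDerivAt (fun v' => ⟪X v', v⟫) _ v := (hXd v hv).inner ℝ (hasFDerivAt_const v v)
    have hlm : IsLocalMax (fun v' => ⟪X v', v⟫) v := by
      have e1 : ∀ᶠ v' in 𝓝 v, v' ≠ 0 := isOpen_compl_singleton.mem_nhds hv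
      filter_upwards [e1] with v' hv'
      exact hle v hv v' hv'
    have h3 := hlm.hasFDerivAt_eq_zero hg
    have h4 := DFunLike.congr_fun h3 w
    simpa using h4
  have hfd : ∀ v, v ≠ 0 → HasFDerivAt h (innerSL ℝ (X v)) v := by
    intro v hv
    have hg : HasFDerivAt h _ v := (hXd v hv).inner ℝ (hasFDerivAt_id v)
    refine hg.congr_fderiv ?_
    ext w
    simp [fderivInnerCLM_apply, horth v hv w]
  have hd1 : ∀ v, v ≠ 0 → ∀ w, d1 h v w = ⟪X v, w⟫ := by
    intro v hv w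
    unfold d1
    rw [(hfd v hv).fderiv]
    rfl
  have hd2 : ∀ v, v ≠ 0 → ∀ a b, d2 h v a b = ⟪fderiv ℝ X v a, b⟫ := by
    intro v hv a b
    unfold d2
    have e1 : fderiv ℝ h =ᶠ[𝓝 v] fun v' => innerSL ℝ (X v') := by
      have e0 : ∀ᶠ v' in 𝓝 v, v' ≠ 0 := isOpen_compl_singleton.mem_nhds hv
      filter_upwards [e0] with v' hv'
      exact (hfd v' hv').fderiv
    have e2 : HasFDerivAt (fun v' => innerSL ℝ (X v')) ((innerSL ℝ).comp (fderiv ℝ X v)) v :=
      (innerSL ℝ : E3 →L[ℝ] E3 →L[ℝ] ℝ).hasFDerivAt.comp v (hXd v hv)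
    rw [(e2.congr_of_eventuallyEq e1).fderiv]
    rfl
  have hsf : SF h := by
    refine ⟨?_, ?_, ?_⟩
    · intro v hv
      exact ((hsm v hv).inner ℝ contDiffAt_id).contDiffWithinAt
    · intro c hc' v
      by_cases hv : v = 0
      · subst hv
        simp [hh]
      · simp only [hh]
        rw [hhom c hc' v hv, inner_smul_right]
    · intro v hv w hvw hw
      rw [hd2 v hv w w]
      set x' : E3 := fderiv ℝ X v w with hx'
      obtain ⟨f, hf, hp⟩ := hS (X v) (hm v hv)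
      obtain ⟨μ, hμ, hμw⟩ := hmul v hv f hf
      have hev := ev_def hc hm hv hf
      obtain ⟨-, -, hf0, hfdd⟩ := hev.self_of_nhds
      have hΦ : HasFDerivAt (fun v' => fderiv ℝ f (X v'))
          ((fderiv ℝ (fderiv ℝ f) (X v)).comp (fderiv ℝ X v)) v := by
        have h3 : ContDiffAt ℝ ∞ (fderiv ℝ f) (X v) := hfdd.fderiv_right (by simp)
        exact (h3.differentiableAt (by simp)).hasFDerivAt.comp v (hXd v hv)
      have hvx : ⟪v, x'⟫ = 0 := by rw [real_inner_comm]; exact horth v hv w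
      -- the second derivative of `f`
      have hL : ∀ b, ⟪v, b⟫ = 0 → fderiv ℝ (fderiv ℝ f) (X v) x' b = μ * ⟪w, b⟫ := by
        intro b hb
        have hG : HasFDerivAt (fun v' => fderiv ℝ f (X v') b * ⟪v', v'⟫ -
            fderiv ℝ f (X v') v' * ⟪v', b⟫) _ v :=
          ((hΦ.clm_apply (hasFDerivAt_const b v)).mul ((hasFDerivAt_id v).inner ℝ
            (hasFDerivAt_id v))).sub ((hΦ.clm_apply (hasFDerivAt_id v)).mul
              ((hasFDerivAt_id v).inner ℝ (hasFDerivAt_const b v)))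
        have hG0 : (fun v' => fderiv ℝ f (X v') b * ⟪v', v'⟫ -
            fderiv ℝ f (X v') v' * ⟪v', b⟫) =ᶠ[𝓝 v] fun _ => (0 : ℝ) := by
          filter_upwards [hev] with v' ha
          obtain ⟨hv', hdef, -, -⟩ := ha
          obtain ⟨μ', -, hμw'⟩ := hmul v' hv' f hdef
          rw [hμw', hμw']
          ring
        have h3 := hG.unique ((hasFDerivAt_const (0 : ℝ) v).congr_of_eventuallyEq hG0)
        have h4 := DFunLike.congr_fun h3 w
        have hbv : ⟪b, v⟫ = 0 := by rw [real_inner_comm]; exact hb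
        simp [fderivInnerCLM_apply, hb, hμw] at h4
        have hvn : ‖v‖ ^ 2 ≠ 0 := pow_ne_zero 2 (norm_ne_zero_iff.mpr hv)
        rw [← hx'] at h4
        have h5 : ‖v‖ ^ 2 * (fderiv ℝ (fderiv ℝ f) (X v) x' b) = ‖v‖ ^ 2 * (μ * ⟪w, b⟫) := by
          linarith
        exact mul_left_cancel₀ hvn h5
      have hxx := hL x' hvx
      have hxw := hL w hvw
      have hx0 : x' ≠ 0 := by
        intro h0
        rw [h0] at hxw
        simp at hxw
        exact hxw.elim (fun h => hμ h) (fun h => hw h)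
      have hpc := hp x' (by rw [hμw, hvx, mul_zero]) hx0
      have hne : ⟪x', w⟫ ≠ 0 := by
        intro h0
        rw [real_inner_comm] at h0
        rw [hxx, h0, mul_zero] at hpc
        exact hpc rfl
      have hnn : 0 ≤ ⟪x', w⟫ := by
        have hk : HasDerivAt (fun t : ℝ => ⟪X (v + t • w) - X v, w⟫) ⟪x', w⟫ 0 := by
          have h5 : HasDerivAt (fun t : ℝ => v + t • w) w 0 := by
            simpa using ((hasDerivAt_id (0 : ℝ)).smul_const w).const_add v
          have h6 : HasFDerivAt X (fderiv ℝ X v) (v + (0 : ℝ) • w) := by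
            simpa using hXd v hv
          have h7 := (h6.comp_hasDerivAt (0 : ℝ) h5).sub_const (X v)
          have h8 := h7.inner ℝ (hasDerivAt_const (0 : ℝ) w)
          simpa using h8
        have hsl := hk.tendsto_slope_zero_right
        have e0 : ∀ᶠ t : ℝ in 𝓝 0, v + t • w ≠ 0 := by
          have hcont : ContinuousAt (fun t : ℝ => v + t • w) 0 := by fun_prop
          exact hcont.eventually_ne (by simpa using hv)
        refine ge_of_tendsto hsl ?_
        filter_upwards [self_mem_nhdsWithin, nhdsWithin_le_nhds e0] with t ht hvt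
        have ht' : (0 : ℝ) < t := ht
        have a1 := hle v hv (v + t • w) hvt
        have a2 := hle (v + t • w) hvt v hv
        rw [inner_add_right, inner_add_right, inner_smul_right, inner_smul_right] at a2
        simp only [zero_add, zero_smul, add_zero, sub_self, inner_zero_left, sub_zero, smul_eq_mul]
        rw [inner_sub_left]
        refine mul_nonneg (inv_nonneg.mpr ht'.le) ?_
        nlinarith
      exact lt_of_le_of_ne hnn hne.symm
  refine ⟨h, X, hsf, ⟨?_, ?_, ?_⟩, ?_, ?_⟩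
  · intro v hv
    have hv1 : ‖v‖ = 1 := by simpa using hv
    exact hm v (by intro h0; rw [h0] at hv1; simp at hv1)
  · intro v hv v' hv' hvv
    exact hinj v v' (by simpa using hv) (by simpa using hv') hvv
  · intro q hq
    obtain ⟨v, hv, hvq⟩ := hsurj q hq
    exact ⟨v, by simpa using hv, hvq⟩
  · intro v w hv
    exact hd1 v (by intro h0; rw [h0] at hv; simp at hv) w
  · intro p v hv
    have hv0 : v ≠ 0 := by intro h0; rw [h0] at hv; simp at hv
    constructor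
    · rintro ⟨-, f, hf, hfw⟩
      obtain ⟨μ, hμ, hμw⟩ := hmul v hv0 f hf
      refine ⟨hv, fun w hw => ?_⟩
      rw [hd1 v hv0 w]
      have h3 := hfw w (by rw [hμw, hw, mul_zero])
      rw [inner_sub_left] at h3
      linarith
    · rintro ⟨-, hcr⟩
      obtain ⟨f, hf, -⟩ := hS (X v) (hm v hv0)
      obtain ⟨μ, hμ, hμw⟩ := hmul v hv0 f hf
      refine ⟨hm v hv0, f, hf, fun w hw => ?_⟩
      rw [hμw] at hw
      have hw' : ⟪v, w⟫ = 0 := (mul_eq_zero.mp hw).resolve_left hμ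
      have h3 := hcr w hw'
      rw [hd1 v hv0 w] at h3
      rw [inner_sub_left]
      linarith

end Pool.Agent.K1H41.OV
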