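import Pool.Agent.K1H41.OV.Stm

/-! Project OV, piece TAY: Taylor expansion of order three. -/

set_option autoImplicit false

namespace Pool.Agent.K1H41.OV

open scoped Topology ContDiff Nat

namespace TAY

theorem aux (m : ℕ) : ((m : ℕ) : WithTop ℕ∞) ≤ ∞ := by exact_mod_cast le_top

theorem taylor {E G : Type*} [NormedAddCommGroup E] [NormedSpace ℝ E] [NormedAddCommGroup G]
    [NormedSpace ℝ G] [CompleteSpace G] (f : E → G) (v₀ : E) (hf : ContDiffAt ℝ ∞ f v₀) (n : ℕ) :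
    ∃ C s₀ : ℝ, 0 < C ∧ 0 < s₀ ∧ ∀ ξ : E, ‖ξ‖ ≤ s₀ →
      ‖f (v₀ + ξ) - ∑ k ∈ Finset.range (n + 1), (k ! : ℝ)⁻¹ •
        (iteratedFDeriv ℝ k f v₀ (fun _ => ξ))‖ ≤ C * ‖ξ‖ ^ (n + 1) := by
  have h1 : ContDiffAt ℝ ((n + 1 : ℕ) : WithTop ℕ∞) f v₀ := hf.of_le (aux _)
  have h1' : ContDiffAt ℝ ((n + 2 : ℕ) : WithTop ℕ∞) f v₀ := hf.of_le (aux _)
  have h2 : ∀ᶠ y in 𝓝 v₀, ContDiffAt ℝ ((n + 1 : ℕ) : WithTop ℕ∞) f y :=
    h1.eventually (by simp)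
  have h3 : ContinuousAt (iteratedFDeriv ℝ (n + 1) f) v₀ :=
    (h1'.differentiableAt_iteratedFDeriv (by exact_mod_cast Nat.lt_succ_self (n + 1))).continuousAt
  have h4 : ∀ᶠ y in 𝓝 v₀, ‖iteratedFDeriv ℝ (n + 1) f y‖ <
      ‖iteratedFDeriv ℝ (n + 1) f v₀‖ + 1 :=
    h3.norm.eventually_lt continuousAt_const (by linarith)
  obtain ⟨s, hs, h5⟩ := Metric.eventually_nhds_iff.1 (h2.and h4)
  set M : ℝ := ‖iteratedFDeriv ℝ (n + 1) f v₀‖ + 1 with hM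
  have hM0 : 0 < M := by positivity
  refine ⟨M, s / 2, hM0, by positivity, fun ξ hξ => ?_⟩
  have h6 : ∀ t ∈ Set.Icc (0 : ℝ) 1, dist (v₀ + t • ξ) v₀ < s := by
    intro t ht
    rw [dist_eq_norm, add_sub_cancel_left, norm_smul, Real.norm_of_nonneg ht.1]
    have : t * ‖ξ‖ ≤ 1 * ‖ξ‖ := mul_le_mul_of_nonneg_right ht.2 (norm_nonneg _)
    linarith
  have h7 := map_add_eq_sum_add_integral_iteratedFDeriv (f := f) (x := v₀) (y := ξ) (n := n)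
    (fun t ht => by exact_mod_cast (h5 (h6 t ht)).1)
  rw [h7, add_sub_cancel_left, norm_smul]
  have h8 : ‖∫ t in (0 : ℝ)..1, (1 - t) ^ n • iteratedFDeriv ℝ (n + 1) f (v₀ + t • ξ)
      (fun _ => ξ)‖ ≤ (M * ‖ξ‖ ^ (n + 1)) * |(1 : ℝ) - 0| := by
    apply intervalIntegral.norm_integral_le_of_norm_le_const
    intro t ht
    rw [Set.uIoc_of_le zero_le_one] at ht
    have ht' : t ∈ Set.Icc (0 : ℝ) 1 := ⟨ht.1.le, ht.2⟩
    rw [norm_smul, Real.norm_of_nonneg (pow_nonneg (by linarith [ht.2]) n)]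
    have h9 : (1 - t) ^ n ≤ 1 := pow_le_one₀ (by linarith [ht.2]) (by linarith [ht.1])
    have h10 : ‖iteratedFDeriv ℝ (n + 1) f (v₀ + t • ξ) (fun _ => ξ)‖ ≤ M * ‖ξ‖ ^ (n + 1) := by
      refine (ContinuousMultilinearMap.le_opNorm _ _).trans ?_
      rw [Finset.prod_const, Finset.card_univ, Fintype.card_fin]
      exact mul_le_mul_of_nonneg_right (h5 (h6 t ht')).2.le (by positivity)
    calc (1 - t) ^ n * ‖iteratedFDeriv ℝ (n + 1) f (v₀ + t • ξ) (fun _ => ξ)‖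
        ≤ 1 * (M * ‖ξ‖ ^ (n + 1)) := mul_le_mul h9 h10 (norm_nonneg _) zero_le_one
      _ = M * ‖ξ‖ ^ (n + 1) := one_mul _
  have h11 : ‖((n ! : ℝ)⁻¹)‖ ≤ 1 := by
    rw [norm_inv, Real.norm_of_nonneg (Nat.cast_nonneg _)]
    apply inv_le_one_of_one_le₀
    exact_mod_cast Nat.factorial_pos n
  calc ‖((n ! : ℝ)⁻¹)‖ * _ ≤ 1 * ((M * ‖ξ‖ ^ (n + 1)) * |(1 : ℝ) - 0|) :=
        mul_le_mul h11 h8 (norm_nonneg _) zero_le_one
    _ = M * ‖ξ‖ ^ (n + 1) := by simp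

end TAY

open TAY in
theorem t_TAY : S_TAY := by
  intro h v₀ hh
  obtain ⟨C₁, s₁, hC₁, hs₁, H₁⟩ := taylor h v₀ hh 3
  have hd : ContDiffAt ℝ ∞ (fderiv ℝ h) v₀ := hh.fderiv_right (by simp)
  obtain ⟨C₂, s₂, hC₂, hs₂, H₂⟩ := taylor (fderiv ℝ h) v₀ hd 1
  refine ⟨C₁ + C₂, min s₁ s₂, by positivity, lt_min hs₁ hs₂, fun ξ hξ => ⟨?_, fun η => ?_⟩⟩
  · have h1 := H₁ ξ (hξ.trans (min_le_left _ _))
    have h3 : iteratedFDeriv ℝ 3 h v₀ (fun _ => ξ) = d3 h v₀ ξ ξ ξ := by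
      rw [iteratedFDeriv_succ_apply_right, iteratedFDeriv_two_apply]
      rfl
    rw [Finset.sum_range_succ, Finset.sum_range_succ, Finset.sum_range_succ,
      Finset.sum_range_succ, Finset.sum_range_zero, h3, iteratedFDeriv_two_apply,
      iteratedFDeriv_one_apply, iteratedFDeriv_zero_apply, Real.norm_eq_abs] at h1
    simp only [smul_eq_mul, Nat.factorial, Nat.cast_one, inv_one, one_mul, zero_add] at h1
    refine le_trans (le_of_eq ?_) (h1.trans ?_)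
    · congr 1
      unfold d1 d2
      push_cast
      ring
    · have : 0 ≤ C₂ * ‖ξ‖ ^ 4 := by positivity
      norm_num
      nlinarith
  · have h1 := H₂ ξ (hξ.trans (min_le_right _ _))
    rw [Finset.sum_range_succ, Finset.sum_range_succ, Finset.sum_range_zero,
      iteratedFDeriv_one_apply, iteratedFDeriv_zero_apply] at h1
    simp only [Nat.factorial, Nat.cast_one, inv_one, one_smul, zero_add, mul_one] at h1
    have h2 := (ContinuousLinearMap.le_opNorm (fderiv ℝ h (v₀ + ξ) -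
      (fderiv ℝ h v₀ + fderiv ℝ (fderiv ℝ h) v₀ ξ)) η)
    have h3 : (fderiv ℝ h (v₀ + ξ) - (fderiv ℝ h v₀ + fderiv ℝ (fderiv ℝ h) v₀ ξ)) η =
        d1 h (v₀ + ξ) η - d1 h v₀ η - d2 h v₀ ξ η := by
      unfold d1 d2
      simp only [sub_apply, add_apply]
      ring
    rw [h3, Real.norm_eq_abs] at h2
    refine h2.trans ?_
    have h4 : ‖fderiv ℝ h (v₀ + ξ) - (fderiv ℝ h v₀ + fderiv ℝ (fderiv ℝ h) v₀ ξ)‖ ≤
        (C₁ + C₂) * ‖ξ‖ ^ 2 := by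
      refine h1.trans ?_
      have : 0 ≤ C₁ * ‖ξ‖ ^ 2 := by positivity
      norm_num
      nlinarith
    exact mul_le_mul_of_nonneg_right h4 (norm_nonneg _)

end Pool.Agent.K1H41.OV
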