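import Pool.Agent.K1H41.OV.Stm

/-! Project OV, piece TWO: the degenerate case, by integral curves of a principal direction. -/

set_option autoImplicit false

namespace Pool.Agent.K1H41.OV

open scoped RealInnerProductSpace Topology ContDiff
open Set Filter

namespace Two

/-- the second derivative -/
noncomputable def H2 (h : E3 → ℝ) (y : E3) : E3 →L[ℝ] E3 →L[ℝ] ℝ := fderiv ℝ (fderiv ℝ h) y

/-- the standard basis -/
noncomputable def bs (i : Fin 3) : E3 := EuclideanSpace.single i 1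

noncomputable def TT (h : E3 → ℝ) (y : E3) : ℝ := ∑ i, H2 h y (bs i) (bs i)

noncomputable def QQ (h : E3 → ℝ) (y : E3) : ℝ := ∑ i, ∑ j, H2 h y (bs i) (bs j) ^ 2

noncomputable def dc (h : E3 → ℝ) (y : E3) : ℝ := 2 * QQ h y - TT h y ^ 2

/-- the eigenvalue of the direction `Dir σ` -/
noncomputable def rr (h : E3 → ℝ) (σ : ℝ) (y : E3) : ℝ := (TT h y - σ * √(dc h y)) / 2

/-- the symmetric operator -/
noncomputable def AF (h : E3 → ℝ) (y a : E3) : E3 := ∑ i, H2 h y a (bs i) • bs i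

/-- the vector field -/
noncomputable def EE (h : E3 → ℝ) (σ : ℝ) (w y : E3) : E3 :=
  AF h y (AF h y w - rr h (-σ) y • w)

theorem inner_bs (a : E3) (i : Fin 3) : ⟪a, bs i⟫ = a i := by
  rw [bs, EuclideanSpace.inner_single_right]
  simp

theorem sum_bs (a : E3) : ∑ i, a i • bs i = a := by
  ext j
  simp only [bs, WithLp.ofLp_sum, WithLp.ofLp_smul, Finset.sum_apply, Pi.smul_apply,
    PiLp.single_apply, smul_eq_mul, mul_ite, mul_one, mul_zero]
  simp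

theorem AF_inner (h : E3 → ℝ) (y a b : E3) : ⟪AF h y a, b⟫ = H2 h y a b := by
  unfold AF
  rw [sum_inner]
  conv_rhs => rw [← sum_bs b]
  rw [map_sum]
  refine Finset.sum_congr rfl fun i _ => ?_
  rw [real_inner_smul_left, real_inner_comm, inner_bs, map_smul, smul_eq_mul, mul_comm]

theorem norm_sq_eq3 (a : E3) : ‖a‖ ^ 2 = a 0 ^ 2 + a 1 ^ 2 + a 2 ^ 2 := by
  rw [EuclideanSpace.real_norm_sq_eq, Fin.sum_univ_three]

theorem inner_eq3 (a b : E3) : ⟪a, b⟫ = a 0 * b 0 + a 1 * b 1 + a 2 * b 2 := by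
  rw [PiLp.inner_apply, Fin.sum_univ_three]
  simp [mul_comm]

/-- expansion in an orthonormal frame -/
theorem Frame_expand {v e₁ e₂ : E3} (hF : Frame v e₁ e₂) (x : E3) :
    x = ⟪v, x⟫ • v + ⟪e₁, x⟫ • e₁ + ⟪e₂, x⟫ • e₂ := by
  have hon : Orthonormal ℝ ![v, e₁, e₂] := by
    refine ⟨fun i => ?_, fun i j hij => ?_⟩
    · fin_cases i
      · exact hF.n0
      · exact hF.n1
      · exact hF.n2
    · fin_cases i <;> fin_cases j
      · exact absurd rfl hij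
      · exact hF.o01
      · exact hF.o02
      · exact (real_inner_comm _ _).trans hF.o01
      · exact absurd rfl hij
      · exact hF.o12
      · exact (real_inner_comm _ _).trans hF.o02
      · exact (real_inner_comm _ _).trans hF.o12
      · exact absurd rfl hij
  have hsp : Submodule.span ℝ (Set.range ![v, e₁, e₂]) = ⊤ :=
    hon.linearIndependent.span_eq_top_of_card_eq_finrank' (by simp)
  let B := OrthonormalBasis.mk hon hsp.ge
  have h1 := B.sum_repr' x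
  rw [Fin.sum_univ_three] at h1
  have e0 : B 0 = v := by simp [B]
  have e1 : B 1 = e₁ := by simp [B]
  have e2 : B 2 = e₂ := by simp [B]
  rw [e0, e1, e2] at h1
  exact h1.symm

/-- the second derivative in a principal frame -/
theorem H2_frame {h : E3 → ℝ} (h0 : S_HOM) (hh : SF h) {v e₁ e₂ : E3} (hF : Frame v e₁ e₂)
    (h12 : d2 h v e₁ e₂ = 0) (a b : E3) :
    H2 h v a b = d2 h v e₁ e₁ * (⟪e₁, a⟫ * ⟪e₁, b⟫) + d2 h v e₂ e₂ * (⟪e₂, a⟫ * ⟪e₂, b⟫) := by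
  have hv : v ≠ 0 := by
    rintro rfl
    have := hF.n0
    rw [norm_zero] at this
    exact zero_ne_one this
  obtain ⟨-, k1, k2, -⟩ := h0 h hh v hv
  have z1 : ∀ a, H2 h v v a = 0 := fun a => (k1 a).1
  have z2 : ∀ a, H2 h v a v = 0 := fun a => (k1 a).2
  have z12 : H2 h v e₁ e₂ = 0 := h12
  have z21 : H2 h v e₂ e₁ = 0 := (k2 e₂ e₁).trans h12
  have hE : ∀ a b, H2 h v a b = d2 h v a b := fun _ _ => rfl
  conv_lhs => rw [Frame_expand hF a, Frame_expand hF b]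
  simp only [map_add, map_smul, ContinuousLinearMap.add_apply, ContinuousLinearMap.smul_apply,
    smul_eq_mul, z1, z2, z12, z21, hE e₁ e₁, hE e₂ e₂]
  ring

theorem TT_frame {h : E3 → ℝ} (h0 : S_HOM) (hh : SF h) {v e₁ e₂ : E3} (hF : Frame v e₁ e₂)
    (h12 : d2 h v e₁ e₂ = 0) : TT h v = d2 h v e₁ e₁ + d2 h v e₂ e₂ := by
  unfold TT
  simp only [H2_frame h0 hh hF h12, inner_bs, Fin.sum_univ_three]
  have x1 := norm_sq_eq3 e₁
  have x2 := norm_sq_eq3 e₂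
  rw [hF.n1] at x1
  rw [hF.n2] at x2
  linear_combination -(d2 h v e₁ e₁) * x1 - (d2 h v e₂ e₂) * x2

theorem QQ_frame {h : E3 → ℝ} (h0 : S_HOM) (hh : SF h) {v e₁ e₂ : E3} (hF : Frame v e₁ e₂)
    (h12 : d2 h v e₁ e₂ = 0) : QQ h v = d2 h v e₁ e₁ ^ 2 + d2 h v e₂ e₂ ^ 2 := by
  unfold QQ
  simp only [H2_frame h0 hh hF h12, inner_bs, Fin.sum_univ_three]
  have x1 := norm_sq_eq3 e₁
  have x2 := norm_sq_eq3 e₂
  have x12 := inner_eq3 e₁ e₂
  rw [hF.n1] at x1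
  rw [hF.n2] at x2
  rw [hF.o12] at x12
  linear_combination -(d2 h v e₁ e₁) ^ 2 * (e₁ 0 ^ 2 + e₁ 1 ^ 2 + e₁ 2 ^ 2 + 1) * x1
    - (d2 h v e₂ e₂) ^ 2 * (e₂ 0 ^ 2 + e₂ 1 ^ 2 + e₂ 2 ^ 2 + 1) * x2
    - 2 * (d2 h v e₁ e₁) * (d2 h v e₂ e₂) * (e₁ 0 * e₂ 0 + e₁ 1 * e₂ 1 + e₁ 2 * e₂ 2) * x12

/-- the description of the operator at a nonumbilic unit vector -/
theorem at_point {h : E3 → ℝ} (h0 : S_HOM) (h1 : S_EIG) (hh : SF h) {σ : ℝ}
    (hσ : σ = 1 ∨ σ = -1) {v : E3} (hv : ‖v‖ = 1) (hu : ¬ Umb h v) :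
    ∃ e e' : E3, ‖e‖ = 1 ∧ ‖e'‖ = 1 ∧ ⟪v, e⟫ = 0 ∧ ⟪v, e'⟫ = 0 ∧ ⟪e, e'⟫ = 0 ∧ Dir h σ v e ∧
      rr h σ v ≠ rr h (-σ) v ∧ 0 < rr h σ v ∧ 0 < dc h v ∧
      ∀ a b, H2 h v a b = rr h σ v * (⟪e, a⟫ * ⟪e, b⟫) + rr h (-σ) v * (⟪e', a⟫ * ⟪e', b⟫) := by
  obtain ⟨e₁, e₂, hF, h12, hlt, D1, D2, -, -⟩ := h1 h v hh hv hu
  have hT := TT_frame h0 hh hF h12
  have hQ := QQ_frame h0 hh hF h12
  have hv0 : v ≠ 0 := by
    rintro rfl
    rw [norm_zero] at hv
    exact zero_ne_one hv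
  have p1 : 0 < d2 h v e₁ e₁ := hh.pos v hv0 e₁ hF.o01 (by
    rintro rfl
    have := hF.n1
    rw [norm_zero] at this
    exact zero_ne_one this)
  have p2 : 0 < d2 h v e₂ e₂ := p1.trans hlt
  have hdc : dc h v = (d2 h v e₂ e₂ - d2 h v e₁ e₁) ^ 2 := by
    unfold dc
    rw [hT, hQ]
    ring
  have hsq : √(dc h v) = d2 h v e₂ e₂ - d2 h v e₁ e₁ := by
    rw [hdc, Real.sqrt_sq (by linarith)]
  have hdc0 : 0 < dc h v := by
    rw [hdc]
    have : 0 < d2 h v e₂ e₂ - d2 h v e₁ e₁ := by linarith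
    positivity
  have r1 : rr h 1 v = d2 h v e₁ e₁ := by
    unfold rr
    rw [hsq, hT]; ring
  have r2 : rr h (-1) v = d2 h v e₂ e₂ := by
    unfold rr
    rw [hsq, hT]; ring
  rcases hσ with rfl | rfl
  · refine ⟨e₁, e₂, hF.n1, hF.n2, hF.o01, hF.o02, hF.o12, D1, ?_, ?_, hdc0, ?_⟩
    · rw [r1, r2]; exact hlt.ne
    · rw [r1]; exact p1
    · intro a b
      rw [r1, r2]
      exact H2_frame h0 hh hF h12 a b
  · refine ⟨e₂, e₁, hF.n2, hF.n1, hF.o02, hF.o01, (real_inner_comm _ _).trans hF.o12, D2, ?_, ?_,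
      hdc0, ?_⟩
    · rw [neg_neg, r1, r2]; exact hlt.ne'
    · rw [r2]; exact p2
    · intro a b
      rw [neg_neg, r1, r2, H2_frame h0 hh hF h12 a b]
      ring

/-- the vector field is a multiple of the principal direction -/
theorem EE_eq {h : E3 → ℝ} {σ : ℝ} {v e e' w : E3} (he : ‖e‖ = 1) (hee : ⟪e, e'⟫ = 0)
    (he' : ‖e'‖ = 1)
    (hH : ∀ a b, H2 h v a b = rr h σ v * (⟪e, a⟫ * ⟪e, b⟫) +
      rr h (-σ) v * (⟪e', a⟫ * ⟪e', b⟫)) :
    EE h σ w v = (rr h σ v * ((rr h σ v - rr h (-σ) v) * ⟪e, w⟫)) • e := by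
  have hA : ∀ a, AF h v a = (rr h σ v * ⟪e, a⟫) • e + (rr h (-σ) v * ⟪e', a⟫) • e' := by
    intro a
    refine ext_inner_right ℝ fun b => ?_
    rw [AF_inner, hH, inner_add_left, real_inner_smul_left, real_inner_smul_left]
    ring
  have i1 : ⟪e, e⟫ = (1:ℝ) := by rw [real_inner_self_eq_norm_sq, he]; norm_num
  have i2 : ⟪e', e'⟫ = (1:ℝ) := by rw [real_inner_self_eq_norm_sq, he']; norm_num
  have i3 : ⟪e', e⟫ = (0:ℝ) := (real_inner_comm _ _).trans hee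
  unfold EE
  rw [hA (AF h v w - rr h (-σ) v • w), hA w]
  simp only [inner_sub_right, inner_add_right, real_inner_smul_right, i1, i2, i3, hee]
  have e1 : rr h (-σ) v * (rr h σ v * ⟪e, w⟫ * 0 + rr h (-σ) v * ⟪e', w⟫ * 1 -
      rr h (-σ) v * ⟪e', w⟫) = 0 := by ring
  rw [e1, zero_smul, add_zero]
  congr 1
  ring

section smooth

variable {h : E3 → ℝ} (hh : SF h)
include hh

theorem smooth1 {y : E3} (hy : y ≠ 0) : ContDiffAt ℝ ∞ (fderiv ℝ h) y :=
  (hh.smooth.fderiv_of_isOpen isOpen_compl_singleton (by simp) : ContDiffOn ℝ ∞ _ _).contDiffAt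
    (isOpen_compl_singleton.mem_nhds hy)

theorem smooth2 {y : E3} (hy : y ≠ 0) : ContDiffAt ℝ ∞ (H2 h) y := by
  have h1 : ContDiffOn ℝ ∞ (fderiv ℝ h) {0}ᶜ :=
    hh.smooth.fderiv_of_isOpen isOpen_compl_singleton (by simp)
  exact (h1.fderiv_of_isOpen isOpen_compl_singleton (by simp) : ContDiffOn ℝ ∞ _ _).contDiffAt
    (isOpen_compl_singleton.mem_nhds hy)

theorem smoothT {y : E3} (hy : y ≠ 0) : ContDiffAt ℝ ∞ (TT h) y := by
  unfold TT
  exact ContDiffAt.sum fun i _ =>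
    ((smooth2 hh hy).clm_apply contDiffAt_const).clm_apply contDiffAt_const

theorem smoothQ {y : E3} (hy : y ≠ 0) : ContDiffAt ℝ ∞ (QQ h) y := by
  unfold QQ
  exact ContDiffAt.sum fun i _ => ContDiffAt.sum fun j _ =>
    (((smooth2 hh hy).clm_apply contDiffAt_const).clm_apply contDiffAt_const).pow 2

theorem smoothr {y : E3} (hy : y ≠ 0) (hd : dc h y ≠ 0) (σ : ℝ) : ContDiffAt ℝ ∞ (rr h σ) y := by
  have h1 : ContDiffAt ℝ ∞ (dc h) y := by
    unfold dc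
    exact (contDiffAt_const.mul (smoothQ hh hy)).sub ((smoothT hh hy).pow 2)
  have h2 : ContDiffAt ℝ ∞ (fun y => √(dc h y)) y := h1.sqrt hd
  unfold rr
  exact ((smoothT hh hy).sub (contDiffAt_const.mul h2)).div_const 2

theorem smoothA {y : E3} (hy : y ≠ 0) {a : E3 → E3} (ha : ContDiffAt ℝ ∞ a y) :
    ContDiffAt ℝ ∞ (fun y => AF h y (a y)) y := by
  unfold AF
  exact ContDiffAt.sum fun i _ =>
    (((smooth2 hh hy).clm_apply ha).clm_apply contDiffAt_const).smul contDiffAt_const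

theorem smoothE {y : E3} (hy : y ≠ 0) (hd : dc h y ≠ 0) (σ : ℝ) (w : E3) :
    ContDiffAt ℝ ∞ (EE h σ w) y := by
  unfold EE
  exact smoothA hh hy ((smoothA hh hy contDiffAt_const).sub
    ((smoothr hh hy hd _).smul contDiffAt_const))

end smooth

/-- a function with derivative zero on an interval is constant -/
theorem const_of {V : Type} [NormedAddCommGroup V] [NormedSpace ℝ V] {φ : ℝ → V} {δ : ℝ}
    (hδ : 0 < δ) (hφ : ∀ s ∈ Ioo (-δ) δ, HasDerivAt φ 0 s) :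
    ∀ s ∈ Ioo (-δ) δ, φ s = φ 0 := by
  intro s hs
  refine isOpen_Ioo.is_const_of_deriv_eq_zero isPreconnected_Ioo
    (fun t ht => (hφ t ht).differentiableAt.differentiableWithinAt)
    (fun t ht => (hφ t ht).deriv) hs ⟨by linarith, hδ⟩

end Two

open Two in
theorem t_TWO (h0 : S_HOM) (h1 : S_EIG) : S_TWO := by
  intro h σ W hh hσ hW hWp v₀ hv₀W hv₀
  have hv₀0 : v₀ ≠ 0 := by
    rintro rfl
    rw [norm_zero] at hv₀
    exact zero_ne_one hv₀
  obtain ⟨w, w', hw, hw', hvw, -, hww, -, hne0, hpos0, hdc0, hH0⟩ :=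
    at_point h0 h1 hh hσ hv₀ (hWp v₀ hv₀W hv₀).1
  -- the vector field
  have hE0 : EE h σ w v₀ ≠ 0 := by
    rw [EE_eq hw hww hw' hH0, real_inner_self_eq_norm_sq, hw]
    refine smul_ne_zero ?_ ?_
    · have : rr h σ v₀ - rr h (-σ) v₀ ≠ 0 := sub_ne_zero.mpr hne0
      exact mul_ne_zero hpos0.ne' (mul_ne_zero this (by norm_num))
    · rintro rfl
      rw [norm_zero] at hw
      exact zero_ne_one hw
  have hEs : ContDiffAt ℝ ∞ (EE h σ w) v₀ := smoothE hh hv₀0 hdc0.ne' σ w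
  have hEs1 : ContDiffAt ℝ 1 (EE h σ w) v₀ := hEs.of_le (by exact_mod_cast le_top)
  obtain ⟨g, hg0, ε, hε, hg⟩ :=
    hEs1.exists_forall_mem_closedBall_exists_eq_forall_mem_Ioo_hasDerivAt₀ 0
  rw [zero_sub, zero_add] at hg
  -- a small interval
  have hgc : ContinuousAt g 0 := (hg 0 ⟨by linarith, hε⟩).continuousAt
  have hgt : Tendsto g (𝓝 0) (𝓝 v₀) := by
    have : Tendsto g (𝓝 0) (𝓝 (g 0)) := hgc
    rwa [hg0] at this
  have hcdc : ContinuousAt (dc h) v₀ := by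
    have h1 : ContDiffAt ℝ ∞ (dc h) v₀ := by
      unfold dc
      exact (contDiffAt_const.mul (smoothQ hh hv₀0)).sub ((smoothT hh hv₀0).pow 2)
    exact h1.continuousAt
  have hnear : ∀ᶠ y in 𝓝 v₀, y ∈ W ∧ y ≠ 0 ∧ 0 < dc h y ∧ EE h σ w y ≠ 0 := by
    filter_upwards [hW.mem_nhds hv₀W, isOpen_compl_singleton.mem_nhds hv₀0,
      hcdc.eventually (lt_mem_nhds hdc0), hEs.continuousAt.eventually_ne hE0] with y y1 y2 y3 y4
    exact ⟨y1, y2, y3, y4⟩
  obtain ⟨δ', hδ', hnear'⟩ := Metric.eventually_nhds_iff.mp (hgt.eventually hnear)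
  set δ := min ε δ' with hδd
  have hδ : 0 < δ := lt_min hε hδ'
  have hgI : ∀ s ∈ Ioo (-δ) δ, HasDerivAt g (EE h σ w (g s)) s := fun s hs =>
    hg s ⟨by have := min_le_left ε δ'; linarith [hs.1], hs.2.trans_le (min_le_left _ _)⟩
  have hnI : ∀ s ∈ Ioo (-δ) δ, g s ∈ W ∧ g s ≠ 0 ∧ 0 < dc h (g s) ∧ EE h σ w (g s) ≠ 0 := by
    intro s hs
    refine hnear' ?_
    rw [Real.dist_eq, sub_zero]
    exact (abs_lt.mpr ⟨hs.1, hs.2⟩).trans_le (min_le_right _ _)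
  have h0I : (0:ℝ) ∈ Ioo (-δ) δ := ⟨by linarith, hδ⟩
  -- the field is orthogonal to the position
  have horth : ∀ y : E3, y ≠ 0 → ⟪y, EE h σ w y⟫ = 0 := by
    intro y hy
    unfold EE
    rw [real_inner_comm, AF_inner]
    exact ((h0 h hh y hy).2.1 _).2
  have hgn : ∀ s ∈ Ioo (-δ) δ, ‖g s‖ = 1 := by
    intro s hs
    have hd : ∀ t ∈ Ioo (-δ) δ, HasDerivAt (fun t => ⟪g t, g t⟫) 0 t := by
      intro t ht
      have h2 := (hgI t ht).inner ℝ (hgI t ht)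
      have h3 := horth (g t) (hnI t ht).2.1
      have h4 : ⟪EE h σ w (g t), g t⟫ = 0 := (real_inner_comm _ _).trans h3
      rw [h3, h4, add_zero] at h2
      exact h2
    have h5 := const_of hδ hd s hs
    simp only [real_inner_self_eq_norm_sq, hg0, hv₀] at h5
    have h6 : 0 ≤ ‖g s‖ := norm_nonneg _
    nlinarith
  -- the eigenvalue equation and the vanishing of the third derivative
  have heig : ∀ s ∈ Ioo (-δ) δ, (∀ b, H2 h (g s) (EE h σ w (g s)) b =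
      rr h σ (g s) * ⟪EE h σ w (g s), b⟫) ∧
      d3 h (g s) (EE h σ w (g s)) (EE h σ w (g s)) (EE h σ w (g s)) = 0 := by
    intro s hs
    obtain ⟨n1, n2, n3, n4⟩ := hnI s hs
    obtain ⟨hu, hd3⟩ := hWp (g s) n1 (hgn s hs)
    obtain ⟨e, e', he, he', -, -, hee, hD, -, -, -, hH⟩ := at_point h0 h1 hh hσ (hgn s hs) hu
    have hEq := EE_eq (w := w) he hee he' hH
    obtain ⟨c, hc⟩ : ∃ c, c = rr h σ (g s) * ((rr h σ (g s) - rr h (-σ) (g s)) * ⟪e, w⟫) :=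
      ⟨_, rfl⟩
    rw [← hc] at hEq
    have i1 : ⟪e, e⟫ = (1:ℝ) := by rw [real_inner_self_eq_norm_sq, he]; norm_num
    have i3 : ⟪e', e⟫ = (0:ℝ) := (real_inner_comm _ _).trans hee
    refine ⟨fun b => ?_, ?_⟩
    · rw [hEq, hH, real_inner_smul_right, real_inner_smul_right, real_inner_smul_left, i1, i3]
      ring
    · rw [hEq]
      have := hd3 e hD
      unfold d3 at this ⊢
      simp only [map_smul, ContinuousLinearMap.smul_apply, smul_eq_mul, this, mul_zero]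
  -- the eigenvalue is constant along the curve
  have hρ : ∀ s ∈ Ioo (-δ) δ, HasDerivAt (fun s => rr h σ (g s)) 0 s := by
    intro s hs
    obtain ⟨n1, n2, n3, n4⟩ := hnI s hs
    have dg := hgI s hs
    have dr : HasDerivAt (fun s => rr h σ (g s)) (fderiv ℝ (rr h σ) (g s) (EE h σ w (g s))) s :=
      ((smoothr hh n2 n3.ne' σ).differentiableAt (by simp)).hasFDerivAt.comp_hasDerivAt s dg
    have de : HasDerivAt (fun s => EE h σ w (g s))
        (fderiv ℝ (EE h σ w) (g s) (EE h σ w (g s))) s :=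
      ((smoothE hh n2 n3.ne' σ w).differentiableAt (by simp)).hasFDerivAt.comp_hasDerivAt s dg
    have dH : HasDerivAt (fun s => H2 h (g s)) (fderiv ℝ (H2 h) (g s) (EE h σ w (g s))) s :=
      ((smooth2 hh n2).differentiableAt (by simp)).hasFDerivAt.comp_hasDerivAt s dg
    obtain ⟨ρ', hρ'⟩ : ∃ ρ', ρ' = fderiv ℝ (rr h σ) (g s) (EE h σ w (g s)) := ⟨_, rfl⟩
    obtain ⟨e', he'⟩ : ∃ e', e' = fderiv ℝ (EE h σ w) (g s) (EE h σ w (g s)) := ⟨_, rfl⟩
    rw [← hρ'] at dr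
    rw [← he'] at de
    have key : ∀ b, fderiv ℝ (H2 h) (g s) (EE h σ w (g s)) (EE h σ w (g s)) b +
        H2 h (g s) e' b = ρ' * ⟪EE h σ w (g s), b⟫ + rr h σ (g s) * ⟪e', b⟫ := by
      intro b
      have l1 : HasDerivAt (fun s => H2 h (g s) (EE h σ w (g s)) b)
          (fderiv ℝ (H2 h) (g s) (EE h σ w (g s)) (EE h σ w (g s)) b + H2 h (g s) e' b) s := by
        have := (dH.clm_apply de).clm_apply (hasDerivAt_const s b)
        simpa using this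
      have l2 : HasDerivAt (fun s => rr h σ (g s) * ⟪EE h σ w (g s), b⟫)
          (ρ' * ⟪EE h σ w (g s), b⟫ + rr h σ (g s) * ⟪e', b⟫) s := by
        have li : HasDerivAt (fun s => ⟪EE h σ w (g s), b⟫) ⟪e', b⟫ s := by
          have := de.inner ℝ (hasDerivAt_const s b)
          simpa using this
        exact dr.fun_mul li
      have l3 : (fun s => H2 h (g s) (EE h σ w (g s)) b) =ᶠ[𝓝 s]
          fun s => rr h σ (g s) * ⟪EE h σ w (g s), b⟫ := by
        filter_upwards [isOpen_Ioo.mem_nhds hs] with t ht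
        exact (heig t ht).1 b
      exact l1.unique (l2.congr_of_eventuallyEq l3)
    have hk := key (EE h σ w (g s))
    obtain ⟨q1, q2⟩ := heig s hs
    have q3 : fderiv ℝ (H2 h) (g s) (EE h σ w (g s)) (EE h σ w (g s)) (EE h σ w (g s)) = 0 := q2
    have q4 : H2 h (g s) e' (EE h σ w (g s)) = rr h σ (g s) * ⟪e', EE h σ w (g s)⟫ := by
      have h5 : H2 h (g s) e' (EE h σ w (g s)) = H2 h (g s) (EE h σ w (g s)) e' :=
        (h0 h hh (g s) n2).2.2.1 _ _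
      rw [h5, q1, real_inner_comm]
    rw [q3, q4, zero_add, real_inner_self_eq_norm_sq] at hk
    have h6 : ρ' * ‖EE h σ w (g s)‖ ^ 2 = 0 := by linarith
    have h7 : ‖EE h σ w (g s)‖ ^ 2 ≠ 0 := pow_ne_zero 2 (norm_ne_zero_iff.mpr n4)
    have h8 : ρ' = 0 := (mul_eq_zero.mp h6).resolve_right h7
    rwa [h8] at dr
  have hρc := const_of hδ hρ
  simp only [hg0] at hρc
  -- the normals pass through one point
  obtain ⟨ρ₀, hρ₀⟩ : ∃ ρ₀, ρ₀ = rr h σ v₀ := ⟨_, rfl⟩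
  rw [← hρ₀] at hρc
  have hgrad : ∀ (x : E3), ∀ s ∈ Ioo (-δ) δ, d1 h (g s) x - ρ₀ * ⟪g s, x⟫ =
      d1 h v₀ x - ρ₀ * ⟪v₀, x⟫ := by
    intro x s hs
    have hd : ∀ t ∈ Ioo (-δ) δ, HasDerivAt (fun t => d1 h (g t) x - ρ₀ * ⟪g t, x⟫) 0 t := by
      intro t ht
      obtain ⟨n1, n2, n3, n4⟩ := hnI t ht
      have dg := hgI t ht
      have d1' : HasDerivAt (fun s => fderiv ℝ h (g s)) (H2 h (g t) (EE h σ w (g t))) t :=
        ((smooth1 hh n2).differentiableAt (by simp)).hasFDerivAt.comp_hasDerivAt t dg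
      have l1 : HasDerivAt (fun s => fderiv ℝ h (g s) x) (H2 h (g t) (EE h σ w (g t)) x) t := by
        have := d1'.clm_apply (hasDerivAt_const t x)
        simpa using this
      have l2 : HasDerivAt (fun s => ρ₀ * ⟪g s, x⟫) (ρ₀ * ⟪EE h σ w (g t), x⟫) t := by
        have := (dg.inner ℝ (hasDerivAt_const t x)).const_mul ρ₀
        simpa using this
      have l3 := l1.sub l2
      rw [(heig t ht).1 x, hρc t ht, sub_self] at l3
      exact l3
    have := const_of hδ hd s hs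
    simpa only [hg0] using this
  obtain ⟨p, hp⟩ : ∃ p : E3, ∀ x, ⟪p, x⟫ = d1 h v₀ x - ρ₀ * ⟪v₀, x⟫ := by
    refine ⟨(InnerProductSpace.toDual ℝ E3).symm (fderiv ℝ h v₀) - ρ₀ • v₀, fun x => ?_⟩
    rw [inner_sub_left, InnerProductSpace.toDual_symm_apply, real_inner_smul_left]
    rfl
  have hcrit : ∀ s ∈ Ioo (-δ) δ, Crit h p (g s) := by
    intro s hs
    refine ⟨hgn s hs, fun x hx => ?_⟩
    rw [hp, ← hgrad x s hs, hx, mul_zero, sub_zero]
  refine ⟨p, ?_, ?_⟩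
  · have := hcrit 0 h0I
    rwa [hg0] at this
  · intro hfin
    have d0 : HasDerivAt g (EE h σ w v₀) 0 := by
      have := hgI 0 h0I
      rwa [hg0] at this
    have h2 : ∀ᶠ s in 𝓝[≠] (0:ℝ), ∀ c ∈ {v | Crit h p v}, g s ≠ c :=
      (Filter.eventually_all_finite hfin).mpr fun c _ => d0.eventually_ne hE0
    have h3 : ∀ᶠ s in 𝓝[≠] (0:ℝ), s ∈ Ioo (-δ) δ :=
      nhdsWithin_le_nhds (isOpen_Ioo.mem_nhds h0I)
    obtain ⟨s, hs1, hs2⟩ := (h2.and h3).exists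
    exact hs1 (g s) (hcrit s hs2) rfl

end Pool.Agent.K1H41.OV
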